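import Pool.Agent.BWG.GDefs

set_option autoImplicit false

open MeasureTheory Finset Filter Topology Matrix
open scoped ENNReal


namespace BWG



theorem A1_minor {m : ℕ} (v : Fin m → Fin (m + 1) → ℝ) (b : Fin (m + 1) → ℝ) :
    Matrix.det (Matrix.of (Fin.cons b v : Fin (m + 1) → Fin (m + 1) → ℝ)) =
      ∑ j : Fin (m + 1), (-1) ^ (j : ℕ) * b j *
        Matrix.det (Matrix.of fun (i : Fin m) (j' : Fin m) => v i (j.succAbove j')) := by
  rw [Matrix.det_succ_row_zero]
  refine Finset.sum_congr rfl fun j _ => ?_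
  congr 1

/-- A1a. PROOF. Expand both determinants along row `0` (`Matrix.det_succ_row_zero`): the minors
(`submatrix Fin.succ (Fin.succAbove j)`) do not involve row `0`, hence are the same. With row
`0 = Pi.single i 1` only one term is left: `cr v i = (-1)^i * minor i`, so
`∑ i, b i * cr v i = det` with row `0 = b`. -/
theorem A1_det {m : ℕ} (v : Fin m → Fin (m + 1) → ℝ) (b : Fin (m + 1) → ℝ) :
    b ⬝ᵥ cr v = Matrix.det
      (Matrix.of (Fin.cons b v : Fin (m + 1) → Fin (m + 1) → ℝ)) := by
  rw [A1_minor]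
  unfold dotProduct
  refine Finset.sum_congr rfl fun i _ => ?_
  show b i * Matrix.det (Matrix.of (Fin.cons (Pi.single i 1) v : Fin (m + 1) → Fin (m + 1) → ℝ)) = _
  rw [A1_minor, Finset.sum_eq_single i]
  · rw [Pi.single_eq_same]
    ring
  · intro j _ hj
    rw [Pi.single_eq_of_ne hj]
    ring
  · intro h
    exact absurd (Finset.mem_univ i) h

/-- A1b. PROOF. By A1a with `b = v k`: the rows `0` and `k.succ` are equal
(`Matrix.det_zero_of_row_eq`). -/
theorem A1_orth {m : ℕ} (v : Fin m → Fin (m + 1) → ℝ) (k : Fin m) : v k ⬝ᵥ cr v = 0 := by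
  rw [A1_det]
  refine Matrix.det_zero_of_row_eq (i := 0) (j := k.succ) (Fin.succ_ne_zero k).symm ?_
  funext j
  simp [Matrix.of_apply]

/-- A1c. PROOF. `continuous_pi`, `Continuous.matrix_det`, entries are continuous
(cases on the row with `Fin.cases`). -/
theorem A1_cont {m : ℕ} : Continuous (fun v : Fin m → Fin (m + 1) → ℝ => cr v) := by
  refine continuous_pi fun i => ?_
  show Continuous (fun v : Fin m → Fin (m + 1) → ℝ => Matrix.det
    (Matrix.of (Fin.cons (Pi.single i 1) v : Fin (m + 1) → Fin (m + 1) → ℝ)))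
  refine Continuous.matrix_det ?_
  refine continuous_matrix fun r j => ?_
  refine Fin.cases ?_ (fun r' => ?_) r
  · simp only [Matrix.of_apply, Fin.cons_zero]
    exact continuous_const
  · simp only [Matrix.of_apply, Fin.cons_succ]
    exact (continuous_apply j).comp (continuous_apply r')

end BWG
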