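import Pool.Agent.BWG.GDefs
import Pool.Agent.BWG.A1

set_option autoImplicit false

open MeasureTheory Finset Filter Topology Matrix
open scoped ENNReal


namespace BWG



/-- A2a. PROOF. The span of `v` has dimension `m < m + 1`, so some `b` is not in the span
(`Submodule` of smaller finrank is not `⊤`); `Fin.cons b v` is linearly independent
(`linearIndependent_finCons` or similar name), so its determinant is nonzero
(`Matrix.linearIndependent_rows_iff_isUnit`, `Matrix.isUnit_iff_isUnit_det`); by `A1_det` it equals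
`b ⬝ᵥ cr v`, so `cr v ≠ 0`. -/
theorem A2_indep {m : ℕ} (v : Fin m → Fin (m + 1) → ℝ) (h : LinearIndependent ℝ v) :
    cr v ≠ 0 := by
  intro h0
  obtain ⟨b, hb⟩ : ∃ b : Fin (m + 1) → ℝ, b ∉ Submodule.span ℝ (Set.range v) := by
    by_contra h1
    push Not at h1
    have h2 : Submodule.span ℝ (Set.range v) = ⊤ := eq_top_iff.2 fun b _ => h1 b
    have h3 := finrank_span_eq_card h
    rw [h2, finrank_top, Module.finrank_fin_fun, Fintype.card_fin] at h3
    omega
  have h1 : LinearIndependent ℝ (Fin.cons b v : Fin (m + 1) → Fin (m + 1) → ℝ) :=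
    linearIndependent_finCons.2 ⟨h, hb⟩
  have h2 : IsUnit (Matrix.of (Fin.cons b v : Fin (m + 1) → Fin (m + 1) → ℝ)) :=
    Matrix.linearIndependent_rows_iff_isUnit.1 h1
  have h3 := (Matrix.isUnit_iff_isUnit_det _).1 h2
  rw [← A1_det, h0, dotProduct_zero] at h3
  exact not_isUnit_zero h3

/-- A2b. PROOF. The matrix with rows `b, v 0, ...` has determinant `b ⬝ᵥ cr v = 0` (`A1_det`), so
by `Matrix.exists_mulVec_eq_zero_iff` there is `y ≠ 0` orthogonal to all rows; take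
`x = (√(y ⬝ᵥ y))⁻¹ • y`. -/
theorem A2_dep {m : ℕ} (v : Fin m → Fin (m + 1) → ℝ) (h : cr v = 0) (b : Fin (m + 1) → ℝ) :
    ∃ x : Fin (m + 1) → ℝ, x ⬝ᵥ x = 1 ∧ (∀ k, v k ⬝ᵥ x = 0) ∧ b ⬝ᵥ x = 0 := by
  have h1 : Matrix.det (Matrix.of (Fin.cons b v : Fin (m + 1) → Fin (m + 1) → ℝ)) = 0 := by
    rw [← A1_det, h, dotProduct_zero]
  obtain ⟨y, hy, hy0⟩ := Matrix.exists_mulVec_eq_zero_iff.2 h1
  have h2 : 0 < y ⬝ᵥ y := lt_of_le_of_ne (Finset.sum_nonneg fun _ _ => mul_self_nonneg _)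
    (fun h1 => hy (dotProduct_self_eq_zero.1 h1.symm))
  have h3 := Real.sqrt_pos.2 h2
  refine ⟨(Real.sqrt (y ⬝ᵥ y))⁻¹ • y, ?_, ?_, ?_⟩
  · have h4 : Real.sqrt (y ⬝ᵥ y) ^ 2 = y ⬝ᵥ y := Real.sq_sqrt h2.le
    rw [smul_dotProduct, dotProduct_smul, smul_eq_mul, smul_eq_mul]
    generalize Real.sqrt (y ⬝ᵥ y) = s at h3 h4
    rw [← h4]
    field_simp
  · intro k
    have h4 : v k ⬝ᵥ y = 0 := by
      have h5 := congrFun hy0 k.succ
      simpa [Matrix.mulVec] using h5
    rw [dotProduct_smul, h4, smul_zero]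
  · have h4 : b ⬝ᵥ y = 0 := by
      have h5 := congrFun hy0 0
      simpa [Matrix.mulVec] using h5
    rw [dotProduct_smul, h4, smul_zero]

end BWG
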