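import Pool.Agent.BWG.GDefs
import Pool.Agent.BWG.A1

set_option autoImplicit false

open MeasureTheory Finset Filter Topology Matrix
open scoped ENNReal


namespace BWG



/-- A3a. -/
theorem A3_nonneg {k : ℕ} (v : Fin k → ℝ) : 0 ≤ nrm v := Real.sqrt_nonneg _

theorem A3_dot_nonneg {k : ℕ} (v : Fin k → ℝ) : 0 ≤ v ⬝ᵥ v :=
  Finset.sum_nonneg fun _ _ => mul_self_nonneg _

/-- A3b. -/
theorem A3_sq {k : ℕ} (v : Fin k → ℝ) : nrm v ^ 2 = v ⬝ᵥ v :=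
  Real.sq_sqrt (A3_dot_nonneg v)

/-- A3c. -/
theorem A3_pos {k : ℕ} (v : Fin k → ℝ) (h : v ≠ 0) : 0 < nrm v :=
  Real.sqrt_pos.2 (lt_of_le_of_ne (A3_dot_nonneg v)
    (fun h1 => h (dotProduct_self_eq_zero.1 h1.symm)))

/-- A3d. -/
theorem A3_unit {m : ℕ} (v : Fin m → Fin (m + 1) → ℝ) (h : cr v ≠ 0) :
    xh v ⬝ᵥ xh v = 1 := by
  have h1 := A3_pos _ h
  rw [xh, smul_dotProduct, dotProduct_smul, ← A3_sq, smul_eq_mul, smul_eq_mul]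
  field_simp

/-- A3e. PROOF. `A1_orth`. -/
theorem A3_orth {m : ℕ} (v : Fin m → Fin (m + 1) → ℝ) (k : Fin m) : v k ⬝ᵥ xh v = 0 := by
  rw [xh, dotProduct_smul, A1_orth, smul_zero]

/-- A3f. Cauchy-Schwarz. PROOF. `Finset.sum_mul_sq_le_sq_mul_sq` and `Real.abs_le_sqrt`,
`Real.sqrt_mul`. -/
theorem A3_cs {k : ℕ} (u v : Fin k → ℝ) : |u ⬝ᵥ v| ≤ nrm u * nrm v := by
  rw [nrm, nrm, ← Real.sqrt_mul (A3_dot_nonneg u)]
  apply Real.abs_le_sqrt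
  have h1 := Finset.sum_mul_sq_le_sq_mul_sq Finset.univ u v
  simp only [sq] at h1 ⊢
  exact h1

/-- A3g. -/
theorem A3_smul {k : ℕ} (c : ℝ) (v : Fin k → ℝ) : nrm (c • v) = |c| * nrm v := by
  rw [nrm, nrm, smul_dotProduct, dotProduct_smul, smul_eq_mul, smul_eq_mul, ← mul_assoc,
    Real.sqrt_mul (mul_self_nonneg c), Real.sqrt_mul_self_eq_abs]

/-- A3h. -/
theorem A3_unit_nrm {k : ℕ} (v : Fin k → ℝ) (h : v ⬝ᵥ v = 1) : nrm v = 1 := by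
  rw [nrm, h, Real.sqrt_one]

end BWG
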