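import Pool.Agent.BWG.GDefs
import Pool.Agent.BWG.A3

set_option autoImplicit false

open MeasureTheory Finset Filter Topology Matrix
open scoped ENNReal


namespace BWG



theorem A4_z {k : ℕ} (x y : Fin k → ℝ) (hx : x ⬝ᵥ x = 1) (hy : y ⬝ᵥ y = 1) :
    (y - (x ⬝ᵥ y) • x) ⬝ᵥ (y - (x ⬝ᵥ y) • x) = 1 - (x ⬝ᵥ y) ^ 2 := by
  rw [sub_dotProduct, dotProduct_sub, dotProduct_sub, smul_dotProduct, smul_dotProduct,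
    dotProduct_smul, dotProduct_smul, hx, hy, dotProduct_comm y x]
  simp only [smul_eq_mul]
  ring

/-- A4a. PROOF. `z = y - (x ⬝ᵥ y) • x`: `a ⬝ᵥ y = a ⬝ᵥ z`, `z ⬝ᵥ z = 1 - (x ⬝ᵥ y)^2`, so
`nrm z = sn x y`; Cauchy-Schwarz `A3_cs`. -/
theorem A4_le {k : ℕ} (x y a : Fin k → ℝ) (hx : x ⬝ᵥ x = 1) (hy : y ⬝ᵥ y = 1)
    (h : a ⬝ᵥ x = 0) : |a ⬝ᵥ y| ≤ sn x y * nrm a := by
  have h1 : a ⬝ᵥ (y - (x ⬝ᵥ y) • x) = a ⬝ᵥ y := by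
    rw [dotProduct_sub, dotProduct_smul, h, smul_zero, sub_zero]
  have h2 : nrm (y - (x ⬝ᵥ y) • x) = sn x y := by
    rw [nrm, A4_z x y hx hy, sn]
  have h3 := A3_cs a (y - (x ⬝ᵥ y) • x)
  rw [h1, h2, mul_comm] at h3
  exact h3

/-- A4b. PROOF. If `sn x y = 0` trivial. Else let `s = sn x y > 0`,
`z = s⁻¹ • (y - (x ⬝ᵥ y) • x)`, a unit vector orthogonal to `x`. On the event
`|z ⬝ᵥ b| ≤ s⁻¹ (|y ⬝ᵥ b| + |x ⬝ᵥ y| |x ⬝ᵥ b|) ≤ 2 ε / s` (`|x ⬝ᵥ y| ≤ 1` by `A3_cs`), so `hμ.two`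
with `s := ε`, `t := 2 ε / s` bounds the measure by `C ε (2 ε / s)`. (Monotonicity of `μ.real`:
`measureReal_mono`.) -/
theorem A4_two {k : ℕ} (μ : Measure (Fin k → ℝ)) [IsProbabilityMeasure μ] (c C : ℝ)
    (hC : 0 ≤ C) (hμ : Reg μ c C) (x y : Fin k → ℝ) (hx : x ⬝ᵥ x = 1) (hy : y ⬝ᵥ y = 1)
    (ε : ℝ) (hε : 0 ≤ ε) :
    sn x y * μ.real {b | |x ⬝ᵥ b| ≤ ε ∧ |y ⬝ᵥ b| ≤ ε} ≤ 2 * C * ε ^ 2 := by
  rcases (Real.sqrt_nonneg (1 - (x ⬝ᵥ y) ^ 2)).eq_or_lt with h0 | h0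
  · rw [sn, ← h0, zero_mul]
    positivity
  · have hs : sn x y = Real.sqrt (1 - (x ⬝ᵥ y) ^ 2) := rfl
    rw [← hs] at h0
    have hpos : 0 < 1 - (x ⬝ᵥ y) ^ 2 := by
      rw [hs] at h0
      exact Real.sqrt_pos.1 h0
    have hsq : sn x y ^ 2 = 1 - (x ⬝ᵥ y) ^ 2 := by
      rw [hs]
      exact Real.sq_sqrt hpos.le
    have hxy : |x ⬝ᵥ y| ≤ 1 := by
      have h1 := A3_cs x y
      rw [A3_unit_nrm x hx, A3_unit_nrm y hy, mul_one] at h1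
      exact h1
    have hz1 : ((sn x y)⁻¹ • (y - (x ⬝ᵥ y) • x)) ⬝ᵥ ((sn x y)⁻¹ • (y - (x ⬝ᵥ y) • x)) = 1 := by
      rw [smul_dotProduct, dotProduct_smul, A4_z x y hx hy, ← hsq, smul_eq_mul, smul_eq_mul]
      field_simp
    have hz2 : x ⬝ᵥ ((sn x y)⁻¹ • (y - (x ⬝ᵥ y) • x)) = 0 := by
      rw [dotProduct_smul, dotProduct_sub, dotProduct_smul, hx, smul_eq_mul, smul_eq_mul]
      ring
    have h1 := hμ.two x _ hx hz1 hz2 ε (2 * ε / sn x y) hε (by positivity)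
    have h2 : μ.real {b | |x ⬝ᵥ b| ≤ ε ∧ |y ⬝ᵥ b| ≤ ε} ≤
        μ.real {a | |x ⬝ᵥ a| ≤ ε ∧ |((sn x y)⁻¹ • (y - (x ⬝ᵥ y) • x)) ⬝ᵥ a| ≤ 2 * ε / sn x y} := by
      apply measureReal_mono
      · rintro b ⟨hb1, hb2⟩
        refine ⟨hb1, ?_⟩
        rw [smul_dotProduct, sub_dotProduct, smul_dotProduct, smul_eq_mul, smul_eq_mul, abs_mul,
          abs_of_pos (inv_pos.2 h0), inv_mul_eq_div]
        apply div_le_div_of_nonneg_right _ h0.le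
        calc |y ⬝ᵥ b - x ⬝ᵥ y * x ⬝ᵥ b| ≤ |y ⬝ᵥ b| + |x ⬝ᵥ y * x ⬝ᵥ b| := abs_sub _ _
          _ = |y ⬝ᵥ b| + |x ⬝ᵥ y| * |x ⬝ᵥ b| := by rw [abs_mul]
          _ ≤ ε + 1 * ε := add_le_add hb2 (mul_le_mul hxy hb1 (abs_nonneg _) zero_le_one)
          _ = 2 * ε := by ring
      · exact measure_ne_top _ _
    calc sn x y * μ.real {b | |x ⬝ᵥ b| ≤ ε ∧ |y ⬝ᵥ b| ≤ ε}
        ≤ sn x y * (C * ε * (2 * ε / sn x y)) := mul_le_mul_of_nonneg_left (h2.trans h1) h0.le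
      _ = 2 * C * ε ^ 2 := by field_simp

end BWG
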