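import Pool.Agent.BWG.GDefs
import Pool.Agent.BWG.A1

set_option autoImplicit false

open MeasureTheory Finset Filter Topology Matrix
open scoped ENNReal


namespace BWG



/-- M0a. -/
theorem M0_rws {k n m : ℕ} (T : KK n m) :
    Continuous (fun a : Fin n → Fin k → ℝ => rws a T) :=
  continuous_pi fun i => continuous_apply (T.1.orderEmbOfFin T.2 i)

/-- M0b. -/
theorem M0_nrm {k : ℕ} : Continuous (fun v : Fin k → ℝ => nrm v) := by
  unfold nrm
  exact Real.continuous_sqrt.comp (Continuous.dotProduct continuous_id continuous_id)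

/-- M0d. -/
theorem M0_cr {m n : ℕ} (T : KK n m) :
    Measurable (fun a : Fin n → Fin (m + 1) → ℝ => cr (rws a T)) :=
  (A1_cont.comp (M0_rws T)).measurable

/-- M0c. PROOF. `A1_cont`, `M0_rws`, `M0_nrm`, inverse and smul are measurable. -/
theorem M0_xh {m n : ℕ} (T : KK n m) :
    Measurable (fun a : Fin n → Fin (m + 1) → ℝ => xh (rws a T)) := by
  have h1 := M0_cr (m := m) (n := n) T
  have h2 : Measurable (fun a : Fin n → Fin (m + 1) → ℝ => (nrm (cr (rws a T)))⁻¹) :=
    (M0_nrm.measurable.comp h1).inv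
  exact h2.smul h1

/-- M0e. -/
theorem M0_dot {m n : ℕ} (T : KK n m) (i : Fin n) :
    Measurable (fun a : Fin n → Fin (m + 1) → ℝ => xh (rws a T) ⬝ᵥ a i) := by
  have h1 := M0_xh (m := m) (n := n) T
  unfold dotProduct
  refine Finset.measurable_sum _ fun l _ => ?_
  exact ((measurable_pi_apply l).comp h1).mul
    ((measurable_pi_apply l).comp (measurable_pi_apply i))

/-- M0f. -/
theorem M0_GG {m n : ℕ} (T' : KK n m) (i j : Fin n) :
    Measurable (fun a : Fin n → Fin (m + 1) → ℝ => GG a T' i j) := by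
  have h (l : Fin n) : Measurable (fun a : Fin n → Fin (m + 1) → ℝ =>
      (nrm (a l) / |xh (rws a T') ⬝ᵥ a l|) ^ (1 / 2 : ℝ)) :=
    ((M0_nrm.measurable.comp (measurable_pi_apply l)).div
      (M0_dot T' l).abs).pow_const _
  exact (h i).mul (h j)

/-- M0g. Changing a row outside of `T` does not change the rows in `T`
(`Finset.orderEmbOfFin_mem`, `Function.update_of_ne`). -/
theorem M0_upd {k n m : ℕ} (a : Fin n → Fin k → ℝ) (T : KK n m) (i : Fin n) (hi : i ∉ T.1)
    (y : Fin k → ℝ) : rws (Function.update a i y) T = rws a T := by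
  funext l
  unfold rws
  have hl := T.1.orderEmbOfFin_mem T.2 l
  rw [Function.update_of_ne]
  rintro h
  exact hi (h ▸ hl)

/-- M0h. The unit normal is orthogonal to the rows in `T` (`A1_orth`; every `i ∈ T` is
`T.1.orderEmbOfFin T.2 l` for some `l`, `Finset.range_orderEmbOfFin`). -/
theorem M0_orth {m n : ℕ} (a : Fin n → Fin (m + 1) → ℝ) (T : KK n m) (i : Fin n)
    (hi : i ∈ T.1) : a i ⬝ᵥ xh (rws a T) = 0 := by
  have h1 : i ∈ Set.range (T.1.orderEmbOfFin T.2) := by
    rw [Finset.range_orderEmbOfFin]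
    exact hi
  obtain ⟨l, rfl⟩ := h1
  have h2 := A1_orth (rws a T) l
  unfold xh
  rw [dotProduct_smul]
  change _ • (rws a T l ⬝ᵥ cr (rws a T)) = 0
  rw [h2, smul_zero]

end BWG
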