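import Pool.Agent.BWG.GDefs
import Pool.Agent.BWG.A2
import Pool.Agent.BWG.A3
import Pool.Agent.BWG.M0

set_option autoImplicit false

open MeasureTheory Finset Filter Topology Matrix
open scoped ENNReal


namespace BWG



/-- D1. PROOF. Get `T, i` with `|xh (rws a T) ⬝ᵥ B i| ≤ ε`. `S = T.1.map inl ∪ {inr i}` has
`m + 1` elements, so its complement has `(n + r) - (m + 1) = m` elements and the span of the
complementary rows has finrank `≤ m` (`finrank_range_le_card`, `Fintype.card_subtype_compl` or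
`Fintype.card_coe`). If `cr (rws a T) ≠ 0` take `x = xh (rws a T)` (`A3_unit`; `M0_orth`), else
`x` from `A2_dep (rws a T) _ (B i)`. Every row in `T` is orthogonal to `x`, so the sum over `S` is
`(B i ⬝ᵥ x)^2 ≤ ε^2` (`Real.sqrt_sq_eq_abs`). (`x ⬝ᵥ x = ∑ j, x j * x j`, unfold `dotProduct`.) -/
theorem D1_good {m n r : ℕ} (hnr : n + r = 2 * m + 1)
    (a : Fin n → Fin (m + 1) → ℝ) (B : Fin r → Fin (m + 1) → ℝ) (ε : ℝ) (hε : 0 ≤ ε)
    (h : ¬ (∀ (T : KK n m) (i : Fin r), ε < |xh (rws a T) ⬝ᵥ B i|)) :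
    ∃ S : Finset (Fin n ⊕ Fin r),
      Module.finrank ℝ (Submodule.span ℝ (Set.range
        (fun i : {i : Fin n ⊕ Fin r // i ∉ S} => Sum.elim a B i.1))) < m + 1 ∧
      ∃ x : Fin (m + 1) → ℝ, ∑ j, x j ^ 2 = 1 ∧
        Real.sqrt (∑ i ∈ S, (∑ j, Sum.elim a B i j * x j) ^ 2) ≤ ε := by
  push Not at h
  obtain ⟨T, i, hTi⟩ := h
  obtain ⟨x, hx1, hx2, hx3⟩ : ∃ x : Fin (m + 1) → ℝ, x ⬝ᵥ x = 1 ∧ (∀ k ∈ T.1, a k ⬝ᵥ x = 0) ∧
      |B i ⬝ᵥ x| ≤ ε := by
    by_cases hc : cr (rws a T) = 0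
    · obtain ⟨x, h1, h2, h3⟩ := A2_dep (rws a T) hc (B i)
      refine ⟨x, h1, fun k hk => ?_, by rw [h3, abs_zero]; exact hε⟩
      have hk' : k ∈ Set.range (T.1.orderEmbOfFin T.2) := by
        rw [Finset.range_orderEmbOfFin]; exact hk
      obtain ⟨j, rfl⟩ := hk'
      exact h2 j
    · refine ⟨xh (rws a T), A3_unit _ hc, fun k hk => M0_orth a T k hk, ?_⟩
      rw [dotProduct_comm]
      exact hTi
  let S : Finset (Fin n ⊕ Fin r) := T.1.map Function.Embedding.inl ∪ {Sum.inr i}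
  have hS : S.card = m + 1 := by
    rw [Finset.card_union_of_disjoint, Finset.card_map, T.2, Finset.card_singleton]
    rw [Finset.disjoint_singleton_right, Finset.mem_map]
    rintro ⟨k, -, hk⟩
    exact (nomatch hk)
  refine ⟨S, ?_, x, ?_, ?_⟩
  · refine lt_of_le_of_lt (finrank_range_le_card _) ?_
    rw [Fintype.card_subtype_compl, Fintype.card_sum, Fintype.card_fin, Fintype.card_fin,
      Fintype.card_coe, hS]
    omega
  · rw [← hx1]
    simp only [dotProduct, sq]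
  · have h1 : ∑ s ∈ S, (∑ j, Sum.elim a B s j * x j) ^ 2 = (B i ⬝ᵥ x) ^ 2 := by
      rw [Finset.sum_eq_single_of_mem (Sum.inr i) (by simp [S])]
      · rfl
      · intro s hs hne
        rcases Finset.mem_union.1 hs with h | h
        · obtain ⟨k, hk, rfl⟩ := Finset.mem_map.1 h
          have h2 : ∑ j, Sum.elim a B (Function.Embedding.inl k) j * x j = a k ⬝ᵥ x := rfl
          rw [h2, hx2 k hk]
          norm_num
        · exact (hne (Finset.mem_singleton.1 h)).elim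
    rw [h1, Real.sqrt_sq_eq_abs]
    exact hx3

end BWG
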