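import Pool.Agent.BWG.GDefs
import Pool.Agent.BWG.D1
import Pool.Agent.BWG.A3
import Pool.Agent.BWG.M0

set_option autoImplicit false

open MeasureTheory Finset Filter Topology Matrix
open scoped ENNReal


namespace BWG



/-- D2a. PROOF. Compose `measurePreserving_piCongrLeft` (for the equivalence
`e = finSumFinEquiv.trans (finCongr hnr) : Fin n ⊕ Fin r ≃ Fin (2*m+1)`, or its inverse) with
`measurePreserving_sumPiEquivProdPi`. -/
theorem D2_split {n r N : ℕ} (hnr : n + r = N) {X : Type} [MeasurableSpace X] (μ : Measure X)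
    [IsProbabilityMeasure μ] (e : Fin n ⊕ Fin r ≃ Fin N) :
    MeasurePreserving (fun A : Fin N → X => ((fun i => A (e (Sum.inl i))),
      (fun i => A (e (Sum.inr i))))) (Measure.pi (fun _ : Fin N => μ))
      ((Measure.pi (fun _ : Fin n => μ)).prod (Measure.pi (fun _ : Fin r => μ))) := by
  have h1 := (measurePreserving_piCongrLeft (fun _ : Fin N => μ) e).symm
  have h2 := measurePreserving_sumPiEquivProdPi (fun _ : Fin n ⊕ Fin r => μ)
  exact h2.comp h1

/-- D2b. PROOF. Let `u = Pi.single 0 1`: `|u ⬝ᵥ a| = |a 0| ≤ nrm a`, so `{nrm a ≤ t} ⊆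
{|u ⬝ᵥ a| ≤ t}`, use `hμ.up`; the law of `A i` is `μ` (`measurePreserving_eval`). -/
theorem D2_small {m N : ℕ} (μ : Measure (Fin (m + 1) → ℝ)) [IsProbabilityMeasure μ] (c C : ℝ)
    (hμ : Reg μ c C) (i : Fin N) (t : ℝ) (ht : 0 ≤ t) :
    (Measure.pi (fun _ : Fin N => μ)) {A | nrm (A i) ≤ t} ≤ ENNReal.ofReal (C * t) := by
  have h1 := measurePreserving_eval (fun _ : Fin N => μ) i
  have hm : MeasurableSet {v : Fin (m + 1) → ℝ | nrm v ≤ t} :=
    measurableSet_le M0_nrm.measurable measurable_const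
  have h2 : (Measure.pi (fun _ : Fin N => μ)) {A | nrm (A i) ≤ t} =
      μ {v : Fin (m + 1) → ℝ | nrm v ≤ t} := h1.measure_preimage hm.nullMeasurableSet
  rw [h2]
  have hu : (Pi.single 0 1 : Fin (m + 1) → ℝ) ⬝ᵥ (Pi.single 0 1 : Fin (m + 1) → ℝ) = 1 := by
    rw [single_dotProduct, Pi.single_eq_same, mul_one]
  have h3 : {v : Fin (m + 1) → ℝ | nrm v ≤ t} ⊆
      {a | |(Pi.single 0 1 : Fin (m + 1) → ℝ) ⬝ᵥ a| ≤ t} := by
    intro v hv
    have h4 := A3_cs (Pi.single 0 1 : Fin (m + 1) → ℝ) v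
    rw [A3_unit_nrm _ hu, one_mul] at h4
    exact h4.trans hv
  refine (measure_mono h3).trans ?_
  have h5 := hμ.up (Pi.single 0 1) hu t ht
  rw [← ENNReal.ofReal_toReal (measure_ne_top μ _)]
  exact ENNReal.ofReal_le_ofReal h5

/-- D2c. PROOF. Let `e = finSumFinEquiv.trans (finCongr hnr)`, `Φ` the map of `D2_split`. Claim:
`{A | ¬ BW (m+1) β A} ⊆ Φ⁻¹ {p | ∀ T i, ε < ..} ∪ {A | nrm (A 0) ≤ ε / β^(m+1)}`. Indeed if
`Φ A` is not in the first set, `D1_good` gives `S, x`; transport `S` to `Fin (2*m+1)` by `e`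
(`S.map e.toEmbedding`; the sum by `Finset.sum_map`; the range of the complementary rows is the
same set) and if `nrm (A 0) > ε / β^(m+1)` then `sqrt (..) ≤ ε ≤ nrm (A 0) * β^(m+1)`, so `BW`
holds with `k = 0`. The measure of the first set is computed by `MeasurePreserving.measure_preimage`
(the set is measurable, `M0_xh`), the second by `D2_small`. -/
theorem D2_main {m n r : ℕ} (hnr : n + r = 2 * m + 1)
    (μ : Measure (Fin (m + 1) → ℝ)) [IsProbabilityMeasure μ] (c C : ℝ) (hμ : Reg μ c C)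
    (ε β : ℝ) (hε : 0 ≤ ε) (hβ : 0 < β) :
    (Measure.pi (fun _ : Fin (2 * m + 1) => μ)) {A | ¬ BW (m + 1) β A} ≤
      ((Measure.pi (fun _ : Fin n => μ)).prod (Measure.pi (fun _ : Fin r => μ)))
        {p : (Fin n → Fin (m + 1) → ℝ) × (Fin r → Fin (m + 1) → ℝ) |
          ∀ (T : KK n m) (i : Fin r), ε < |xh (rws p.1 T) ⬝ᵥ p.2 i|} +
      ENNReal.ofReal (C * (ε / β ^ (m + 1))) := by
  set e : Fin n ⊕ Fin r ≃ Fin (2 * m + 1) := finSumFinEquiv.trans (finCongr hnr) with he
  have hsplit := D2_split hnr μ e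
  set G : Set ((Fin n → Fin (m + 1) → ℝ) × (Fin r → Fin (m + 1) → ℝ)) :=
    {p : (Fin n → Fin (m + 1) → ℝ) × (Fin r → Fin (m + 1) → ℝ) |
      ∀ (T : KK n m) (i : Fin r), ε < |xh (rws p.1 T) ⬝ᵥ p.2 i|} with hG
  have hGm : MeasurableSet G := by
    have e1 : G = ⋂ (T : KK n m), ⋂ (i : Fin r),
        {p : (Fin n → Fin (m + 1) → ℝ) × (Fin r → Fin (m + 1) → ℝ) |
          ε < |xh (rws p.1 T) ⬝ᵥ p.2 i|} := by
      ext p
      simp only [hG, Set.mem_ofPred_eq, Set.mem_iInter]
    rw [e1]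
    refine MeasurableSet.iInter fun T => MeasurableSet.iInter fun i => ?_
    have hx : Measurable fun p : (Fin n → Fin (m + 1) → ℝ) × (Fin r → Fin (m + 1) → ℝ) =>
        xh (rws p.1 T) := (M0_xh T).comp measurable_fst
    have hd : Measurable fun p : (Fin n → Fin (m + 1) → ℝ) × (Fin r → Fin (m + 1) → ℝ) =>
        xh (rws p.1 T) ⬝ᵥ p.2 i := by
      unfold dotProduct
      refine Finset.measurable_sum _ fun j _ => ?_
      have h1 : Measurable fun p : (Fin n → Fin (m + 1) → ℝ) × (Fin r → Fin (m + 1) → ℝ) =>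
          xh (rws p.1 T) j := (measurable_pi_apply j).comp hx
      have h2 : Measurable fun p : (Fin n → Fin (m + 1) → ℝ) × (Fin r → Fin (m + 1) → ℝ) =>
          p.2 i j := by fun_prop
      exact h1.mul h2
    exact measurableSet_lt measurable_const hd.abs
  have hβM : 0 < β ^ (m + 1) := by positivity
  have hsub : {A : Fin (2 * m + 1) → Fin (m + 1) → ℝ | ¬ BW (m + 1) β A} ⊆
      ((fun A : Fin (2 * m + 1) → (Fin (m + 1) → ℝ) => ((fun i => A (e (Sum.inl i))),
        (fun i => A (e (Sum.inr i))))) ⁻¹' G) ∪ {A | nrm (A 0) ≤ ε / β ^ (m + 1)} := by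
    intro A hA
    by_contra hcon
    rw [Set.mem_union, not_or] at hcon
    obtain ⟨hc1, hc2⟩ := hcon
    have hc2' : ε / β ^ (m + 1) < nrm (A 0) := not_le.1 hc2
    rw [div_lt_iff₀ hβM] at hc2'
    obtain ⟨S, hS1, x, hx, hS2⟩ := D1_good hnr (fun i => A (e (Sum.inl i)))
      (fun i => A (e (Sum.inr i))) ε hε hc1
    have hel : ∀ i : Fin n ⊕ Fin r, Sum.elim (fun i => A (e (Sum.inl i)))
        (fun i => A (e (Sum.inr i))) i = A (e i) := by
      rintro (i | i) <;> rfl
    apply hA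
    refine ⟨S.map e.toEmbedding, ?_, x, hx, 0, ?_⟩
    · have hr : Set.range (fun i : {i : Fin (2 * m + 1) // i ∉ S.map e.toEmbedding} => A i.1) =
          Set.range (fun i : {i : Fin n ⊕ Fin r // i ∉ S} =>
            Sum.elim (fun i => A (e (Sum.inl i))) (fun i => A (e (Sum.inr i))) i.1) := by
        ext v
        constructor
        · rintro ⟨⟨i, hi⟩, rfl⟩
          refine ⟨⟨e.symm i, fun h => hi ?_⟩, ?_⟩
          · rw [Finset.mem_map]
            exact ⟨e.symm i, h, e.apply_symm_apply i⟩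
          · show Sum.elim (fun i => A (e (Sum.inl i))) (fun i => A (e (Sum.inr i))) (e.symm i) = A i
            rw [hel, e.apply_symm_apply]
        · rintro ⟨⟨i, hi⟩, rfl⟩
          refine ⟨⟨e i, fun h => hi ?_⟩, (hel i).symm⟩
          rw [Finset.mem_map] at h
          obtain ⟨j, hj, hji⟩ := h
          have : j = i := e.injective hji
          rwa [← this]
      rw [hr]
      exact hS1
    · rw [Finset.sum_map]
      have hsum : ∑ i ∈ S, (∑ j, A (e.toEmbedding i) j * x j) ^ 2 =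
          ∑ i ∈ S, (∑ j, Sum.elim (fun i => A (e (Sum.inl i)))
            (fun i => A (e (Sum.inr i))) i j * x j) ^ 2 := by
        refine Finset.sum_congr rfl fun i _ => ?_
        rw [hel]
        rfl
      rw [hsum]
      refine hS2.trans ?_
      have hn : Real.sqrt (∑ j, A 0 j ^ 2) = nrm (A 0) := by
        unfold nrm dotProduct
        congr 1
        exact Finset.sum_congr rfl fun j _ => by ring
      rw [hn]
      exact hc2'.le
  refine (measure_mono hsub).trans ((measure_union_le _ _).trans ?_)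
  refine add_le_add ?_ (D2_small μ c C hμ 0 _ (by positivity))
  rw [hsplit.measure_preimage hGm.nullMeasurableSet]

end BWG
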