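import Pool.Agent.BWG.GDefs

set_option autoImplicit false

open MeasureTheory Finset Filter Topology Matrix
open scoped ENNReal


namespace BWG



theorem E1_opt {n : ℕ} (P : Finset (Fin n)) (h : P.card ≤ 1) :
    ∃ p : Option (Fin n), p.toFinset = P := by
  rcases Nat.le_one_iff_eq_zero_or_eq_one.mp h with h | h
  · exact ⟨none, by rw [Finset.card_eq_zero.mp h]; rfl⟩
  · obtain ⟨x, hx⟩ := Finset.card_eq_one.mp h
    exact ⟨some x, by rw [hx]; rfl⟩

/-- E1a. PROOF. `near T T'` means `(T.1 \ T'.1).card ≤ 1`; as the cards are equal also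
`(T'.1 \ T.1).card ≤ 1` (`Finset.card_sdiff_comm` or similar). `T' = (T \ P) ∪ Q` with
`P = T \ T'`, `Q = T' \ T`, each of them empty or a singleton; so `T'` is determined by an element
of `Option (Fin n) × Option (Fin n)` (inject, or show that the filter is contained in the image of
`fun (p, q) => (T \ p.toFinset) ∪ q.toFinset`), which has `(n+1)^2` elements. -/
theorem E1_near {n m : ℕ} (T : KK n m) :
    (univ.filter (fun T' : KK n m => near T T')).card ≤ (n + 1) ^ 2 := by
  classical
  have key : ((univ.filter (fun T' : KK n m => near T T')).image Subtype.val) ⊆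
      (univ : Finset (Option (Fin n) × Option (Fin n))).image
        (fun pq => (T.1 \ pq.1.toFinset) ∪ pq.2.toFinset) := by
    intro S hS
    obtain ⟨T', hT', rfl⟩ := Finset.mem_image.mp hS
    have h1 : (T.1 \ T'.1).card ≤ 1 := (Finset.mem_filter.mp hT').2
    have h2 : (T'.1 \ T.1).card ≤ 1 := by
      rw [Finset.card_sdiff_comm (T'.2.trans T.2.symm)]
      exact h1
    obtain ⟨p, hp⟩ := E1_opt _ h1
    obtain ⟨q, hq⟩ := E1_opt _ h2
    refine Finset.mem_image.mpr ⟨(p, q), Finset.mem_univ _, ?_⟩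
    simp only [hp, hq]
    ext x
    simp only [Finset.mem_union, Finset.mem_sdiff]
    tauto
  calc (univ.filter (fun T' : KK n m => near T T')).card
      = ((univ.filter (fun T' : KK n m => near T T')).image Subtype.val).card :=
        (Finset.card_image_of_injective _ Subtype.val_injective).symm
    _ ≤ _ := Finset.card_le_card key
    _ ≤ (univ : Finset (Option (Fin n) × Option (Fin n))).card := Finset.card_image_le
    _ = (n + 1) ^ 2 := by
      rw [Finset.card_univ, Fintype.card_prod, Fintype.card_option, Fintype.card_fin]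
      ring

/-- E1b. PROOF. If not near, `T \ T'` has at least two elements (`Finset.one_lt_card`); define
`I, J` by choice, arbitrary (`⟨0, hn⟩`) for near pairs. -/
theorem E1_choose {n m : ℕ} (hn : 0 < n) :
    ∃ I J : KK n m → KK n m → Fin n, ∀ T T', ¬ near T T' →
      I T T' ≠ J T T' ∧ I T T' ∈ T.1 ∧ I T T' ∉ T'.1 ∧ J T T' ∈ T.1 ∧ J T T' ∉ T'.1 := by
  have key : ∀ T T' : KK n m, ∃ i j : Fin n, ¬ near T T' →
      i ≠ j ∧ i ∈ T.1 ∧ i ∉ T'.1 ∧ j ∈ T.1 ∧ j ∉ T'.1 := by
    intro T T'
    by_cases h : near T T'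
    · exact ⟨⟨0, hn⟩, ⟨0, hn⟩, fun h' => absurd h h'⟩
    · have h1 : 1 < (T.1 \ T'.1).card := not_le.mp h
      obtain ⟨i, hi, j, hj, hij⟩ := Finset.one_lt_card.mp h1
      rw [Finset.mem_sdiff] at hi hj
      exact ⟨i, j, fun _ => ⟨hij, hi.1, hi.2, hj.1, hj.2⟩⟩
  choose I J hIJ using key
  exact ⟨I, J, hIJ⟩

/-- E1c. -/
theorem E1_card {n m : ℕ} : Fintype.card (KK n m) = n.choose m := by
  have h := Fintype.card_finset_len (α := Fin n) m
  rw [Fintype.card_fin] at h
  exact h

end BWG
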