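import Pool.Agent.BWG.GDefs

set_option autoImplicit false

open MeasureTheory Finset Filter Topology Matrix
open scoped ENNReal


namespace BWG



/-- F0. PROOF. With `lmarginal` (Mathlib.MeasureTheory.Integral.Marginal). Fix any `x : ι → X`
(the space is nonempty because `μ` is a probability measure; if `ι → X` is empty there is
nothing to prove). `lintegral_eq_lmarginal_univ x` turns both sides into
`(∫⋯∫⁻_univ, · ∂μ) x`; apply `lmarginal_erase'` with `i ∈ univ` on both sides: the left side becomes
`∫⋯∫⁻_(univ.erase i) (fun a => ∫⁻ y, f (update a i y) ∂μ)`, and on the right side the inner function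
is `fun a => ∫⁻ y, g (update a i y) ∂μ` with `g a = ∫⁻ y', f (update a i y') ∂μ`; since
`update (update a i y) i y' = update a i y'` (`Function.update_idem`) and `μ` is a probability
measure (`lintegral_const`, `measure_univ`) it is `g a` again. (Measurability of `g`: it is
`Measurable.lintegral_prod_right'` of the measurable map `(a, y) ↦ f (update a i y)`,
`measurable_update'`.) -/
theorem F0_update {ι : Type} [Fintype ι] [DecidableEq ι] {X : Type} [MeasurableSpace X]
    (μ : Measure X) [IsProbabilityMeasure μ] (f : (ι → X) → ℝ≥0∞) (hf : Measurable f) (i : ι) :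
    ∫⁻ a, f a ∂(Measure.pi (fun _ : ι => μ)) =
      ∫⁻ a, ∫⁻ y, f (Function.update a i y) ∂μ ∂(Measure.pi (fun _ : ι => μ)) := by
  rcases isEmpty_or_nonempty (ι → X) with h | ⟨⟨x⟩⟩
  · rw [lintegral_of_isEmpty, lintegral_of_isEmpty]
  · have hg : Measurable (fun a : ι → X => ∫⁻ y, f (Function.update a i y) ∂μ) := by
      have h1 : Measurable (fun p : (ι → X) × X => f (Function.update p.1 i p.2)) :=
        hf.comp (measurable_update' (X := fun _ : ι => X) (a := i))
      exact h1.lintegral_prod_right'
    rw [lintegral_eq_lmarginal_univ (μ := fun _ : ι => μ) (f := f) x,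
      lintegral_eq_lmarginal_univ (μ := fun _ : ι => μ)
        (f := fun a : ι → X => ∫⁻ y, f (Function.update a i y) ∂μ) x,
      lmarginal_erase' (μ := fun _ : ι => μ) f hf (Finset.mem_univ i),
      lmarginal_erase' (μ := fun _ : ι => μ) (fun a : ι → X => ∫⁻ y, f (Function.update a i y) ∂μ)
        hg (Finset.mem_univ i)]
    congr 2
    funext a
    simp only [Function.update_idem, lintegral_const, measure_univ, mul_one]

/-- F0b. The measure of a set that has small sections in the direction `i`.
PROOF. `F0_update` for `f = Set.indicator s 1` (`lintegral_indicator_one`), the inner integral is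
`μ {y | update a i y ∈ s} ≤ δ`. -/
theorem F0_meas {ι : Type} [Fintype ι] [DecidableEq ι] {X : Type} [MeasurableSpace X]
    (μ : Measure X) [IsProbabilityMeasure μ] (s : Set (ι → X)) (hs : MeasurableSet s) (i : ι)
    (δ : ℝ≥0∞) (h : ∀ a, μ {y | Function.update a i y ∈ s} ≤ δ) :
    (Measure.pi (fun _ : ι => μ)) s ≤ δ := by
  have hf : Measurable (s.indicator (1 : (ι → X) → ℝ≥0∞)) := measurable_one.indicator hs
  have h1 := F0_update μ (s.indicator (1 : (ι → X) → ℝ≥0∞)) hf i
  rw [lintegral_indicator_one hs] at h1
  rw [h1]
  have h2 : ∀ a : ι → X, ∫⁻ y, s.indicator (1 : (ι → X) → ℝ≥0∞) (Function.update a i y) ∂μ ≤ δ := by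
    intro a
    have h3 : MeasurableSet {y | Function.update a i y ∈ s} := measurable_update a hs
    have h4 : (fun y => s.indicator (1 : (ι → X) → ℝ≥0∞) (Function.update a i y))
        = {y | Function.update a i y ∈ s}.indicator 1 := by
      funext y
      by_cases hy : Function.update a i y ∈ s
      · rw [Set.indicator_of_mem hy, Set.indicator_of_mem (by exact hy)]
        rfl
      · rw [Set.indicator_of_notMem hy, Set.indicator_of_notMem (by exact hy)]
    rw [h4, lintegral_indicator_one h3]
    exact h a
  calc ∫⁻ a, ∫⁻ y, s.indicator (1 : (ι → X) → ℝ≥0∞) (Function.update a i y) ∂μ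
        ∂(Measure.pi (fun _ : ι => μ))
      ≤ ∫⁻ _, δ ∂(Measure.pi (fun _ : ι => μ)) := lintegral_mono h2
    _ = δ := by rw [lintegral_const, measure_univ, mul_one]

end BWG
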