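import Pool.Agent.BWG.GDefs

set_option autoImplicit false

open MeasureTheory Finset Filter Topology Matrix
open scoped ENNReal


namespace BWG



/-- F1a. PROOF. `hμ.up x hx 0` gives `μ.real {|x ⬝ᵥ b| ≤ 0} ≤ 0`; `measureReal_eq_zero_iff`. -/
theorem F1_null {k : ℕ} (μ : Measure (Fin k → ℝ)) [IsProbabilityMeasure μ] (c C : ℝ)
    (hμ : Reg μ c C) (x : Fin k → ℝ) (hx : x ⬝ᵥ x = 1) : μ {b | x ⬝ᵥ b = 0} = 0 := by
  have h1 := hμ.up x hx 0 le_rfl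
  rw [mul_zero] at h1
  have h2 : {a : Fin k → ℝ | |x ⬝ᵥ a| ≤ 0} = {b | x ⬝ᵥ b = 0} := by
    ext b
    simp only [Set.mem_ofPred_eq, abs_nonpos_iff]
  rw [h2] at h1
  have h3 : μ.real {b | x ⬝ᵥ b = 0} = 0 := le_antisymm h1 measureReal_nonneg
  exact (measureReal_eq_zero_iff).1 h3

/-- F1b. PROOF. Layer cake (`lintegral_rpow_eq_lintegral_meas_lt_mul` with
`f b = |x ⬝ᵥ b|⁻¹ ≥ 0`, `p = 2/3`): the integral is
`ofReal (2/3) * ∫⁻ t in Ioi 0, μ {b | t < |x ⬝ᵥ b|⁻¹} * ofReal (t^(2/3-1))`. For `t > 0`,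
`t < |x ⬝ᵥ b|⁻¹` implies `|x ⬝ᵥ b| ≤ t⁻¹`, so the measure is `≤ 1` and `≤ ofReal (C t⁻¹)`. Split
`Ioi 0 = Ioc 0 1 ∪ Ioi 1`: `(2/3) (∫_0^1 t^(-1/3) + ∫_1^∞ C t^(-4/3)) = (2/3)(3/2 + 3 C) = 1 + 2 C`
(`ofReal_integral_eq_lintegral_ofReal`, `integral_rpow`, `integral_Ioi_rpow_of_lt`,
`intervalIntegrable_rpow'`, `integrableOn_Ioi_rpow_of_lt`). -/
theorem F1_moment {k : ℕ} (μ : Measure (Fin k → ℝ)) [IsProbabilityMeasure μ] (c C : ℝ)
    (hC : 0 < C) (hμ : Reg μ c C) (x : Fin k → ℝ) (hx : x ⬝ᵥ x = 1) :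
    ∫⁻ b, ENNReal.ofReal ((|x ⬝ᵥ b|⁻¹) ^ (2 / 3 : ℝ)) ∂μ ≤ ENNReal.ofReal (1 + 2 * C) := by
  have hm : AEMeasurable (fun b : Fin k → ℝ => |x ⬝ᵥ b|⁻¹) μ := by
    have h4 : Continuous (fun b : Fin k → ℝ => |x ⬝ᵥ b|) := by
      unfold dotProduct
      fun_prop
    exact h4.measurable.inv.aemeasurable
  rw [lintegral_rpow_eq_lintegral_meas_lt_mul μ (ae_of_all _ (fun b => by positivity)) hm
    (by norm_num : (0 : ℝ) < 2 / 3)]
  have hb : ∀ t : ℝ, 0 < t → μ {b | t < |x ⬝ᵥ b|⁻¹} ≤ ENNReal.ofReal (C * t⁻¹) := by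
    intro t ht
    have h5 : {b | t < |x ⬝ᵥ b|⁻¹} ⊆ {b | |x ⬝ᵥ b| ≤ t⁻¹} := by
      intro b hb
      have hb' : t < |x ⬝ᵥ b|⁻¹ := hb
      have h6 : 0 < |x ⬝ᵥ b| := inv_pos.1 (ht.trans hb')
      exact ((lt_inv_comm₀ ht h6).1 hb').le
    have h7 := (measureReal_mono h5).trans (hμ.up x hx t⁻¹ (inv_nonneg.2 ht.le))
    rw [← ofReal_measureReal (measure_ne_top μ _)]
    exact ENNReal.ofReal_le_ofReal h7
  have i1 : ∫⁻ t in Set.Ioc (0 : ℝ) 1, μ {b | t < |x ⬝ᵥ b|⁻¹} * ENNReal.ofReal (t ^ (2 / 3 - 1 : ℝ))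
      ≤ ENNReal.ofReal (3 / 2) := by
    have h8 : IntegrableOn (fun t : ℝ => t ^ (2 / 3 - 1 : ℝ)) (Set.Ioc 0 1) :=
      (intervalIntegrable_iff_integrableOn_Ioc_of_le zero_le_one).1
        (intervalIntegral.intervalIntegrable_rpow' (by norm_num))
    have h9 : ∫ t in Set.Ioc (0 : ℝ) 1, t ^ (2 / 3 - 1 : ℝ) = 3 / 2 := by
      rw [← intervalIntegral.integral_of_le zero_le_one, integral_rpow (Or.inl (by norm_num))]
      rw [Real.one_rpow, Real.zero_rpow (by norm_num)]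
      norm_num
    calc ∫⁻ t in Set.Ioc (0 : ℝ) 1, μ {b | t < |x ⬝ᵥ b|⁻¹} * ENNReal.ofReal (t ^ (2 / 3 - 1 : ℝ))
        ≤ ∫⁻ t in Set.Ioc (0 : ℝ) 1, ENNReal.ofReal (t ^ (2 / 3 - 1 : ℝ)) := by
          refine lintegral_mono (fun t => ?_)
          calc μ {b | t < |x ⬝ᵥ b|⁻¹} * ENNReal.ofReal (t ^ (2 / 3 - 1 : ℝ))
              ≤ 1 * ENNReal.ofReal (t ^ (2 / 3 - 1 : ℝ)) := by gcongr; exact prob_le_one
            _ = _ := one_mul _
      _ = ENNReal.ofReal (∫ t in Set.Ioc (0 : ℝ) 1, t ^ (2 / 3 - 1 : ℝ)) := by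
          rw [ofReal_integral_eq_lintegral_ofReal h8]
          filter_upwards [self_mem_ae_restrict measurableSet_Ioc] with t ht
          exact Real.rpow_nonneg ht.1.le _
      _ = ENNReal.ofReal (3 / 2) := by rw [h9]
  have i2 : ∫⁻ t in Set.Ioi (1 : ℝ), μ {b | t < |x ⬝ᵥ b|⁻¹} * ENNReal.ofReal (t ^ (2 / 3 - 1 : ℝ))
      ≤ ENNReal.ofReal (3 * C) := by
    have h8 : IntegrableOn (fun t : ℝ => C * t ^ (-4 / 3 : ℝ)) (Set.Ioi 1) :=
      (integrableOn_Ioi_rpow_of_lt (by norm_num) zero_lt_one).const_mul C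
    have h9 : ∫ t in Set.Ioi (1 : ℝ), C * t ^ (-4 / 3 : ℝ) = 3 * C := by
      rw [integral_const_mul, integral_Ioi_rpow_of_lt (by norm_num) zero_lt_one, Real.one_rpow]
      norm_num
      ring
    calc ∫⁻ t in Set.Ioi (1 : ℝ), μ {b | t < |x ⬝ᵥ b|⁻¹} * ENNReal.ofReal (t ^ (2 / 3 - 1 : ℝ))
        ≤ ∫⁻ t in Set.Ioi (1 : ℝ), ENNReal.ofReal (C * t ^ (-4 / 3 : ℝ)) := by
          refine setLIntegral_mono' measurableSet_Ioi (fun t ht => ?_)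
          have ht0 : (0 : ℝ) < t := zero_lt_one.trans ht
          calc μ {b | t < |x ⬝ᵥ b|⁻¹} * ENNReal.ofReal (t ^ (2 / 3 - 1 : ℝ))
              ≤ ENNReal.ofReal (C * t⁻¹) * ENNReal.ofReal (t ^ (2 / 3 - 1 : ℝ)) := by
                gcongr
                exact hb t ht0
            _ = ENNReal.ofReal (C * t ^ (-4 / 3 : ℝ)) := by
                rw [← ENNReal.ofReal_mul (by positivity)]
                congr 1
                rw [mul_assoc, ← Real.rpow_neg_one, ← Real.rpow_add ht0]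
                norm_num
      _ = ENNReal.ofReal (∫ t in Set.Ioi (1 : ℝ), C * t ^ (-4 / 3 : ℝ)) := by
          rw [ofReal_integral_eq_lintegral_ofReal h8]
          filter_upwards [self_mem_ae_restrict measurableSet_Ioi] with t ht
          exact mul_nonneg hC.le (Real.rpow_nonneg (zero_lt_one.trans ht).le _)
      _ = ENNReal.ofReal (3 * C) := by rw [h9]
  have hsplit : Set.Ioi (0 : ℝ) = Set.Ioc 0 1 ∪ Set.Ioi 1 :=
    (Set.Ioc_union_Ioi_eq_Ioi zero_le_one).symm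
  calc ENNReal.ofReal (2 / 3) * ∫⁻ t in Set.Ioi (0 : ℝ), μ {b | t < |x ⬝ᵥ b|⁻¹}
        * ENNReal.ofReal (t ^ (2 / 3 - 1 : ℝ))
      ≤ ENNReal.ofReal (2 / 3) * (ENNReal.ofReal (3 / 2) + ENNReal.ofReal (3 * C)) := by
        rw [hsplit]
        gcongr
        exact (lintegral_union_le _ _ _).trans (add_le_add i1 i2)
    _ = ENNReal.ofReal (1 + 2 * C) := by
        rw [← ENNReal.ofReal_add (by norm_num) (by positivity),
          ← ENNReal.ofReal_mul (by norm_num)]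
        congr 1
        ring

end BWG
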