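import Pool.Agent.BWG.GDefs
import Pool.Agent.BWG.F0

set_option autoImplicit false

open MeasureTheory Finset Filter Topology Matrix
open scoped ENNReal


namespace BWG



/-- U2a. A proper subspace is null. PROOF. `Submodule.exists_le_ker_of_lt_top`: there is a nonzero
linear functional `f` with `p ≤ ker f`; `f y = w ⬝ᵥ y` with `w i = f (Pi.single i 1)`, `w ≠ 0`;
`u = (√(w ⬝ᵥ w))⁻¹ • w` is a unit vector and `p ⊆ {y | |u ⬝ᵥ y| ≤ 0}`, which has measure `0` by
`hμ.up` with `t = 0`. -/
theorem U2_sub {k : ℕ} (μ : Measure (Fin k → ℝ)) [IsProbabilityMeasure μ] (c C : ℝ)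
    (hμ : Reg μ c C) (p : Submodule ℝ (Fin k → ℝ)) (hp : p ≠ ⊤) : μ (p : Set (Fin k → ℝ)) = 0 := by
  obtain ⟨f, hf0, hf⟩ := Submodule.exists_le_ker_of_lt_top p (lt_top_iff_ne_top.mpr hp)
  set w : Fin k → ℝ := fun i => f (fun j => if i = j then 1 else 0) with hw
  have hfw : ∀ y, f y = w ⬝ᵥ y := by
    intro y
    rw [LinearMap.pi_apply_eq_sum_univ f y, dotProduct]
    refine Finset.sum_congr rfl fun i _ => ?_
    rw [smul_eq_mul, mul_comm]
  have hwne : w ≠ 0 := by
    intro h
    apply hf0
    refine LinearMap.ext fun y => ?_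
    rw [hfw, h, zero_dotProduct]
    rfl
  have hww : 0 < w ⬝ᵥ w := by
    have h1 : 0 ≤ w ⬝ᵥ w := by
      rw [dotProduct]
      exact Finset.sum_nonneg fun i _ => mul_self_nonneg _
    rcases h1.lt_or_eq with h | h
    · exact h
    · exact absurd (dotProduct_self_eq_zero.mp h.symm) hwne
  set r : ℝ := Real.sqrt (w ⬝ᵥ w) with hr
  have hrpos : 0 < r := Real.sqrt_pos.mpr hww
  have hrr : r * r = w ⬝ᵥ w := Real.mul_self_sqrt hww.le
  have hu : (r⁻¹ • w) ⬝ᵥ (r⁻¹ • w) = 1 := by
    rw [smul_dotProduct, dotProduct_smul, smul_eq_mul, smul_eq_mul, ← hrr]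
    field_simp
  have h1 := hμ.up (r⁻¹ • w) hu 0 le_rfl
  rw [mul_zero] at h1
  have h2 : μ {a | |(r⁻¹ • w) ⬝ᵥ a| ≤ 0} = 0 := by
    have h3 : μ.real {a | |(r⁻¹ • w) ⬝ᵥ a| ≤ 0} = 0 := le_antisymm h1 measureReal_nonneg
    exact (measureReal_eq_zero_iff).mp h3
  refine measure_mono_null ?_ h2
  intro y hy
  have h4 : f y = 0 := hf hy
  show |(r⁻¹ • w) ⬝ᵥ y| ≤ 0
  rw [smul_dotProduct, ← hfw, h4, smul_zero, abs_zero]

theorem U2_open {k l : ℕ} {ι : Type} (e : Fin l → ι) :
    IsOpen {a : ι → Fin k → ℝ | LinearIndependent ℝ (fun i : Fin l => a (e i))} := by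
  have h := isOpen_setOfPred_linearIndependent (𝕜 := ℝ) (E := Fin k → ℝ) (ι := Fin l)
  exact h.preimage (f := fun a : ι → Fin k → ℝ => fun i : Fin l => a (e i))
    (continuous_pi fun i => continuous_apply (e i))

/-- U2b. PROOF. Induction on `j`, `j = 0` by `linearIndependent_empty_type`. Step: let
`e' = fun i : Fin j => e i.succ`. The families `(a (e i))` are independent iff `(a (e' i))` are
independent and `a (e 0) ∉ span (range (a ∘ e'))` (`linearIndependent_fin_succ`). The set
`{a | LinearIndependent ℝ (fun i => a (e i))}` is open (preimage under a continuous map of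
`isOpen_setOf_linearIndependent`), so the bad set `s = {a | LI (a ∘ e') ∧ ¬ LI (a ∘ e)}` is
measurable; by `F0_meas` with the coordinate `e 0` and `δ = 0` it is null: updating `a` at `e 0`
does not change `a ∘ e'` (injectivity), and if `a ∘ e'` is independent, `span (range (a ∘ e'))` has
dimension `j < k`, so it is not `⊤` and `U2_sub` applies. Combine with the induction hypothesis. -/
theorem U2_indep {k : ℕ} (μ : Measure (Fin k → ℝ)) [IsProbabilityMeasure μ] (c C : ℝ)
    (hμ : Reg μ c C) {ι : Type} [Fintype ι] [DecidableEq ι] (j : ℕ) (hj : j ≤ k)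
    (e : Fin j → ι) (he : Function.Injective e) :
    ∀ᵐ a ∂(Measure.pi (fun _ : ι => μ)), LinearIndependent ℝ (fun i : Fin j => a (e i)) := by
  induction j with
  | zero => exact Filter.Eventually.of_forall fun a => linearIndependent_empty_type
  | succ j ih =>
    have ih' := ih (by omega) (fun i => e i.succ) (he.comp (Fin.succ_injective _))
    set s : Set (ι → Fin k → ℝ) := {a | LinearIndependent ℝ (fun i : Fin j => a (e i.succ)) ∧
      ¬ LinearIndependent ℝ (fun i : Fin (j + 1) => a (e i))} with hsdef
    have ho1 : IsOpen {a : ι → Fin k → ℝ | LinearIndependent ℝ (fun i : Fin j => a (e i.succ))} :=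
      U2_open (fun i : Fin j => e i.succ)
    have ho2 : IsOpen {a : ι → Fin k → ℝ | LinearIndependent ℝ (fun i : Fin (j + 1) => a (e i))} :=
      U2_open e
    have hs : MeasurableSet s := ho1.measurableSet.inter ho2.measurableSet.compl
    have hs0 : (Measure.pi (fun _ : ι => μ)) s = 0 := by
      refine nonpos_iff_eq_zero.mp (F0_meas μ s hs (e 0) 0 ?_)
      intro a
      have hupd : ∀ (y : Fin k → ℝ) (i : Fin j),
          Function.update a (e 0) y (e i.succ) = a (e i.succ) := by
        intro y i
        refine Function.update_of_ne ?_ _ _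
        intro h
        exact (Fin.succ_ne_zero i) (he h)
      by_cases h : LinearIndependent ℝ (fun i : Fin j => a (e i.succ))
      · set p : Submodule ℝ (Fin k → ℝ) :=
          Submodule.span ℝ (Set.range (fun i : Fin j => a (e i.succ))) with hp
        have hpne : p ≠ ⊤ := by
          intro htop
          have h1 := finrank_span_eq_card h
          rw [← hp, htop, finrank_top, Module.finrank_fin_fun, Fintype.card_fin] at h1
          omega
        rw [nonpos_iff_eq_zero]
        refine measure_mono_null ?_ (U2_sub μ c C hμ p hpne)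
        rintro y ⟨-, hy⟩
        rw [linearIndependent_finSucc] at hy
        have ht : Fin.tail (fun i : Fin (j + 1) => Function.update a (e 0) y (e i))
            = fun i : Fin j => a (e i.succ) := by
          funext i
          exact hupd y i
        rw [ht] at hy
        by_contra hyp
        refine hy ⟨h, ?_⟩
        rw [Function.update_self]
        exact hyp
      · rw [nonpos_iff_eq_zero]
        refine measure_mono_null ?_ (measure_empty (μ := μ))
        rintro y ⟨hy, -⟩
        exfalso
        apply h
        have : (fun i : Fin j => Function.update a (e 0) y (e i.succ))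
            = fun i : Fin j => a (e i.succ) := by
          funext i
          exact hupd y i
        rwa [this] at hy
    have hs1 : ∀ᵐ a ∂(Measure.pi (fun _ : ι => μ)), a ∉ s := by
      rw [ae_iff]
      simpa using hs0
    filter_upwards [ih', hs1] with a h1 h2
    by_contra h3
    exact h2 ⟨h1, h3⟩

end BWG
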