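import Pool.Agent.BWG.GDefs
import Pool.Agent.BWG.A2
import Pool.Agent.BWG.A3
import Pool.Agent.BWG.F0
import Pool.Agent.BWG.F1
import Pool.Agent.BWG.M0
import Pool.Agent.BWG.U2

set_option autoImplicit false

open MeasureTheory Finset Filter Topology Matrix
open scoped ENNReal


namespace BWG



/-- E2. PROOF. Finitely many `T` and `j` (`ae_all_iff`). `cr (rws a T) ≠ 0` a.e. by `U2_indep`
(with `e = T.1.orderEmbOfFin T.2`, `k = m + 1`) and `A2_indep`. For `j ∉ T` the measurable set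
`s = {a | cr (rws a T) ≠ 0 ∧ xh (rws a T) ⬝ᵥ a j = 0}` is null by `F0_meas` with coordinate `j`
and `δ = 0`: by `M0_upd` the section is empty or `{y | xh (rws a T) ⬝ᵥ y = 0}`, null by
`F1_null` and `A3_unit`. -/
theorem E2_good {m n : ℕ} (μ : Measure (Fin (m + 1) → ℝ)) [IsProbabilityMeasure μ] (c C : ℝ)
    (hμ : Reg μ c C) :
    ∀ᵐ a ∂(Measure.pi (fun _ : Fin n => μ)), ∀ T : KK n m,
      cr (rws a T) ≠ 0 ∧ ∀ j ∉ T.1, xh (rws a T) ⬝ᵥ a j ≠ 0 := by
  rw [ae_all_iff]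
  intro T
  have h1 : ∀ᵐ a ∂(Measure.pi (fun _ : Fin n => μ)), cr (rws a T) ≠ 0 := by
    filter_upwards [U2_indep μ c C hμ m (Nat.le_succ m) (fun i => T.1.orderEmbOfFin T.2 i)
      (T.1.orderEmbOfFin T.2).injective] with a ha
    exact A2_indep _ ha
  have h2 : ∀ᵐ a ∂(Measure.pi (fun _ : Fin n => μ)), ∀ j, j ∉ T.1 →
      ¬ (cr (rws a T) ≠ 0 ∧ xh (rws a T) ⬝ᵥ a j = 0) := by
    rw [ae_all_iff]
    intro j
    by_cases hj : j ∈ T.1
    · exact Filter.Eventually.of_forall fun a h => absurd hj h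
    have hs : MeasurableSet {a : Fin n → Fin (m + 1) → ℝ |
        cr (rws a T) ≠ 0 ∧ xh (rws a T) ⬝ᵥ a j = 0} :=
      ((M0_cr T) (measurableSet_singleton (0 : Fin (m + 1) → ℝ)).compl).inter
        ((M0_dot T j) (measurableSet_singleton (0 : ℝ)))
    have hs0 : (Measure.pi (fun _ : Fin n => μ)) {a : Fin n → Fin (m + 1) → ℝ |
        cr (rws a T) ≠ 0 ∧ xh (rws a T) ⬝ᵥ a j = 0} = 0 := by
      refine nonpos_iff_eq_zero.mp (F0_meas μ _ hs j 0 ?_)
      intro a
      rw [nonpos_iff_eq_zero]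
      by_cases hc : cr (rws a T) = 0
      · refine measure_mono_null ?_ (measure_empty (μ := μ))
        rintro y ⟨hy, -⟩
        rw [M0_upd a T j hj y] at hy
        exact absurd hc hy
      · refine measure_mono_null ?_ (F1_null μ c C hμ (xh (rws a T)) (A3_unit _ hc))
        rintro y ⟨-, hy⟩
        rw [M0_upd a T j hj y, Function.update_self] at hy
        exact hy
    have : ∀ᵐ a ∂(Measure.pi (fun _ : Fin n => μ)),
        ¬ (cr (rws a T) ≠ 0 ∧ xh (rws a T) ⬝ᵥ a j = 0) := by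
      rw [ae_iff]
      simpa using hs0
    filter_upwards [this] with a ha _
    exact ha
  filter_upwards [h1, h2] with a ha hb
  exact ⟨ha, fun j hj h => hb j hj ⟨ha, h⟩⟩

end BWG
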