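import Pool.Agent.BWG.GDefs
import Pool.Agent.BWG.A2
import Pool.Agent.BWG.A3
import Pool.Agent.BWG.A4
import Pool.Agent.BWG.M0

set_option autoImplicit false

open MeasureTheory Finset Filter Topology Matrix
open scoped ENNReal


namespace BWG



theorem F4_one {m n : ℕ} (a : Fin n → Fin (m + 1) → ℝ)
    (hgood : ∀ T : KK n m, cr (rws a T) ≠ 0 ∧ ∀ j ∉ T.1, xh (rws a T) ⬝ᵥ a j ≠ 0)
    (T T' : KK n m) (i : Fin n) (hi : i ∈ T.1) (hi' : i ∉ T'.1) :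
    0 < sn (xh (rws a T)) (xh (rws a T')) ∧
      (sn (xh (rws a T)) (xh (rws a T')))⁻¹ ≤ nrm (a i) / |xh (rws a T') ⬝ᵥ a i| := by
  have hx := A3_unit (rws a T) (hgood T).1
  have hy := A3_unit (rws a T') (hgood T').1
  have h1 := A4_le (xh (rws a T)) (xh (rws a T')) (a i) hx hy (M0_orth a T i hi)
  have h2 : 0 < |a i ⬝ᵥ xh (rws a T')| := by
    rw [dotProduct_comm]
    exact abs_pos.2 ((hgood T').2 i hi')
  have hn := A3_nonneg (a i)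
  have hs0 : 0 ≤ sn (xh (rws a T)) (xh (rws a T')) := Real.sqrt_nonneg _
  have hprod : 0 < sn (xh (rws a T)) (xh (rws a T')) * nrm (a i) := lt_of_lt_of_le h2 h1
  have hs : 0 < sn (xh (rws a T)) (xh (rws a T')) := pos_of_mul_pos_left hprod hn
  refine ⟨hs, ?_⟩
  rw [dotProduct_comm (xh (rws a T')) (a i), le_div_iff₀ h2, inv_mul_le_iff₀ hs]
  exact h1

/-- F4. PROOF. `x = xh (rws a T)`, `y = xh (rws a T')` are unit vectors (`A3_unit`).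
`a i ⬝ᵥ x = 0` by `M0_orth`, so `A4_le` gives `|a i ⬝ᵥ y| ≤ sn x y * nrm (a i)`; the left side is
`> 0` because `i ∉ T'` (`hgood`), hence `sn x y > 0`, `nrm (a i) > 0` and
`(sn x y)⁻¹ ≤ nrm (a i) / |y ⬝ᵥ a i|`. The same for `j`. Finally
`(sn x y)⁻¹ = ((sn x y)⁻¹)^(1/2) * ((sn x y)⁻¹)^(1/2)` and `Real.rpow_le_rpow`. -/
theorem F4_le {m n : ℕ} (a : Fin n → Fin (m + 1) → ℝ)
    (hgood : ∀ T : KK n m, cr (rws a T) ≠ 0 ∧ ∀ j ∉ T.1, xh (rws a T) ⬝ᵥ a j ≠ 0)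
    (T T' : KK n m) (i j : Fin n) (hi : i ∈ T.1) (hj : j ∈ T.1) (hi' : i ∉ T'.1)
    (hj' : j ∉ T'.1) :
    0 < sn (xh (rws a T)) (xh (rws a T')) ∧
      (sn (xh (rws a T)) (xh (rws a T')))⁻¹ ≤ GG a T' i j := by
  obtain ⟨hs, h1⟩ := F4_one a hgood T T' i hi hi'
  obtain ⟨-, h2⟩ := F4_one a hgood T T' j hj hj'
  refine ⟨hs, ?_⟩
  set σ := sn (xh (rws a T)) (xh (rws a T'))
  have hσ : 0 < σ⁻¹ := inv_pos.2 hs
  have h3 : σ⁻¹ = (σ⁻¹) ^ (1 / 2 : ℝ) * (σ⁻¹) ^ (1 / 2 : ℝ) := by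
    rw [← Real.rpow_add hσ]
    norm_num
  rw [h3]
  unfold GG
  exact mul_le_mul (Real.rpow_le_rpow hσ.le h1 (by norm_num))
    (Real.rpow_le_rpow hσ.le h2 (by norm_num)) (by positivity)
    (Real.rpow_nonneg (hσ.le.trans h1) _)

end BWG
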