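import Pool.Agent.BWG.GDefs

set_option autoImplicit false

open MeasureTheory Finset Filter Topology Matrix
open scoped ENNReal


namespace BWG



/-- P1. PROOF. Let `U = ⋃ i, E i`, `f = ∑ i, indicator (E i) 1`. Then `f * 1_U = f`,
`∫ f = ∑ μ.real (E i) =: s`, `∫ f^2 = ∑∑ μ.real (E i ∩ E j) =: D`, and for every real `t`
`0 ≤ ∫ (f - t 1_U)^2 = D - 2 t s + t^2 μ.real U`. If `μ.real U = 0` all `μ.real (E i) = 0` and both
sides are `0` (or `0 ≤`); else put `t = s / μ.real U`. (All functions are bounded measurable, so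
integrable: `integrable_finsetSum`, `(integrable_const _).indicator`; or work with the finite sums
of `integral_indicator_const`.) -/
theorem P1_chung {Ω : Type} [MeasurableSpace Ω] (μ : Measure Ω) [IsProbabilityMeasure μ]
    {K : Type} [Fintype K] (E : K → Set Ω) (hE : ∀ i, MeasurableSet (E i)) :
    (∑ i, μ.real (E i)) ^ 2 ≤ μ.real (⋃ i, E i) * ∑ i, ∑ j, μ.real (E i ∩ E j) := by
  classical
  have hU : MeasurableSet (⋃ i, E i) := MeasurableSet.iUnion hE
  have hint : ∀ s : Set Ω, MeasurableSet s → Integrable (s.indicator (fun _ => (1 : ℝ))) μ :=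
    fun s hs => (integrable_const (1 : ℝ)).indicator hs
  have hval : ∀ s : Set Ω, MeasurableSet s → ∫ ω, s.indicator (fun _ => (1 : ℝ)) ω ∂μ = μ.real s := by
    intro s hs
    rw [integral_indicator_const (1 : ℝ) hs, smul_eq_mul, mul_one]
  have key : ∀ t : ℝ, 0 ≤ μ.real (⋃ i, E i) * (t * t) + (-2 * ∑ i, μ.real (E i)) * t +
      ∑ i, ∑ j, μ.real (E i ∩ E j) := by
    intro t
    have h1 : ∀ ω, 0 ≤ (∑ i, ∑ j, (E i ∩ E j).indicator (fun _ => (1 : ℝ)) ω) +
        (-2 * t) * (∑ i, (E i).indicator (fun _ => (1 : ℝ)) ω) +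
        (t * t) * (⋃ i, E i).indicator (fun _ => (1 : ℝ)) ω := by
      intro ω
      have h2 : (∑ i, ∑ j, (E i ∩ E j).indicator (fun _ => (1 : ℝ)) ω) =
          (∑ i, (E i).indicator (fun _ => (1 : ℝ)) ω) ^ 2 := by
        rw [sq, Finset.sum_mul_sum]
        refine Finset.sum_congr rfl fun i _ => Finset.sum_congr rfl fun j _ => ?_
        by_cases hi : ω ∈ E i <;> by_cases hj : ω ∈ E j <;> simp [Set.indicator, hi, hj]
      rw [h2]
      by_cases hω : ω ∈ ⋃ i, E i
      · rw [Set.indicator_of_mem hω]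
        nlinarith [sq_nonneg ((∑ i, (E i).indicator (fun _ => (1 : ℝ)) ω) - t)]
      · rw [Set.indicator_of_notMem hω]
        have h3 : (∑ i, (E i).indicator (fun _ => (1 : ℝ)) ω) = 0 := by
          refine Finset.sum_eq_zero fun i _ => ?_
          rw [Set.indicator_of_notMem]
          exact fun hi => hω (Set.mem_iUnion.2 ⟨i, hi⟩)
        rw [h3]
        simp
    have h2 : ∫ ω, ((∑ i, ∑ j, (E i ∩ E j).indicator (fun _ => (1 : ℝ)) ω) +
        (-2 * t) * (∑ i, (E i).indicator (fun _ => (1 : ℝ)) ω) +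
        (t * t) * (⋃ i, E i).indicator (fun _ => (1 : ℝ)) ω) ∂μ =
        (∑ i, ∑ j, μ.real (E i ∩ E j)) + (-2 * t) * (∑ i, μ.real (E i)) +
          (t * t) * μ.real (⋃ i, E i) := by
      have i1 : Integrable (fun ω => ∑ i, ∑ j, (E i ∩ E j).indicator (fun _ => (1 : ℝ)) ω) μ :=
        integrable_finsetSum _ fun i _ => integrable_finsetSum _ fun j _ =>
          hint _ ((hE i).inter (hE j))
      have i2 : Integrable (fun ω => ∑ i, (E i).indicator (fun _ => (1 : ℝ)) ω) μ :=
        integrable_finsetSum _ fun i _ => hint _ (hE i)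
      have i3 : Integrable (fun ω => (-2 * t) * ∑ i, (E i).indicator (fun _ => (1 : ℝ)) ω) μ :=
        i2.const_mul _
      have i4 : Integrable (fun ω => (t * t) * (⋃ i, E i).indicator (fun _ => (1 : ℝ)) ω) μ :=
        (hint _ hU).const_mul _
      have i5 : Integrable (fun ω => (∑ i, ∑ j, (E i ∩ E j).indicator (fun _ => (1 : ℝ)) ω) +
          (-2 * t) * (∑ i, (E i).indicator (fun _ => (1 : ℝ)) ω)) μ := i1.add i3
      rw [integral_add i5 i4, integral_add i1 i3, integral_const_mul, integral_const_mul,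
        hval _ hU, integral_finsetSum _ fun i _ => hint _ (hE i)]
      congr 2
      · rw [integral_finsetSum _ fun i _ => integrable_finsetSum _ fun j _ =>
          hint _ ((hE i).inter (hE j))]
        refine Finset.sum_congr rfl fun i _ => ?_
        rw [integral_finsetSum _ fun j _ => hint _ ((hE i).inter (hE j))]
        exact Finset.sum_congr rfl fun j _ => hval _ ((hE i).inter (hE j))
      · congr 1
        exact Finset.sum_congr rfl fun i _ => hval _ (hE i)
    have h3 := integral_nonneg (μ := μ) (f := fun ω =>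
      (∑ i, ∑ j, (E i ∩ E j).indicator (fun _ => (1 : ℝ)) ω) +
        (-2 * t) * (∑ i, (E i).indicator (fun _ => (1 : ℝ)) ω) +
        (t * t) * (⋃ i, E i).indicator (fun _ => (1 : ℝ)) ω) (fun ω => h1 ω)
    rw [h2] at h3
    linarith
  have h4 := discrim_le_zero key
  rw [discrim] at h4
  nlinarith

end BWG
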