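import Pool.Agent.BWG.GDefs
import Pool.Agent.BWG.A4
import Pool.Agent.BWG.P1

set_option autoImplicit false

open MeasureTheory Finset Filter Topology Matrix
open scoped ENNReal


namespace BWG



/-- P2. PROOF. `P1_chung` with `E i = {b | |x i ⬝ᵥ b| ≤ ε}` (closed sets; the union is the set on
the right). `∑ μ.real (E i) ≥ c ε |K|` by `hμ.low`; if `nr i j` then
`μ.real (E i ∩ E j) ≤ μ.real (E i) ≤ C ε` (`hμ.up`), else `≤ 2 C ε^2 (sn (x i) (x j))⁻¹` by
`A4_two` and `h2`. Sum up with `h1` (the near pairs) and `h3`. Note `μ.real (⋃) ≥ 0`. -/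
theorem P2_hit {k : ℕ} (μ : Measure (Fin k → ℝ)) [IsProbabilityMeasure μ] (c C : ℝ)
    (hc : 0 < c) (hC : 0 < C) (hμ : Reg μ c C) {K : Type} [Fintype K] (x : K → Fin k → ℝ)
    (hx : ∀ i, x i ⬝ᵥ x i = 1) (ε : ℝ) (hε : 0 < ε) (hε1 : ε ≤ 1)
    (nr : K → K → Prop) [∀ i j, Decidable (nr i j)] (N₁ Q : ℝ)
    (h1 : ∀ i, ((univ.filter (fun j => nr i j)).card : ℝ) ≤ N₁)
    (h2 : ∀ i j, ¬ nr i j → 0 < sn (x i) (x j))
    (h3 : ∑ i, ∑ j, (if nr i j then 0 else (sn (x i) (x j))⁻¹) ≤ Q) :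
    (c * ε * Fintype.card K) ^ 2 ≤
      μ.real {b | ∃ i, |x i ⬝ᵥ b| ≤ ε} *
        (C * ε * (N₁ * Fintype.card K) + 2 * C * ε ^ 2 * Q) := by
  classical
  set E : K → Set (Fin k → ℝ) := fun i => {b | |x i ⬝ᵥ b| ≤ ε} with hEdef
  have hEm : ∀ i, MeasurableSet (E i) := by
    intro i
    have h4 : Continuous (fun b : Fin k → ℝ => |x i ⬝ᵥ b|) := by
      unfold dotProduct
      fun_prop
    exact (isClosed_le h4 continuous_const).measurableSet
  have hch := P1_chung μ E hEm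
  have hU : (⋃ i, E i) = {b | ∃ i, |x i ⬝ᵥ b| ≤ ε} := by
    ext b
    simp [hEdef]
  rw [hU] at hch
  set U := {b | ∃ i, |x i ⬝ᵥ b| ≤ ε} with hUdef
  have hμU : 0 ≤ μ.real U := measureReal_nonneg
  have hlow : c * ε * Fintype.card K ≤ ∑ i, μ.real (E i) := by
    have h5 : ∑ i : K, c * ε ≤ ∑ i, μ.real (E i) :=
      Finset.sum_le_sum (fun i _ => hμ.low (x i) (hx i) ε hε hε1)
    rw [Finset.sum_const, Finset.card_univ, nsmul_eq_mul] at h5
    linarith
  have hcK : 0 ≤ c * ε * Fintype.card K := by positivity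
  have hone : ∀ i j, μ.real (E i ∩ E j) ≤ (if nr i j then C * ε else 0) + 2 * C * ε ^ 2 *
      (if nr i j then 0 else (sn (x i) (x j))⁻¹) := by
    intro i j
    by_cases hij : nr i j
    · rw [if_pos hij, if_pos hij, mul_zero, add_zero]
      exact (measureReal_mono Set.inter_subset_left).trans (hμ.up (x i) (hx i) ε hε.le)
    · rw [if_neg hij, if_neg hij, zero_add]
      have h6 := A4_two μ c C hC.le hμ (x i) (x j) (hx i) (hx j) ε hε.le
      have h7 : E i ∩ E j = {b | |x i ⬝ᵥ b| ≤ ε ∧ |x j ⬝ᵥ b| ≤ ε} := rfl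
      rw [h7, ← div_eq_mul_inv, le_div_iff₀ (h2 i j hij), mul_comm]
      exact h6
  have hup : ∑ i, ∑ j, μ.real (E i ∩ E j) ≤
      C * ε * (N₁ * Fintype.card K) + 2 * C * ε ^ 2 * Q := by
    have h8 : ∑ i, ∑ j, μ.real (E i ∩ E j) ≤ ∑ i, ∑ j, ((if nr i j then C * ε else 0)
        + 2 * C * ε ^ 2 * (if nr i j then 0 else (sn (x i) (x j))⁻¹)) :=
      Finset.sum_le_sum (fun i _ => Finset.sum_le_sum (fun j _ => hone i j))
    refine h8.trans ?_
    simp only [Finset.sum_add_distrib, ← Finset.mul_sum]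
    have h9 : ∑ i, ∑ j, (if nr i j then C * ε else 0) ≤ C * ε * (N₁ * Fintype.card K) := by
      have h10 : ∀ i, ∑ j, (if nr i j then C * ε else 0) ≤ C * ε * N₁ := by
        intro i
        rw [← Finset.sum_filter, Finset.sum_const, nsmul_eq_mul, mul_comm]
        exact mul_le_mul_of_nonneg_left (h1 i) (by positivity)
      calc ∑ i, ∑ j, (if nr i j then C * ε else 0) ≤ ∑ _i : K, C * ε * N₁ :=
            Finset.sum_le_sum (fun i _ => h10 i)
        _ = C * ε * (N₁ * Fintype.card K) := by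
            rw [Finset.sum_const, Finset.card_univ, nsmul_eq_mul]; ring
    have h11 : 2 * C * ε ^ 2 * ∑ i, ∑ j, (if nr i j then 0 else (sn (x i) (x j))⁻¹)
        ≤ 2 * C * ε ^ 2 * Q := mul_le_mul_of_nonneg_left h3 (by positivity)
    linarith
  calc (c * ε * Fintype.card K) ^ 2 ≤ (∑ i, μ.real (E i)) ^ 2 :=
        pow_le_pow_left₀ hcK hlow 2
    _ ≤ μ.real U * ∑ i, ∑ j, μ.real (E i ∩ E j) := hch
    _ ≤ μ.real U * (C * ε * (N₁ * Fintype.card K) + 2 * C * ε ^ 2 * Q) :=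
        mul_le_mul_of_nonneg_left hup hμU

end BWG
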