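import Pool.Agent.BWG.GDefs
import Pool.Agent.BWG.P2
import Pool.Agent.BWG.A3
import Pool.Agent.BWG.F4
import Pool.Agent.BWG.E1

set_option autoImplicit false

open MeasureTheory Finset Filter Topology Matrix
open scoped ENNReal


namespace BWG



/-- E3. PROOF. `P2_hit` with `K = KK n m`, `x T = xh (rws a T)` (unit by `A3_unit`), `nr = near`,
`N₁ = (n+1)^2` (`E1_near`), `Q = L * KC C (m+1) * (n.choose m)^2` (`F4_le`, comparing the sums
termwise), `Fintype.card K = n.choose m` (`E1_card`), positive because `m ≤ n`. With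
`κ = n.choose m`, `p = μ.real {..}`:
`(c ε κ)^2 ≤ p (C ε (n+1)^2 κ + 2 C ε^2 L KC κ^2)`; divide by `ε^2 κ^2`:
`c^2 ≤ p (C (n+1)^2 / (ε κ) + 2 C (L KC))`, and the bracket is `> 0`; this is `p0 ≤ p`
(`div_le_iff₀`). -/
theorem E3_hit {m n : ℕ} (hmn : m ≤ n) (μ : Measure (Fin (m + 1) → ℝ)) [IsProbabilityMeasure μ]
    (c C ε L : ℝ) (hc : 0 < c) (hC : 0 < C) (hL : 0 < L) (hμ : Reg μ c C) (hε : 0 < ε)
    (hε1 : ε ≤ 1) (I J : KK n m → KK n m → Fin n)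
    (hIJ : ∀ T T', ¬ near T T' →
      I T T' ≠ J T T' ∧ I T T' ∈ T.1 ∧ I T T' ∉ T'.1 ∧ J T T' ∈ T.1 ∧ J T T' ∉ T'.1)
    (a : Fin n → Fin (m + 1) → ℝ)
    (hgood : ∀ T : KK n m, cr (rws a T) ≠ 0 ∧ ∀ j ∉ T.1, xh (rws a T) ⬝ᵥ a j ≠ 0)
    (hR : ∑ T, ∑ T', (if near T T' then 0 else GG a T' (I T T') (J T T')) ≤
      L * KC C (m + 1) * (n.choose m : ℝ) ^ 2) :
    p0 c C m n ε L ≤ μ.real {b | ∃ T : KK n m, |xh (rws a T) ⬝ᵥ b| ≤ ε} := by
  have hκ : (0 : ℝ) < (n.choose m : ℝ) := by exact_mod_cast Nat.choose_pos hmn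
  have hKC : 0 ≤ KC C (m + 1) := by
    unfold KC
    positivity
  have h := P2_hit μ c C hc hC hμ (fun T : KK n m => xh (rws a T))
    (fun T => A3_unit _ (hgood T).1) ε hε hε1 near (((n : ℝ) + 1) ^ 2)
    (L * KC C (m + 1) * (n.choose m : ℝ) ^ 2)
    (fun T => by exact_mod_cast E1_near T)
    (fun T T' hT => by
      obtain ⟨-, hi, hi', hj, hj'⟩ := hIJ T T' hT
      exact (F4_le a hgood T T' _ _ hi hj hi' hj').1)
    (by
      refine le_trans (Finset.sum_le_sum fun T _ => Finset.sum_le_sum fun T' _ => ?_) hR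
      split_ifs with hT
      · exact le_rfl
      · obtain ⟨-, hi, hi', hj, hj'⟩ := hIJ T T' hT
        exact (F4_le a hgood T T' _ _ hi hj hi' hj').2)
  rw [E1_card] at h
  set P : ℝ := μ.real {b | ∃ T : KK n m, |xh (rws a T) ⬝ᵥ b| ≤ ε} with hP
  have hpos : 0 < C * ((n : ℝ) + 1) ^ 2 / (ε * (n.choose m : ℝ)) + 2 * C * (L * KC C (m + 1)) := by
    have h1 : 0 < C * ((n : ℝ) + 1) ^ 2 / (ε * (n.choose m : ℝ)) := by positivity
    have h2 : 0 ≤ 2 * C * (L * KC C (m + 1)) := by positivity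
    linarith
  unfold p0
  rw [div_le_iff₀ hpos]
  have h5 : P * (C * ((n : ℝ) + 1) ^ 2 / (ε * (n.choose m : ℝ)) + 2 * C * (L * KC C (m + 1)))
      * (ε * (n.choose m : ℝ)) ^ 2
      = P * (C * ε * (((n : ℝ) + 1) ^ 2 * (n.choose m : ℝ)) +
        2 * C * ε ^ 2 * (L * KC C (m + 1) * (n.choose m : ℝ) ^ 2)) := by
    field_simp
  have h6 : (c * ε * (n.choose m : ℝ)) ^ 2 = c ^ 2 * (ε * (n.choose m : ℝ)) ^ 2 := by ring
  rw [h6, ← h5] at h
  exact le_of_mul_le_mul_right h (by positivity)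

end BWG
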