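import Pool.Agent.BWG.GDefs
import Pool.Agent.BWG.A3
import Pool.Agent.BWG.F1

set_option autoImplicit false

open MeasureTheory Finset Filter Topology Matrix
open scoped ENNReal


namespace BWG



/-- F2. PROOF. `(nrm b / |x ⬝ᵥ b|)^(1/2) = nrm b ^ (1/2) * (|x ⬝ᵥ b|⁻¹)^(1/2)`. Hoelder
(`ENNReal.lintegral_mul_le_Lp_mul_Lq` with `p = 4`, `q = 4/3`): `f = ofReal (nrm b ^ (1/2))`,
`f^4 = ofReal (nrm b ^ 2) = ofReal (b ⬝ᵥ b)`, integral `≤ ofReal (C k)` by `hμ.mom`;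
`g = ofReal ((|x ⬝ᵥ b|⁻¹)^(1/2))`, `g^(4/3) = ofReal ((|x ⬝ᵥ b|⁻¹)^(2/3))`, integral
`≤ ofReal (1 + 2 C)` by `F1_moment` (`ENNReal.ofReal_rpow_of_nonneg`, `Real.rpow_mul`). -/
theorem F2_half {k : ℕ} (μ : Measure (Fin k → ℝ)) [IsProbabilityMeasure μ] (c C : ℝ)
    (hC : 0 < C) (hμ : Reg μ c C) (x : Fin k → ℝ) (hx : x ⬝ᵥ x = 1) :
    ∫⁻ b, ENNReal.ofReal ((nrm b / |x ⬝ᵥ b|) ^ (1 / 2 : ℝ)) ∂μ ≤
      ENNReal.ofReal ((C * k) ^ (1 / 4 : ℝ) * (1 + 2 * C) ^ (3 / 4 : ℝ)) := by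
  have hcont : ∀ y : Fin k → ℝ, Continuous fun b : Fin k → ℝ => y ⬝ᵥ b := by
    intro y
    simp only [dotProduct]
    fun_prop
  have hcont2 : Continuous fun b : Fin k → ℝ => b ⬝ᵥ b := by
    simp only [dotProduct]
    fun_prop
  have hm1 : Measurable fun b : Fin k → ℝ => ENNReal.ofReal (nrm b ^ (1 / 2 : ℝ)) := by
    have h1 : Measurable fun b : Fin k → ℝ => nrm b := by
      unfold nrm
      exact (Real.continuous_sqrt.comp hcont2).measurable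
    exact (h1.pow_const _).ennreal_ofReal
  have hm2 : Measurable fun b : Fin k → ℝ => ENNReal.ofReal ((|x ⬝ᵥ b|⁻¹) ^ (1 / 2 : ℝ)) := by
    have h1 : Measurable fun b : Fin k → ℝ => |x ⬝ᵥ b|⁻¹ := by
      have h2 : Measurable fun b : Fin k → ℝ => |x ⬝ᵥ b| := (continuous_abs.comp (hcont x)).measurable
      exact h2.inv
    exact (h1.pow_const _).ennreal_ofReal
  have hpq : Real.HolderConjugate 4 (4 / 3 : ℝ) := by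
    rw [Real.holderConjugate_iff]
    norm_num
  have hH := ENNReal.lintegral_mul_le_Lp_mul_Lq μ hpq hm1.aemeasurable hm2.aemeasurable
  have e1 : ∀ b : Fin k → ℝ, ENNReal.ofReal ((nrm b / |x ⬝ᵥ b|) ^ (1 / 2 : ℝ)) =
      ((fun b : Fin k → ℝ => ENNReal.ofReal (nrm b ^ (1 / 2 : ℝ))) *
        fun b : Fin k → ℝ => ENNReal.ofReal ((|x ⬝ᵥ b|⁻¹) ^ (1 / 2 : ℝ))) b := by
    intro b
    rw [Pi.mul_apply, ← ENNReal.ofReal_mul (Real.rpow_nonneg (A3_nonneg b) _), div_eq_mul_inv,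
      Real.mul_rpow (A3_nonneg b) (inv_nonneg.2 (abs_nonneg _))]
  have e2 : ∀ b : Fin k → ℝ, ENNReal.ofReal (nrm b ^ (1 / 2 : ℝ)) ^ (4 : ℝ) =
      ENNReal.ofReal (b ⬝ᵥ b) := by
    intro b
    rw [ENNReal.ofReal_rpow_of_nonneg (Real.rpow_nonneg (A3_nonneg b) _) (by norm_num),
      ← Real.rpow_mul (A3_nonneg b), ← A3_sq]
    congr 1
    rw [← Real.rpow_natCast]
    norm_num
  have e3 : ∀ b : Fin k → ℝ, ENNReal.ofReal ((|x ⬝ᵥ b|⁻¹) ^ (1 / 2 : ℝ)) ^ (4 / 3 : ℝ) =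
      ENNReal.ofReal ((|x ⬝ᵥ b|⁻¹) ^ (2 / 3 : ℝ)) := by
    intro b
    have h0 : 0 ≤ |x ⬝ᵥ b|⁻¹ := inv_nonneg.2 (abs_nonneg _)
    rw [ENNReal.ofReal_rpow_of_nonneg (Real.rpow_nonneg h0 _) (by norm_num),
      ← Real.rpow_mul h0]
    congr 2
    norm_num
  have hCk : 0 ≤ C * k := mul_nonneg hC.le (Nat.cast_nonneg k)
  have hC1 : 0 ≤ 1 + 2 * C := by linarith
  calc ∫⁻ b, ENNReal.ofReal ((nrm b / |x ⬝ᵥ b|) ^ (1 / 2 : ℝ)) ∂μ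
      = ∫⁻ b, ((fun b : Fin k → ℝ => ENNReal.ofReal (nrm b ^ (1 / 2 : ℝ))) *
        fun b : Fin k → ℝ => ENNReal.ofReal ((|x ⬝ᵥ b|⁻¹) ^ (1 / 2 : ℝ))) b ∂μ :=
          lintegral_congr e1
    _ ≤ (∫⁻ b, ENNReal.ofReal (nrm b ^ (1 / 2 : ℝ)) ^ (4 : ℝ) ∂μ) ^ (1 / 4 : ℝ) *
        (∫⁻ b, ENNReal.ofReal ((|x ⬝ᵥ b|⁻¹) ^ (1 / 2 : ℝ)) ^ (4 / 3 : ℝ) ∂μ) ^
          (1 / (4 / 3) : ℝ) := hH
    _ = (∫⁻ b, ENNReal.ofReal (b ⬝ᵥ b) ∂μ) ^ (1 / 4 : ℝ) *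
        (∫⁻ b, ENNReal.ofReal ((|x ⬝ᵥ b|⁻¹) ^ (2 / 3 : ℝ)) ∂μ) ^ (3 / 4 : ℝ) := by
          rw [lintegral_congr e2, lintegral_congr e3]
          norm_num
    _ ≤ (ENNReal.ofReal (C * k)) ^ (1 / 4 : ℝ) * (ENNReal.ofReal (1 + 2 * C)) ^ (3 / 4 : ℝ) :=
          mul_le_mul' (ENNReal.rpow_le_rpow hμ.mom (by norm_num))
            (ENNReal.rpow_le_rpow (F1_moment μ c C hC hμ x hx) (by norm_num))
    _ = ENNReal.ofReal ((C * k) ^ (1 / 4 : ℝ) * (1 + 2 * C) ^ (3 / 4 : ℝ)) := by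
          rw [ENNReal.ofReal_rpow_of_nonneg hCk (by norm_num),
            ENNReal.ofReal_rpow_of_nonneg hC1 (by norm_num),
            ← ENNReal.ofReal_mul (Real.rpow_nonneg hCk _)]

end BWG
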