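import Pool.Agent.BWG.GDefs
import Pool.Agent.BWG.A3
import Pool.Agent.BWG.F0
import Pool.Agent.BWG.F2
import Pool.Agent.BWG.M0

set_option autoImplicit false

open MeasureTheory Finset Filter Topology Matrix
open scoped ENNReal


namespace BWG



/-- The constant of one coordinate. -/
noncomputable def F3_K (m : ℕ) (C : ℝ) : ℝ :=
  (C * ((m + 1 : ℕ) : ℝ)) ^ (1 / 4 : ℝ) * (1 + 2 * C) ^ (3 / 4 : ℝ)

theorem F3_K_nonneg (m : ℕ) (C : ℝ) (hC : 0 < C) : 0 ≤ F3_K m C := by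
  unfold F3_K
  positivity

theorem F3_K_mul (m : ℕ) (C : ℝ) (hC : 0 < C) : F3_K m C * F3_K m C = KC C (m + 1) := by
  unfold F3_K KC
  have h1 : (0 : ℝ) < C * ((m + 1 : ℕ) : ℝ) := by positivity
  have h2 : (0 : ℝ) < 1 + 2 * C := by positivity
  have e1 : (C * ((m + 1 : ℕ) : ℝ)) ^ (1 / 2 : ℝ) =
      (C * ((m + 1 : ℕ) : ℝ)) ^ (1 / 4 : ℝ) * (C * ((m + 1 : ℕ) : ℝ)) ^ (1 / 4 : ℝ) := by
    rw [← Real.rpow_add h1]
    norm_num
  have e2 : (1 + 2 * C) ^ (3 / 2 : ℝ) = (1 + 2 * C) ^ (3 / 4 : ℝ) * (1 + 2 * C) ^ (3 / 4 : ℝ) := by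
    rw [← Real.rpow_add h2]
    norm_num
  rw [e1, e2]
  ring

theorem F3_one {m : ℕ} (μ : Measure (Fin (m + 1) → ℝ)) [IsProbabilityMeasure μ] (c C : ℝ)
    (hC : 0 < C) (hμ : Reg μ c C) (v : Fin m → Fin (m + 1) → ℝ) :
    ∫⁻ y, ENNReal.ofReal ((nrm y / |xh v ⬝ᵥ y|) ^ (1 / 2 : ℝ)) ∂μ ≤ ENNReal.ofReal (F3_K m C) := by
  by_cases hv : cr v = 0
  · have hx : xh v = 0 := by
      unfold xh
      rw [hv, smul_zero]
    have : ∀ y : Fin (m + 1) → ℝ,
        ENNReal.ofReal ((nrm y / |xh v ⬝ᵥ y|) ^ (1 / 2 : ℝ)) = 0 := by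
      intro y
      rw [hx, zero_dotProduct, abs_zero, div_zero, Real.zero_rpow (by norm_num), ENNReal.ofReal_zero]
    simp only [this]
    simp
  · have := F2_half μ c C hC hμ (xh v) (A3_unit v hv)
    exact this

/-- F3. PROOF. Write `K₁ = (C (m+1))^(1/4) (1+2C)^(3/4)`; `KC C (m+1) = K₁ * K₁` (`Real.rpow_add`).
(0) For every `a` (even if `cr (rws a T') = 0`, because then `xh = 0` and `(z/0)^(1/2) = 0`):
`∫⁻ y, ofReal ((nrm y / |xh (rws a T') ⬝ᵥ y|)^(1/2)) ∂μ ≤ ofReal K₁` by `F2_half`, `A3_unit`.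
(1) `F0_update` for `f a = ofReal (GG a T' i j)` (measurable by `M0_GG`) and coordinate `i`: by
`M0_upd` and `j ≠ i` the inner integral is
`≤ ofReal K₁ * ofReal ((nrm (a j) / |xh (rws a T') ⬝ᵥ a j|)^(1/2))` (constant factor:
`lintegral_mul_const`).
(2) `F0_update` for this function and coordinate `j`: again `≤ ofReal K₁ * ofReal K₁`, and the
integral of a constant over the probability measure is the constant. -/
theorem F3_mean {m n : ℕ} (μ : Measure (Fin (m + 1) → ℝ)) [IsProbabilityMeasure μ] (c C : ℝ)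
    (hC : 0 < C) (hμ : Reg μ c C) (T' : KK n m) (i j : Fin n) (hij : i ≠ j)
    (hi : i ∉ T'.1) (hj : j ∉ T'.1) :
    ∫⁻ a, ENNReal.ofReal (GG a T' i j) ∂(Measure.pi (fun _ : Fin n => μ)) ≤
      ENNReal.ofReal (KC C (m + 1)) := by
  have hnrm : Measurable (fun v : Fin (m + 1) → ℝ => nrm v) := M0_nrm.measurable
  have hG0 : ∀ j' : Fin n, Measurable (fun a : Fin n → Fin (m + 1) → ℝ =>
      ENNReal.ofReal ((nrm (a j') / |xh (rws a T') ⬝ᵥ a j'|) ^ (1 / 2 : ℝ))) := by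
    intro j'
    have h1 : Measurable (fun a : Fin n → Fin (m + 1) → ℝ => nrm (a j')) :=
      hnrm.comp (measurable_pi_apply j')
    have h2 := M0_dot T' j' (m := m) (n := n)
    have h3 : Measurable (fun a : Fin n → Fin (m + 1) → ℝ => |xh (rws a T') ⬝ᵥ a j'|) := by
      exact (measurable_norm.comp h2 : _)
    exact ENNReal.measurable_ofReal.comp ((h1.div h3).pow_const _)
  have hone : ∀ (v : Fin m → Fin (m + 1) → ℝ),
      ∫⁻ y, ENNReal.ofReal ((nrm y / |xh v ⬝ᵥ y|) ^ (1 / 2 : ℝ)) ∂μ ≤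
        ENNReal.ofReal (F3_K m C) := F3_one μ c C hC hμ
  have hmeas1 : ∀ v : Fin m → Fin (m + 1) → ℝ, Measurable (fun y : Fin (m + 1) → ℝ =>
      ENNReal.ofReal ((nrm y / |xh v ⬝ᵥ y|) ^ (1 / 2 : ℝ))) := by
    intro v
    have h3 : Measurable (fun y : Fin (m + 1) → ℝ => |xh v ⬝ᵥ y|) := by
      have : Continuous (fun y : Fin (m + 1) → ℝ => |xh v ⬝ᵥ y|) := by
        unfold dotProduct
        fun_prop
      exact this.measurable
    exact ENNReal.measurable_ofReal.comp ((hnrm.div h3).pow_const _)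
  -- step 1
  have hGm : Measurable (fun a : Fin n → Fin (m + 1) → ℝ => ENNReal.ofReal (GG a T' i j)) :=
    ENNReal.measurable_ofReal.comp (M0_GG T' i j)
  rw [F0_update μ _ hGm i]
  have step1 : ∀ a : Fin n → Fin (m + 1) → ℝ,
      ∫⁻ y, ENNReal.ofReal (GG (Function.update a i y) T' i j) ∂μ ≤
        ENNReal.ofReal (F3_K m C) *
          ENNReal.ofReal ((nrm (a j) / |xh (rws a T') ⬝ᵥ a j|) ^ (1 / 2 : ℝ)) := by
    intro a
    have e : ∀ y : Fin (m + 1) → ℝ, ENNReal.ofReal (GG (Function.update a i y) T' i j) =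
        ENNReal.ofReal ((nrm y / |xh (rws a T') ⬝ᵥ y|) ^ (1 / 2 : ℝ)) *
          ENNReal.ofReal ((nrm (a j) / |xh (rws a T') ⬝ᵥ a j|) ^ (1 / 2 : ℝ)) := by
      intro y
      unfold GG
      rw [M0_upd a T' i hi y, Function.update_self, Function.update_of_ne (Ne.symm hij)]
      rw [ENNReal.ofReal_mul]
      exact Real.rpow_nonneg (div_nonneg (A3_nonneg _) (abs_nonneg _)) _
    simp only [e]
    rw [lintegral_mul_const _ (hmeas1 (rws a T'))]
    exact mul_le_mul' (hone _) le_rfl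
  refine (lintegral_mono step1).trans ?_
  rw [lintegral_const_mul _ (hG0 j), F0_update μ _ (hG0 j) j]
  have step2 : ∀ a : Fin n → Fin (m + 1) → ℝ,
      ∫⁻ y, ENNReal.ofReal ((nrm (Function.update a j y j) /
        |xh (rws (Function.update a j y) T') ⬝ᵥ Function.update a j y j|) ^ (1 / 2 : ℝ)) ∂μ ≤
        ENNReal.ofReal (F3_K m C) := by
    intro a
    have e : ∀ y : Fin (m + 1) → ℝ, ENNReal.ofReal ((nrm (Function.update a j y j) /
        |xh (rws (Function.update a j y) T') ⬝ᵥ Function.update a j y j|) ^ (1 / 2 : ℝ)) =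
        ENNReal.ofReal ((nrm y / |xh (rws a T') ⬝ᵥ y|) ^ (1 / 2 : ℝ)) := by
      intro y
      rw [M0_upd a T' j hj y, Function.update_self]
    simp only [e]
    exact hone _
  refine (mul_le_mul' le_rfl (lintegral_mono step2)).trans ?_
  rw [lintegral_const, measure_univ, mul_one, ← ENNReal.ofReal_mul (F3_K_nonneg m C hC),
    F3_K_mul m C hC]

end BWG
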