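import Pool.Agent.BWG.GDefs
import Pool.Agent.BWG.F3
import Pool.Agent.BWG.E1
import Pool.Agent.BWG.M0

set_option autoImplicit false

open MeasureTheory Finset Filter Topology Matrix
open scoped ENNReal


namespace BWG



/-- E4. PROOF. Let `R a` be the double sum (`GG ≥ 0`, so `R ≥ 0`), measurable by `M0_GG`.
`∫⁻ ofReal (R a) ≤ ∑∑ (if near then 0 else ∫⁻ ofReal (GG ..)) ≤ κ^2 ofReal (KC C (m+1))` by
`F3_mean`, where `κ = Fintype.card (KK n m) = n.choose m` (`E1_card`)
(`ENNReal.ofReal_sum_of_nonneg`, `lintegral_finset_sum`). Markov (`mul_meas_ge_le_lintegral`):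
`ofReal (L KC κ^2) * P {L KC κ^2 ≤ R} ≤ ofReal (κ^2 KC)`, and `KC > 0`, `κ > 0` because
`C > 0`, `m ≤ n`. Divide. -/
theorem E4_markov {m n : ℕ} (hmn : m ≤ n) (μ : Measure (Fin (m + 1) → ℝ))
    [IsProbabilityMeasure μ] (c C L : ℝ) (hC : 0 < C) (hL : 0 < L) (hμ : Reg μ c C)
    (I J : KK n m → KK n m → Fin n)
    (hIJ : ∀ T T', ¬ near T T' →
      I T T' ≠ J T T' ∧ I T T' ∈ T.1 ∧ I T T' ∉ T'.1 ∧ J T T' ∈ T.1 ∧ J T T' ∉ T'.1) :
    (Measure.pi (fun _ : Fin n => μ))
        {a | L * KC C (m + 1) * (n.choose m : ℝ) ^ 2 <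
          ∑ T, ∑ T', (if near T T' then 0 else GG a T' (I T T') (J T T'))} ≤
      ENNReal.ofReal (1 / L) := by
  classical
  have hk : (0 : ℝ) < (n.choose m : ℝ) := by exact_mod_cast Nat.choose_pos hmn
  have hK : 0 < KC C (m + 1) := by
    unfold KC
    have h1 : (0 : ℝ) < C * ((m + 1 : ℕ) : ℝ) := mul_pos hC (by positivity)
    have h2 : (0 : ℝ) < 1 + 2 * C := by linarith
    exact mul_pos (Real.rpow_pos_of_pos h1 _) (Real.rpow_pos_of_pos h2 _)
  have hGG : ∀ (a : Fin n → Fin (m + 1) → ℝ) (T' : KK n m) (i j : Fin n), 0 ≤ GG a T' i j := by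
    intro a T' i j
    unfold GG nrm
    have h1 : ∀ i : Fin n, 0 ≤ Real.sqrt (a i ⬝ᵥ a i) / |xh (rws a T') ⬝ᵥ a i| := fun i =>
      div_nonneg (Real.sqrt_nonneg _) (abs_nonneg _)
    exact mul_nonneg (Real.rpow_nonneg (h1 i) _) (Real.rpow_nonneg (h1 j) _)
  have hF0 : ∀ (a : Fin n → Fin (m + 1) → ℝ) (T T' : KK n m),
      0 ≤ (if near T T' then 0 else GG a T' (I T T') (J T T')) := by
    intro a T T'
    split_ifs
    · exact le_rfl
    · exact hGG _ _ _ _
  have hFm : ∀ (T T' : KK n m), Measurable (fun a : Fin n → Fin (m + 1) → ℝ =>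
      ENNReal.ofReal (if near T T' then 0 else GG a T' (I T T') (J T T'))) := by
    intro T T'
    refine ENNReal.measurable_ofReal.comp ?_
    by_cases h : near T T'
    · simp only [h, if_true]; exact measurable_const
    · simp only [h, if_false]; exact M0_GG T' _ _
  have hR : ∀ a : Fin n → Fin (m + 1) → ℝ,
      ENNReal.ofReal (∑ T, ∑ T', (if near T T' then 0 else GG a T' (I T T') (J T T'))) =
        ∑ T, ∑ T', ENNReal.ofReal (if near T T' then 0 else GG a T' (I T T') (J T T')) := by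
    intro a
    rw [ENNReal.ofReal_sum_of_nonneg (fun T _ => Finset.sum_nonneg fun T' _ => hF0 a T T')]
    refine Finset.sum_congr rfl fun T _ => ?_
    rw [ENNReal.ofReal_sum_of_nonneg (fun T' _ => hF0 a T T')]
  have hRm : Measurable (fun a : Fin n → Fin (m + 1) → ℝ =>
      ENNReal.ofReal (∑ T, ∑ T', (if near T T' then 0 else GG a T' (I T T') (J T T')))) := by
    simp only [hR]
    exact Finset.measurable_fun_sum _ fun T _ => Finset.measurable_fun_sum _ fun T' _ => hFm T T'
  have hint : ∫⁻ a, ENNReal.ofReal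
      (∑ T, ∑ T', (if near T T' then 0 else GG a T' (I T T') (J T T')))
        ∂(Measure.pi (fun _ : Fin n => μ)) ≤
      ENNReal.ofReal ((n.choose m : ℝ) ^ 2 * KC C (m + 1)) := by
    simp only [hR]
    rw [lintegral_finsetSum _ (fun T _ => Finset.measurable_fun_sum _ fun T' _ => hFm T T')]
    have h1 : ∀ T T' : KK n m, ∫⁻ a, ENNReal.ofReal
        (if near T T' then 0 else GG a T' (I T T') (J T T'))
          ∂(Measure.pi (fun _ : Fin n => μ)) ≤ ENNReal.ofReal (KC C (m + 1)) := by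
      intro T T'
      by_cases h : near T T'
      · simp [h]
      · simp only [h, if_false]
        obtain ⟨e1, -, e2, -, e3⟩ := hIJ T T' h
        exact F3_mean μ c C hC hμ T' _ _ e1 e2 e3
    calc ∑ T : KK n m, ∫⁻ a, ∑ T', ENNReal.ofReal
          (if near T T' then 0 else GG a T' (I T T') (J T T'))
            ∂(Measure.pi (fun _ : Fin n => μ))
        ≤ ∑ _T : KK n m, ∑ _T' : KK n m, ENNReal.ofReal (KC C (m + 1)) := by
          refine Finset.sum_le_sum fun T _ => ?_
          rw [lintegral_finsetSum _ (fun T' _ => hFm T T')]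
          exact Finset.sum_le_sum fun T' _ => h1 T T'
      _ = ENNReal.ofReal ((n.choose m : ℝ) ^ 2 * KC C (m + 1)) := by
          simp only [Finset.sum_const, Finset.card_univ, E1_card, nsmul_eq_mul]
          rw [ENNReal.ofReal_mul (by positivity), pow_two, ENNReal.ofReal_mul hk.le,
            ENNReal.ofReal_natCast, mul_assoc]
  have ht : 0 < L * KC C (m + 1) * (n.choose m : ℝ) ^ 2 := by positivity
  have hmar := meas_ge_le_lintegral_div (μ := Measure.pi (fun _ : Fin n => μ))
    hRm.aemeasurable (ε := ENNReal.ofReal (L * KC C (m + 1) * (n.choose m : ℝ) ^ 2))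
    (ENNReal.ofReal_pos.2 ht).ne' ENNReal.ofReal_ne_top
  refine (measure_mono ?_).trans (hmar.trans ?_)
  · intro a ha
    exact ENNReal.ofReal_le_ofReal (le_of_lt ha)
  · refine (ENNReal.div_le_div_right hint _).trans (le_of_eq ?_)
    rw [← ENNReal.ofReal_div_of_pos ht]
    congr 1
    field_simp

end BWG
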