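import Pool.Agent.BWG.GDefs
import Pool.Agent.BWG.E1
import Pool.Agent.BWG.E2
import Pool.Agent.BWG.E3
import Pool.Agent.BWG.E4
import Pool.Agent.BWG.M0

set_option autoImplicit false

open MeasureTheory Finset Filter Topology Matrix
open scoped ENNReal


namespace BWG



/-- E5. PROOF. Let `I, J` be from `E1_choose`. The set is measurable (countable, even finite,
intersection; `(a, B) ↦ |xh (rws a T) ⬝ᵥ B i|` is measurable by `M0_xh`). `Measure.prod_apply`:
the measure is `∫⁻ a, ν {B | ∀ T i, ε < |xh (rws a T) ⬝ᵥ B i|}` with `ν` the product over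
`Fin r`. For every `a` this section is `Set.pi univ (fun _ => V a)`,
`V a = {b | ∀ T, ε < |xh (rws a T) ⬝ᵥ b|}`, so it has measure `(μ (V a))^r` (`Measure.pi_pi`,
`Finset.prod_const`). For `a` good (`E2_good`) and outside of the set of `E4_markov`, `E3_hit`
gives `μ.real (V a)ᶜ ≥ p0`, so `μ (V a) ≤ ofReal (1 - p0)` with `0 ≤ 1 - p0`; for the other `a` use
`≤ 1`. Hence the section is a.e. `≤ indicator (bad set of E4) 1 a + ofReal ((1 - p0)^r)`;
integrate (`lintegral_add_left`/`right`, `lintegral_indicator_one`, `lintegral_const`).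
(If no `a` is good-and-outside then the indicator term is a.e. `1` and the bound still holds.) -/
theorem E5_miss {m n r : ℕ} (hmn : m ≤ n) (hn : 0 < n) (μ : Measure (Fin (m + 1) → ℝ))
    [IsProbabilityMeasure μ] (c C ε L : ℝ) (hc : 0 < c) (hC : 0 < C) (hL : 0 < L)
    (hμ : Reg μ c C) (hε : 0 < ε) (hε1 : ε ≤ 1) :
    ((Measure.pi (fun _ : Fin n => μ)).prod (Measure.pi (fun _ : Fin r => μ)))
        {p : (Fin n → Fin (m + 1) → ℝ) × (Fin r → Fin (m + 1) → ℝ) |
          ∀ (T : KK n m) (i : Fin r), ε < |xh (rws p.1 T) ⬝ᵥ p.2 i|} ≤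
      ENNReal.ofReal (1 / L) + ENNReal.ofReal ((1 - p0 c C m n ε L) ^ r) := by
  classical
  obtain ⟨I, J, hIJ⟩ := E1_choose (n := n) (m := m) hn
  set P : Measure (Fin n → Fin (m + 1) → ℝ) := Measure.pi (fun _ : Fin n => μ) with hP
  set ν : Measure (Fin r → Fin (m + 1) → ℝ) := Measure.pi (fun _ : Fin r => μ) with hν
  have hmeas : MeasurableSet {p : (Fin n → Fin (m + 1) → ℝ) × (Fin r → Fin (m + 1) → ℝ) |
      ∀ (T : KK n m) (i : Fin r), ε < |xh (rws p.1 T) ⬝ᵥ p.2 i|} := by
    have h1 : {p : (Fin n → Fin (m + 1) → ℝ) × (Fin r → Fin (m + 1) → ℝ) |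
      ∀ (T : KK n m) (i : Fin r), ε < |xh (rws p.1 T) ⬝ᵥ p.2 i|} =
        ⋂ (T : KK n m), ⋂ (i : Fin r),
          {p : (Fin n → Fin (m + 1) → ℝ) × (Fin r → Fin (m + 1) → ℝ) |
            ε < |xh (rws p.1 T) ⬝ᵥ p.2 i|} := by
      ext p
      simp only [Set.mem_ofPred_eq, Set.mem_iInter]
    rw [h1]
    refine MeasurableSet.iInter fun T => MeasurableSet.iInter fun i => ?_
    refine measurableSet_lt measurable_const ?_
    refine Measurable.abs ?_
    unfold dotProduct
    refine Finset.measurable_sum _ fun j _ => Measurable.mul ?_ ?_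
    · exact (measurable_pi_apply j).comp ((M0_xh T).comp measurable_fst)
    · exact (measurable_pi_apply j).comp ((measurable_pi_apply i).comp measurable_snd)
  let V : (Fin n → Fin (m + 1) → ℝ) → Set (Fin (m + 1) → ℝ) :=
    fun a => {b | ∀ T : KK n m, ε < |xh (rws a T) ⬝ᵥ b|}
  have hV : ∀ a, MeasurableSet (V a) := by
    intro a
    have h1 : V a = ⋂ (T : KK n m), {b | ε < |xh (rws a T) ⬝ᵥ b|} := by
      ext b
      simp only [V, Set.mem_ofPred_eq, Set.mem_iInter]
    rw [h1]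
    refine MeasurableSet.iInter fun T => measurableSet_lt measurable_const ?_
    refine Measurable.abs ?_
    unfold dotProduct
    exact Finset.measurable_sum _ fun j _ => measurable_const.mul (measurable_pi_apply j)
  have hsec : ∀ a, ν (Prod.mk a ⁻¹' {p : (Fin n → Fin (m + 1) → ℝ) × (Fin r → Fin (m + 1) → ℝ) |
      ∀ (T : KK n m) (i : Fin r), ε < |xh (rws p.1 T) ⬝ᵥ p.2 i|}) = (μ (V a)) ^ r := by
    intro a
    have h1 : Prod.mk a ⁻¹' {p : (Fin n → Fin (m + 1) → ℝ) × (Fin r → Fin (m + 1) → ℝ) |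
      ∀ (T : KK n m) (i : Fin r), ε < |xh (rws p.1 T) ⬝ᵥ p.2 i|} =
        Set.pi Set.univ (fun _ : Fin r => V a) := by
      ext B
      simp only [V, Set.mem_preimage, Set.mem_ofPred_eq, Set.mem_pi, Set.mem_univ, true_implies]
      exact ⟨fun h i T => h T i, fun h T i => h i T⟩
    rw [h1, hν, Measure.pi_pi, Finset.prod_const, Finset.card_univ, Fintype.card_fin]
  rw [Measure.prod_apply hmeas]
  simp only [hsec]
  set bad : Set (Fin n → Fin (m + 1) → ℝ) :=
    {a | L * KC C (m + 1) * (n.choose m : ℝ) ^ 2 <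
          ∑ T, ∑ T', (if near T T' then 0 else GG a T' (I T T') (J T T'))} with hbad
  have hae : ∀ᵐ a ∂P, (μ (V a)) ^ r ≤
      bad.indicator 1 a + ENNReal.ofReal ((1 - p0 c C m n ε L) ^ r) := by
    filter_upwards [E2_good μ c C hμ] with a ha
    by_cases hab : a ∈ bad
    · rw [Set.indicator_of_mem hab]
      refine le_trans ?_ (le_add_right le_rfl)
      exact pow_le_one' prob_le_one r
    · rw [Set.indicator_of_notMem hab, zero_add]
      have h3 := E3_hit hmn μ c C ε L hc hC hL hμ hε hε1 I J hIJ a ha (not_lt.1 hab)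
      have h4 : {b | ∃ T : KK n m, |xh (rws a T) ⬝ᵥ b| ≤ ε} = (V a)ᶜ := by
        ext b
        simp only [V, Set.mem_ofPred_eq, Set.mem_compl_iff, not_forall, not_lt]
      rw [h4, probReal_compl_eq_one_sub (hV a)] at h3
      have h5 : μ.real (V a) ≤ 1 - p0 c C m n ε L := by linarith
      have h6 : 0 ≤ 1 - p0 c C m n ε L := le_trans measureReal_nonneg h5
      rw [ENNReal.ofReal_pow h6]
      refine pow_le_pow_left' ?_ r
      rw [← ofReal_measureReal (μ := μ) (s := V a)]
      exact ENNReal.ofReal_le_ofReal h5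
  calc ∫⁻ a, (μ (V a)) ^ r ∂P
      ≤ ∫⁻ a, (bad.indicator 1 a + ENNReal.ofReal ((1 - p0 c C m n ε L) ^ r)) ∂P :=
        lintegral_mono_ae hae
    _ = ∫⁻ a, bad.indicator 1 a ∂P + ∫⁻ _, ENNReal.ofReal ((1 - p0 c C m n ε L) ^ r) ∂P :=
        lintegral_add_right _ measurable_const
    _ ≤ P bad + ENNReal.ofReal ((1 - p0 c C m n ε L) ^ r) := by
        refine add_le_add (lintegral_indicator_one_le _) ?_
        rw [lintegral_const, measure_univ, mul_one]
    _ ≤ _ := by
        refine add_le_add ?_ le_rfl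
        exact E4_markov hmn μ c C L hC hL hμ I J hIJ

end BWG
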