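import Pool.Agent.BWG.GDefs

set_option autoImplicit false

open MeasureTheory Finset Filter Topology Matrix
open scoped ENNReal


namespace BWG



theorem G1_pdf_le (x : ℝ) : ProbabilityTheory.gaussianPDFReal 0 1 x ≤ 1 / 2 := by
  unfold ProbabilityTheory.gaussianPDFReal
  have h1 : (2 : ℝ) ≤ √(2 * Real.pi * ((1 : NNReal) : ℝ)) := by
    apply Real.le_sqrt_of_sq_le
    have := Real.pi_gt_three
    simp only [NNReal.coe_one]
    linarith
  have h2 : (√(2 * Real.pi * ((1 : NNReal) : ℝ)))⁻¹ ≤ 1 / 2 := by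
    rw [one_div]
    exact inv_anti₀ (by norm_num) h1
  have h3 : Real.exp (-(x - 0) ^ 2 / (2 * ((1 : NNReal) : ℝ))) ≤ 1 := by
    rw [Real.exp_le_one_iff]
    simp only [NNReal.coe_one]
    have := sq_nonneg (x - 0)
    linarith
  have h4 : 0 < Real.exp (-(x - 0) ^ 2 / (2 * ((1 : NNReal) : ℝ))) := Real.exp_pos _
  have h5 : 0 ≤ (√(2 * Real.pi * ((1 : NNReal) : ℝ)))⁻¹ := by positivity
  nlinarith

theorem G1_pdf_ge (x : ℝ) (hx : |x| ≤ 1) : 1 / 5 ≤ ProbabilityTheory.gaussianPDFReal 0 1 x := by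
  unfold ProbabilityTheory.gaussianPDFReal
  have h1 : √(2 * Real.pi * ((1 : NNReal) : ℝ)) ≤ 3 := by
    rw [Real.sqrt_le_left (by norm_num)]
    have := Real.pi_lt_d2
    simp only [NNReal.coe_one]
    norm_num
    linarith
  have h0 : 0 < √(2 * Real.pi * ((1 : NNReal) : ℝ)) := by
    apply Real.sqrt_pos.2
    have := Real.pi_pos
    simp only [NNReal.coe_one]
    linarith
  have h2 : 1 / 3 ≤ (√(2 * Real.pi * ((1 : NNReal) : ℝ)))⁻¹ := by
    rw [one_div]
    exact inv_anti₀ h0 h1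
  have hx2 : x ^ 2 ≤ 1 := by
    have := sq_abs x
    nlinarith [abs_nonneg x]
  have h3 : 3 / 5 ≤ Real.exp (-(x - 0) ^ 2 / (2 * ((1 : NNReal) : ℝ))) := by
    have he : Real.exp (-(1 / 2)) ≤ Real.exp (-(x - 0) ^ 2 / (2 * ((1 : NNReal) : ℝ))) := by
      apply Real.exp_le_exp.2
      simp only [NNReal.coe_one]
      have e : (x - 0) ^ 2 = x ^ 2 := by ring
      rw [e]
      linarith
    refine le_trans ?_ he
    have hsq : Real.exp (1 / 2) ≤ 5 / 3 := by
      have h6 : Real.exp (1 / 2) ^ 2 = Real.exp 1 := by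
        rw [← Real.exp_nat_mul]
        norm_num
      have h7 := Real.exp_one_lt_d9
      have h8 : Real.exp (1 / 2) ^ 2 ≤ (5 / 3 : ℝ) ^ 2 := by
        rw [h6]
        norm_num at h7 ⊢
        linarith
      exact (le_abs_self _).trans (abs_le_of_sq_le_sq h8 (by norm_num))
    rw [Real.exp_neg]
    have h9 : (5 / 3 : ℝ)⁻¹ ≤ (Real.exp (1 / 2))⁻¹ := inv_anti₀ (Real.exp_pos _) hsq
    refine le_trans (by norm_num) h9
  have h5 : 0 ≤ (√(2 * Real.pi * ((1 : NNReal) : ℝ)))⁻¹ := by positivity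
  calc (1 / 5 : ℝ) = 1 / 3 * (3 / 5) := by norm_num
    _ ≤ _ := mul_le_mul h2 h3 (by norm_num) h5

/-- G1a. PROOF. Density `≤ 1/√(2π) ≤ 2/5`... precisely `gaussianReal 0 1` has density
`(√(2π))⁻¹ exp(-z^2/2) ≤ (√(2π))⁻¹ ≤ 1/2` on the interval `[-t, t]` of length `2 t`
(`ProbabilityTheory.gaussianReal_apply`, `gaussianPDF`, `gaussianPDFReal`). -/
theorem G1_up (t : ℝ) (ht : 0 ≤ t) :
    (ProbabilityTheory.gaussianReal 0 1).real {z | |z| ≤ t} ≤ t := by
  have hset : {z : ℝ | |z| ≤ t} = Set.Icc (-t) t := by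
    ext z
    simp [abs_le]
  rw [hset, measureReal_def]
  refine ENNReal.toReal_le_of_le_ofReal ht ?_
  rw [ProbabilityTheory.gaussianReal_apply 0 one_ne_zero]
  calc ∫⁻ x in Set.Icc (-t) t, ProbabilityTheory.gaussianPDF 0 1 x
      ≤ ∫⁻ _ in Set.Icc (-t) t, ENNReal.ofReal (1 / 2) := by
        refine lintegral_mono fun x => ?_
        unfold ProbabilityTheory.gaussianPDF
        exact ENNReal.ofReal_le_ofReal (G1_pdf_le x)
    _ = ENNReal.ofReal t := by
        rw [setLIntegral_const, Real.volume_Icc, ← ENNReal.ofReal_mul (by norm_num)]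
        congr 1
        ring

/-- G1b. PROOF. On `[-t, t] ⊆ [-1, 1]` the density is `≥ exp(-1/2)/√(2π) ≥ 1/5`
(`exp(1/2) ≤ 5/3 ` gives `exp(-1/2) ≥ 3/5`; `√(2π) ≤ 13/5 ≤ 3`: `exp(1/2)^2 = e < 2.7182818286 ≤
25/9`, `2π < 6.2832 ≤ 9`), times the length `2 t`. -/
theorem G1_low (t : ℝ) (ht : 0 < t) (ht1 : t ≤ 1) :
    2 / 5 * t ≤ (ProbabilityTheory.gaussianReal 0 1).real {z | |z| ≤ t} := by
  have hset : {z : ℝ | |z| ≤ t} = Set.Icc (-t) t := by
    ext z
    simp [abs_le]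
  rw [hset, measureReal_def]
  rw [← ENNReal.ofReal_le_iff_le_toReal (measure_ne_top _ _)]
  rw [ProbabilityTheory.gaussianReal_apply 0 one_ne_zero]
  calc ENNReal.ofReal (2 / 5 * t) = ∫⁻ _ in Set.Icc (-t) t, ENNReal.ofReal (1 / 5) := by
        rw [setLIntegral_const, Real.volume_Icc, ← ENNReal.ofReal_mul (by norm_num)]
        congr 1
        ring
    _ ≤ ∫⁻ x in Set.Icc (-t) t, ProbabilityTheory.gaussianPDF 0 1 x := by
        refine setLIntegral_mono' measurableSet_Icc fun x hx => ?_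
        unfold ProbabilityTheory.gaussianPDF
        refine ENNReal.ofReal_le_ofReal (G1_pdf_ge x ?_)
        rw [abs_le]
        exact ⟨by linarith [hx.1], by linarith [hx.2]⟩

/-- G1c. PROOF. The second moment is the variance `1` (`variance_fun_id_gaussianReal`,
`integral_id_gaussianReal`, `memLp_id_gaussianReal`; `ofReal_integral_eq_lintegral_ofReal`). -/
theorem G1_mom :
    ∫⁻ z, ENNReal.ofReal (z ^ 2) ∂(ProbabilityTheory.gaussianReal 0 1) = 1 := by
  have hL : MemLp (fun z : ℝ => z) 2 (ProbabilityTheory.gaussianReal 0 1) :=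
    ProbabilityTheory.memLp_id_gaussianReal 2
  have hi : Integrable (fun z : ℝ => z ^ 2) (ProbabilityTheory.gaussianReal 0 1) := hL.integrable_sq
  rw [← ofReal_integral_eq_lintegral_ofReal hi (Filter.Eventually.of_forall fun z => sq_nonneg z)]
  have hv := ProbabilityTheory.variance_fun_id_gaussianReal (μ := 0) (v := 1)
  rw [ProbabilityTheory.variance_eq_integral measurable_id'.aemeasurable,
    ProbabilityTheory.integral_id_gaussianReal] at hv
  simp only [sub_zero, NNReal.coe_one] at hv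
  rw [hv, ENNReal.ofReal_one]

end BWG
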