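import Pool.Agent.BWG.GDefs

set_option autoImplicit false

open MeasureTheory Finset Filter Topology Matrix
open scoped ENNReal


namespace BWG



open ProbabilityTheory in
/-- the coordinates in an orthonormal basis -/
theorem G2_law {k : ℕ} (b : OrthonormalBasis (Fin k) ℝ (EuclideanSpace ℝ (Fin k)))
    (A : Fin k → Set ℝ) (hA : ∀ i, MeasurableSet (A i)) :
    (Measure.pi (fun _ : Fin k => gaussianReal 0 1))
        {a | ∀ i, inner ℝ (b i) (WithLp.toLp 2 a : EuclideanSpace ℝ (Fin k)) ∈ A i} =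
      ∏ i, gaussianReal 0 1 (A i) := by
  have h1 := map_pi_eq_stdGaussian (ι := Fin k)
  have h2 := stdGaussian_eq_map_pi_orthonormalBasis b
  have hS : MeasurableSet {e : EuclideanSpace ℝ (Fin k) | ∀ i, inner ℝ (b i) e ∈ A i} := by
    rw [Set.setOf_forall]
    refine MeasurableSet.iInter fun i => ?_
    have h3 : Measurable fun e : EuclideanSpace ℝ (Fin k) => (inner ℝ (b i) e : ℝ) := by fun_prop
    exact h3 (hA i)
  have h4 := congrArg (fun μ : Measure (EuclideanSpace ℝ (Fin k)) =>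
    μ {e : EuclideanSpace ℝ (Fin k) | ∀ i, inner ℝ (b i) e ∈ A i}) (h1.trans h2)
  simp only at h4
  rw [Measure.map_apply (by fun_prop) hS, Measure.map_apply (by fun_prop) hS] at h4
  have h5 : (fun x : Fin k → ℝ => ∑ i, x i • b i) ⁻¹'
      {e : EuclideanSpace ℝ (Fin k) | ∀ i, inner ℝ (b i) e ∈ A i} = Set.pi Set.univ A := by
    ext x
    simp only [Set.mem_preimage, Set.mem_setOf_eq, Set.mem_pi, Set.mem_univ, true_imp_iff,
      b.orthonormal.inner_right_fintype]
  rw [h5, Measure.pi_pi] at h4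
  exact h4

theorem G2_inner {k : ℕ} (u a : Fin k → ℝ) :
    inner ℝ (WithLp.toLp 2 u : EuclideanSpace ℝ (Fin k)) (WithLp.toLp 2 a) = u ⬝ᵥ a := by
  simp [PiLp.inner_apply, dotProduct, mul_comm]

theorem G2_norm {k : ℕ} (u : Fin k → ℝ) (hu : u ⬝ᵥ u = 1) :
    ‖(WithLp.toLp 2 u : EuclideanSpace ℝ (Fin k))‖ = 1 := by
  have h := real_inner_self_eq_norm_sq (WithLp.toLp 2 u : EuclideanSpace ℝ (Fin k))
  rw [G2_inner, hu] at h
  exact (pow_eq_one_iff_of_nonneg (norm_nonneg _) (by norm_num)).1 h.symm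

theorem G2_abs (t : ℝ) : MeasurableSet {z : ℝ | |z| ≤ t} :=
  measurableSet_le continuous_abs.measurable measurable_const

theorem G2_card {k : ℕ} (u v : Fin k → ℝ) (hu : u ⬝ᵥ u = 1) (hv : v ⬝ᵥ v = 1)
    (huv : u ⬝ᵥ v = 0) : 2 ≤ k := by
  match k with
  | 0 => simp [dotProduct] at hu
  | 1 =>
    exfalso
    simp only [dotProduct, Fin.sum_univ_one, Fin.isValue] at hu hv huv
    rcases mul_eq_zero.1 huv with h | h
    · rw [h] at hu
      norm_num at hu
    · rw [h] at hv
      norm_num at hv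
  | (k + 2) => omega

/-- G2. PROOF. In `E = EuclideanSpace ℝ (Fin k)` let `U = WithLp.toLp 2 u`, `V = WithLp.toLp 2 v`,
orthonormal. With the standard basis, `stdGaussian_eq_map_pi_orthonormalBasis` (namespace
`ProbabilityTheory`, or `map_pi_eq_stdGaussian`) says that `stdGaussian E` is the image of
`P = Measure.pi (fun _ : Fin k => gaussianReal 0 1)` under `toLp 2`. Let `b` be an orthonormal basis
indexed by `Fin k` with `b i₀ = U`, `b i₁ = V` for two indices `i₀ ≠ i₁` (`k ≥ 2` because of the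
two orthonormal vectors; `Orthonormal.exists_orthonormalBasis_extension_of_card_eq` with
`s = {i₀, i₁}`); the same theorem for `b` says that `stdGaussian E` is the image of `P` under
`x ↦ ∑ i, x i • b i`. So the law of `(u ⬝ᵥ a, v ⬝ᵥ a) = (⟪U, toLp a⟫, ⟪V, toLp a⟫)` under `P` is
the law of `(x i₀, x i₁)` under `P` (`⟪b i₀, ∑ x i • b i⟫ = x i₀`), and the measure of
`{x | |x i₀| ≤ s ∧ |x i₁| ≤ t}` is the product by `Measure.pi_pi` (a box: `univ` in the other
coordinates). -/
theorem G2_two {k : ℕ} (u v : Fin k → ℝ) (hu : u ⬝ᵥ u = 1) (hv : v ⬝ᵥ v = 1)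
    (huv : u ⬝ᵥ v = 0) (s t : ℝ) :
    (Measure.pi (fun _ : Fin k => ProbabilityTheory.gaussianReal 0 1)).real
        {a | |u ⬝ᵥ a| ≤ s ∧ |v ⬝ᵥ a| ≤ t} =
      (ProbabilityTheory.gaussianReal 0 1).real {z | |z| ≤ s} *
        (ProbabilityTheory.gaussianReal 0 1).real {z | |z| ≤ t} := by
  have hk := G2_card u v hu hv huv
  obtain ⟨i₀, i₁, hne⟩ : ∃ i₀ i₁ : Fin k, i₀ ≠ i₁ :=
    ⟨⟨0, by omega⟩, ⟨1, by omega⟩, by simp [Fin.ext_iff]⟩
  have horth : Orthonormal ℝ (Set.domRestrict ({i₀, i₁} : Set (Fin k))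
      (fun i => if i = i₀ then (WithLp.toLp 2 u : EuclideanSpace ℝ (Fin k)) else WithLp.toLp 2 v)) := by
    constructor
    · rintro ⟨i, hi⟩
      simp only [Set.domRestrict_apply]
      split_ifs
      · exact G2_norm u hu
      · exact G2_norm v hv
    · rintro ⟨i, hi⟩ ⟨j, hj⟩ hij
      simp only [Set.domRestrict_apply]
      have hij' : i ≠ j := fun h => hij (Subtype.ext h)
      rcases hi with rfl | hi
      · rw [if_pos rfl, if_neg (Ne.symm hij'), G2_inner, huv]
      · rw [Set.mem_singleton_iff] at hi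
        subst hi
        rcases hj with rfl | hj
        · rw [if_neg hij', if_pos rfl, G2_inner, dotProduct_comm, huv]
        · exact absurd (Set.mem_singleton_iff.1 hj).symm hij'
  obtain ⟨b, hb⟩ := horth.exists_orthonormalBasis_extension_of_card_eq (by simp)
  have h0 : b i₀ = WithLp.toLp 2 u := by
    rw [hb i₀ (by simp), if_pos rfl]
  have h1 : b i₁ = WithLp.toLp 2 v := by
    rw [hb i₁ (by simp), if_neg (Ne.symm hne)]
  have hlaw := G2_law b (fun i => if i = i₀ then {z : ℝ | |z| ≤ s} else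
    if i = i₁ then {z : ℝ | |z| ≤ t} else Set.univ) (fun i => by
      split_ifs
      · exact G2_abs s
      · exact G2_abs t
      · exact MeasurableSet.univ)
  have hset : {a : Fin k → ℝ | ∀ i, inner ℝ (b i) (WithLp.toLp 2 a : EuclideanSpace ℝ (Fin k)) ∈
      (if i = i₀ then {z : ℝ | |z| ≤ s} else if i = i₁ then {z : ℝ | |z| ≤ t} else Set.univ)} =
      {a | |u ⬝ᵥ a| ≤ s ∧ |v ⬝ᵥ a| ≤ t} := by
    ext a
    simp only [Set.mem_setOf_eq]
    constructor
    · intro h
      have e0 := h i₀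
      have e1 := h i₁
      rw [if_pos rfl, h0, G2_inner] at e0
      rw [if_neg (Ne.symm hne), if_pos rfl, h1, G2_inner] at e1
      exact ⟨e0, e1⟩
    · rintro ⟨e0, e1⟩ i
      by_cases hi0 : i = i₀
      · subst hi0
        rw [if_pos rfl, h0, G2_inner]
        exact e0
      · rw [if_neg hi0]
        by_cases hi1 : i = i₁
        · subst hi1
          rw [if_pos rfl, h1, G2_inner]
          exact e1
        · rw [if_neg hi1]
          exact Set.mem_univ _
  rw [hset, Fintype.prod_eq_mul i₀ i₁ hne (by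
    rintro i ⟨hi0, hi1⟩
    rw [if_neg hi0, if_neg hi1, measure_univ]), if_pos rfl, if_neg (Ne.symm hne), if_pos rfl] at hlaw
  rw [measureReal_def, hlaw, ENNReal.toReal_mul]
  rfl

/-- G2b. PROOF. The same with one vector. -/
theorem G2_one {k : ℕ} (u : Fin k → ℝ) (hu : u ⬝ᵥ u = 1) (t : ℝ) :
    (Measure.pi (fun _ : Fin k => ProbabilityTheory.gaussianReal 0 1)).real
        {a | |u ⬝ᵥ a| ≤ t} = (ProbabilityTheory.gaussianReal 0 1).real {z | |z| ≤ t} := by
  have hk : 1 ≤ k := by
    rcases Nat.eq_zero_or_pos k with h | h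
    · subst h
      simp [dotProduct] at hu
    · exact h
  obtain ⟨i₀⟩ : Nonempty (Fin k) := ⟨⟨0, by omega⟩⟩
  have horth : Orthonormal ℝ (Set.domRestrict ({i₀} : Set (Fin k))
      (fun _ => (WithLp.toLp 2 u : EuclideanSpace ℝ (Fin k)))) := by
    constructor
    · rintro ⟨i, hi⟩
      exact G2_norm u hu
    · rintro ⟨i, hi⟩ ⟨j, hj⟩ hij
      exact absurd (Subtype.ext ((Set.mem_singleton_iff.1 hi).trans (Set.mem_singleton_iff.1 hj).symm)) hij
  obtain ⟨b, hb⟩ := horth.exists_orthonormalBasis_extension_of_card_eq (by simp)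
  have h0 : b i₀ = WithLp.toLp 2 u := hb i₀ (by simp)
  have hlaw := G2_law b (fun i => if i = i₀ then {z : ℝ | |z| ≤ t} else Set.univ) (fun i => by
      split_ifs
      · exact G2_abs t
      · exact MeasurableSet.univ)
  have hset : {a : Fin k → ℝ | ∀ i, inner ℝ (b i) (WithLp.toLp 2 a : EuclideanSpace ℝ (Fin k)) ∈
      (if i = i₀ then {z : ℝ | |z| ≤ t} else Set.univ)} = {a | |u ⬝ᵥ a| ≤ t} := by
    ext a
    simp only [Set.mem_setOf_eq]
    constructor
    · intro h
      have e0 := h i₀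
      rw [if_pos rfl, h0, G2_inner] at e0
      exact e0
    · intro e0 i
      by_cases hi0 : i = i₀
      · subst hi0
        rw [if_pos rfl, h0, G2_inner]
        exact e0
      · rw [if_neg hi0]
        exact Set.mem_univ _
  rw [hset, Fintype.prod_eq_single i₀ (by
    intro i hi0
    rw [if_neg hi0, measure_univ]), if_pos rfl] at hlaw
  rw [measureReal_def, hlaw]
  rfl

end BWG
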