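import Pool.Agent.BWG.GDefs
import Pool.Agent.BWG.G1
import Pool.Agent.BWG.G2

set_option autoImplicit false

open MeasureTheory Finset Filter Topology Matrix
open scoped ENNReal


namespace BWG



/-- G4. PROOF. `low`, `up`, `two` from `G2_one`, `G2_two` and `G1_low`, `G1_up`. `mom`:
`a ⬝ᵥ a = ∑ i, a i ^ 2`, `lintegral_finset_sum`, the law of `a i` is `gaussianReal 0 1`
(`measurePreserving_eval`), `G1_mom`; the sum is `k`. -/
theorem G4_reg (k : ℕ) :
    Reg (Measure.pi (fun _ : Fin k => ProbabilityTheory.gaussianReal 0 1)) (2 / 5) 1 := by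
  refine ⟨?_, ?_, ?_, ?_⟩
  · intro u hu t ht ht1
    rw [G2_one u hu t]
    exact G1_low t ht ht1
  · intro u hu t ht
    rw [G2_one u hu t, one_mul]
    exact G1_up t ht
  · intro u v hu hv huv s t hs ht
    rw [G2_two u v hu hv huv s t, one_mul]
    exact mul_le_mul (G1_up s hs) (G1_up t ht) measureReal_nonneg hs
  · have h1 : ∀ a : Fin k → ℝ, ENNReal.ofReal (a ⬝ᵥ a) = ∑ i, ENNReal.ofReal (a i ^ 2) := by
      intro a
      rw [← ENNReal.ofReal_sum_of_nonneg fun i _ => sq_nonneg _]
      congr 1
      unfold dotProduct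
      exact Finset.sum_congr rfl fun i _ => (sq (a i)).symm
    simp only [h1]
    rw [lintegral_finsetSum]
    · have h2 : ∀ i : Fin k, ∫⁻ a, ENNReal.ofReal (a i ^ 2)
          ∂(Measure.pi (fun _ : Fin k => ProbabilityTheory.gaussianReal 0 1)) = 1 := by
        intro i
        have hp := measurePreserving_eval
          (fun _ : Fin k => ProbabilityTheory.gaussianReal 0 1) i
        have hf : Measurable (fun z : ℝ => ENNReal.ofReal (z ^ 2)) := by fun_prop
        have h3 := hp.lintegral_comp hf
        rw [G1_mom] at h3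
        exact h3
      simp only [h2, Finset.sum_const, Finset.card_univ, Fintype.card_fin, nsmul_eq_mul, mul_one,
        one_mul]
      rw [ENNReal.ofReal_natCast]
    · intro i _
      fun_prop

end BWG
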