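import Mathlib

set_option autoImplicit false

open MeasureTheory Finset Filter Topology Matrix
open scoped ENNReal

namespace BWG

/-- The Euclidean norm of a vector. -/
noncomputable def nrm {k : ℕ} (v : Fin k → ℝ) : ℝ := Real.sqrt (v ⬝ᵥ v)

/-- Generalised cross product of `m` vectors of `R^(m+1)`: the `i`-th coordinate is the
determinant of the matrix with rows `e_i, v 0, ..., v (m-1)`. -/
noncomputable def cr {m : ℕ} (v : Fin m → Fin (m + 1) → ℝ) : Fin (m + 1) → ℝ :=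
  fun i => Matrix.det
    (Matrix.of (Fin.cons (Pi.single i 1) v : Fin (m + 1) → Fin (m + 1) → ℝ))

/-- The normalised cross product (zero if the vectors are dependent). -/
noncomputable def xh {m : ℕ} (v : Fin m → Fin (m + 1) → ℝ) : Fin (m + 1) → ℝ :=
  (nrm (cr v))⁻¹ • cr v

/-- The sine of the angle of two unit vectors. -/
noncomputable def sn {k : ℕ} (x y : Fin k → ℝ) : ℝ := Real.sqrt (1 - (x ⬝ᵥ y) ^ 2)

/-- Regular laws on `R^k`. -/
structure Reg {k : ℕ} (μ : Measure (Fin k → ℝ)) (c C : ℝ) : Prop where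
  low : ∀ u : Fin k → ℝ, u ⬝ᵥ u = 1 → ∀ t : ℝ, 0 < t → t ≤ 1 →
    c * t ≤ μ.real {a | |u ⬝ᵥ a| ≤ t}
  up : ∀ u : Fin k → ℝ, u ⬝ᵥ u = 1 → ∀ t : ℝ, 0 ≤ t → μ.real {a | |u ⬝ᵥ a| ≤ t} ≤ C * t
  two : ∀ u v : Fin k → ℝ, u ⬝ᵥ u = 1 → v ⬝ᵥ v = 1 → u ⬝ᵥ v = 0 → ∀ s t : ℝ, 0 ≤ s → 0 ≤ t →
    μ.real {a | |u ⬝ᵥ a| ≤ s ∧ |v ⬝ᵥ a| ≤ t} ≤ C * s * t
  mom : ∫⁻ a, ENNReal.ofReal (a ⬝ᵥ a) ∂μ ≤ ENNReal.ofReal (C * k)

/-- The subsets of size `m` of `Fin n`. -/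
abbrev KK (n m : ℕ) : Type := {T : Finset (Fin n) // T.card = m}

/-- The rows with index in `T`. -/
def rws {k n m : ℕ} (a : Fin n → Fin k → ℝ) (T : KK n m) : Fin m → Fin k → ℝ :=
  fun i => a (T.1.orderEmbOfFin T.2 i)

/-- Two sets are near if they differ in at most one element. -/
def near {n m : ℕ} (T T' : KK n m) : Prop := (T.1 \ T'.1).card ≤ 1

instance {n m : ℕ} (T T' : KK n m) : Decidable (near T T') := by
  unfold near; infer_instance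

/-- The inequality of Balan and Wang (written as in the frozen statement, `C = 1`). -/
def BW {ι : Type} [Fintype ι] (M : ℕ) (β : ℝ) (A : ι → Fin M → ℝ) : Prop :=
  ∃ S : Finset ι,
    Module.finrank ℝ (Submodule.span ℝ (Set.range (fun i : {i : ι // i ∉ S} => A i.1))) < M ∧
    ∃ x : Fin M → ℝ, ∑ j, x j ^ 2 = 1 ∧
      ∃ k : ι, Real.sqrt (∑ i ∈ S, (∑ j, A i j * x j) ^ 2)
        ≤ Real.sqrt (∑ j, A k j ^ 2) * β ^ M

/-- The constant in the estimate of the inverse sines. -/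
noncomputable def KC (C : ℝ) (k : ℕ) : ℝ := (C * k) ^ (1 / 2 : ℝ) * (1 + 2 * C) ^ (3 / 2 : ℝ)

/-- The pairwise majorant of the inverse sine: `i, j` are two indices outside `T'`. -/
noncomputable def GG {m n : ℕ} (a : Fin n → Fin (m + 1) → ℝ) (T' : KK n m) (i j : Fin n) : ℝ :=
  (nrm (a i) / |xh (rws a T') ⬝ᵥ a i|) ^ (1 / 2 : ℝ) *
    (nrm (a j) / |xh (rws a T') ⬝ᵥ a j|) ^ (1 / 2 : ℝ)

/-- The lower bound of the probability for one more row. -/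
noncomputable def p0 (c C : ℝ) (m n : ℕ) (ε L : ℝ) : ℝ :=
  c ^ 2 / (C * (n + 1 : ℝ) ^ 2 / (ε * (n.choose m : ℝ)) + 2 * C * (L * KC C (m + 1)))


end BWG
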