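import Pool.Agent.BWG.GDefs

set_option autoImplicit false

open MeasureTheory Finset Filter Topology Matrix
open scoped ENNReal


namespace BWG



/-- K1a. PROOF. Induction on `r`: `C(N, m) * (N - m) = C(N-1, m) * N` and `N ≤ 3 (N - m)` as long as
`2 N ≥ 3 m`; here `N = 2m+1-(r-1) ≥ 3m/2`. -/
theorem K1_choose (m r : ℕ) (hr : 2 * r ≤ m) :
    (2 * m + 1).choose m ≤ 3 ^ r * (2 * m + 1 - r).choose m := by
  induction r with
  | zero => simp
  | succ r ih =>
    have ih' := ih (by omega)
    refine ih'.trans ?_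
    obtain ⟨n, hn⟩ : ∃ n, 2 * m + 1 - r = n + 1 := ⟨2 * m - r, by omega⟩
    have hn2 : 2 * m + 1 - (r + 1) = n := by omega
    rw [hn, hn2, pow_succ, mul_assoc]
    apply Nat.mul_le_mul_left
    have h := Nat.choose_mul_succ_eq n m
    have h1 : n + 1 ≤ 3 * (n + 1 - m) := by omega
    have h2 : 0 < n + 1 - m := by omega
    have h3 : (n + 1).choose m * (n + 1 - m) ≤ 3 * n.choose m * (n + 1 - m) := by
      rw [← h]
      calc n.choose m * (n + 1) ≤ n.choose m * (3 * (n + 1 - m)) := Nat.mul_le_mul_left _ h1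
        _ = 3 * n.choose m * (n + 1 - m) := by ring
    exact Nat.le_of_mul_le_mul_right h3 h2

/-- K1b. PROOF. `Nat.four_pow_le_two_mul_self_mul_centralBinom` and
`C(2m, m) ≤ C(2m+1, m)`. -/
theorem K1_four (m : ℕ) : 4 ^ m ≤ (2 * m + 1) * (2 * m + 1).choose m := by
  rcases Nat.eq_zero_or_pos m with rfl | hm
  · simp
  have h1 := Nat.four_pow_le_two_mul_self_mul_centralBinom m hm
  have h2 : Nat.centralBinom m ≤ (2 * m + 1).choose m := by
    rw [Nat.centralBinom_eq_two_mul_choose]
    exact Nat.choose_le_choose m (by omega)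
  exact h1.trans (Nat.mul_le_mul (by omega) h2)

end BWG
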