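import Pool.Agent.BWG.GDefs
import Pool.Agent.BWG.K1

set_option autoImplicit false

open MeasureTheory Finset Filter Topology Matrix
open scoped ENNReal


namespace BWG



/-- K2. PROOF. Choose `s ≥ 2` with `(4 β)^s > 3` (possible as `4 β > 1`), `q = (4 β)^s / 3 > 1`.
With `r = m / s` (so `s r ≤ m < s (r + 1)`, `2 r ≤ m`): by `K1`
`(2m+1-r).choose m ≥ 4^m / ((2m+1) 3^r)`, so
`β^(m+1) * (2m+1-r).choose m ≥ β (4β)^m / ((2m+1) 3^r) ≥ β q^r / (2m+1)` because
`(4β)^m ≥ (4β)^(s r)`. Hence the quotient is `≤ (2m+2)^2 (2m+1) / (β q^r)`, and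
`q^r ≥ q^(m/s - 1) = q⁻¹ (q^(1/s))^m` (real powers; or: `m + 1 ≤ s (r + 1)`, so the quotient is
`≤ 8 s^3 (r+1)^3 / (β q^r)` and `(r+1)^3 / q^r → 0` as `r = m / s → ∞`,
`tendsto_pow_const_div_const_pow_of_one_lt`, `Nat.tendsto_div_const_atTop` or similar). -/
theorem K2_near (β : ℝ) (hβ : 1 / 4 < β) :
    ∃ s : ℕ, 2 ≤ s ∧ Tendsto (fun m : ℕ => (((2 * m + 1 - m / s : ℕ) : ℝ) + 1) ^ 2 /
      (β ^ (m + 1) * ((2 * m + 1 - m / s).choose m : ℝ))) atTop (𝓝 0) := by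
  have hβ0 : 0 < β := by linarith
  have h4 : 1 < 4 * β := by linarith
  -- choice of s
  obtain ⟨s, hs2, hs3⟩ : ∃ s : ℕ, 2 ≤ s ∧ 3 < (4 * β) ^ s := by
    have h := tendsto_pow_atTop_atTop_of_one_lt h4
    obtain ⟨s, h1, h2⟩ := ((h.eventually_gt_atTop 3).and (eventually_ge_atTop 2)).exists
    exact ⟨s, h2, h1⟩
  refine ⟨s, hs2, ?_⟩
  set q : ℝ := (4 * β) ^ s / 3 with hq
  have hq1 : 1 < q := by
    rw [hq, lt_div_iff₀ (by norm_num)]
    linarith
  have hq0 : 0 < q := by linarith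
  have hspos : (0 : ℝ) < s := by
    have : 0 < s := by omega
    exact_mod_cast this
  -- the majorant
  have hlim : Tendsto (fun m : ℕ => 8 * (s : ℝ) ^ 3 / β * q * ((((m / s + 1 : ℕ) : ℝ) ^ 3) / q ^ (m / s + 1)))
      atTop (𝓝 0) := by
    have h1 : Tendsto (fun n : ℕ => ((n : ℝ) ^ 3) / q ^ n) atTop (𝓝 0) :=
      tendsto_pow_const_div_const_pow_of_one_lt 3 hq1
    have h2 : Tendsto (fun m : ℕ => m / s + 1) atTop atTop := by
      exact (tendsto_add_atTop_nat 1).comp (Nat.tendsto_div_const_atTop (by omega))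
    have h3 := (h1.comp h2).const_mul (8 * (s : ℝ) ^ 3 / β * q)
    rw [mul_zero] at h3
    exact h3
  refine squeeze_zero (fun m => ?_) (fun m => ?_) hlim
  · positivity
  · -- the bound
    set r := m / s with hr
    have hsr : s * r ≤ m := Nat.mul_div_le m s
    have hsr2 : m + 1 ≤ s * (r + 1) := by
      have := Nat.lt_mul_div_succ m (show 0 < s by omega)
      rw [← hr] at this
      omega
    have hr2 : 2 * r ≤ m := le_trans (Nat.mul_le_mul_right r hs2) hsr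
    have hk1 := K1_choose m r hr2
    have hk2 := K1_four m
    have hk : (4 : ℝ) ^ m ≤ (2 * m + 1) * (3 ^ r * ((2 * m + 1 - r).choose m : ℝ)) := by
      have h5 : 4 ^ m ≤ (2 * m + 1) * (3 ^ r * (2 * m + 1 - r).choose m) :=
        hk2.trans (Nat.mul_le_mul_left _ hk1)
      exact_mod_cast h5
    set c : ℝ := ((2 * m + 1 - r).choose m : ℝ) with hc
    have hcpos : 0 < c := by
      rw [hc]
      exact_mod_cast Nat.choose_pos (by omega)
    have hm1 : (0 : ℝ) < 2 * m + 1 := by positivity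
    -- q ^ r ≤ (4 β)^m / 3^r
    have hqr : q ^ r * 3 ^ r ≤ (4 * β) ^ m := by
      rw [hq, div_pow, ← pow_mul, div_mul_cancel₀ _ (by positivity)]
      exact pow_le_pow_right₀ h4.le hsr
    have h6 : q ^ r * β ≤ (2 * m + 1) * (β ^ (m + 1) * c) := by
      have h7 : (4 * β) ^ m ≤ β ^ m * ((2 * m + 1) * (3 ^ r * c)) := by
        rw [mul_pow, mul_comm]
        exact mul_le_mul_of_nonneg_left hk (by positivity)
      have h8 : q ^ r * 3 ^ r ≤ (β ^ m * ((2 * m + 1) * c)) * 3 ^ r := by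
        calc q ^ r * 3 ^ r ≤ (4 * β) ^ m := hqr
          _ ≤ β ^ m * ((2 * m + 1) * (3 ^ r * c)) := h7
          _ = (β ^ m * ((2 * m + 1) * c)) * 3 ^ r := by ring
      have h9 : q ^ r ≤ β ^ m * ((2 * m + 1) * c) := le_of_mul_le_mul_right h8 (by positivity)
      calc q ^ r * β ≤ (β ^ m * ((2 * m + 1) * c)) * β := mul_le_mul_of_nonneg_right h9 hβ0.le
        _ = (2 * m + 1) * (β ^ (m + 1) * c) := by ring
    have hnum : (((2 * m + 1 - r : ℕ) : ℝ) + 1) ^ 2 ≤ (2 * (s * (r + 1) : ℝ)) ^ 2 := by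
      apply pow_le_pow_left₀ (by positivity)
      have : 2 * m + 1 - r + 1 ≤ 2 * (s * (r + 1)) := by omega
      exact_mod_cast this
    have h2m : (2 * m + 1 : ℝ) ≤ 2 * (s * (r + 1) : ℝ) := by
      have : 2 * m + 1 ≤ 2 * (s * (r + 1)) := by omega
      exact_mod_cast this
    have hden : 0 < β ^ (m + 1) * c := by positivity
    have hsr3 : (0 : ℝ) < s * (r + 1) := by positivity
    rw [div_le_iff₀ hden]
    have h10 : q ^ r * β ≤ 2 * (s * (r + 1)) * (β ^ (m + 1) * c) :=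
      h6.trans (mul_le_mul_of_nonneg_right h2m hden.le)
    calc (((2 * m + 1 - r : ℕ) : ℝ) + 1) ^ 2 ≤ (2 * (s * (r + 1) : ℝ)) ^ 2 := hnum
      _ = (4 * (s * (r + 1) : ℝ) ^ 2) / (q ^ r * β) * (q ^ r * β) := by
          rw [div_mul_cancel₀ _ (by positivity)]; ring
      _ ≤ (4 * (s * (r + 1) : ℝ) ^ 2) / (q ^ r * β) * (2 * (s * (r + 1)) * (β ^ (m + 1) * c)) :=
          mul_le_mul_of_nonneg_left h10 (by positivity)
      _ = 8 * (s : ℝ) ^ 3 / β * q * (((r + 1 : ℕ) : ℝ) ^ 3 / q ^ (r + 1)) * (β ^ (m + 1) * c) := by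
          push_cast
          field_simp
          ring

end BWG
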