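import Pool.Agent.BWG.GDefs
import Pool.Agent.BWG.K2

set_option autoImplicit false

open MeasureTheory Finset Filter Topology Matrix
open scoped ENNReal


namespace BWG



/-- K3. PROOF. `s` from `K2_near`, `r m = m / s`, `L m = (m+1)^(1/4)` (real power), so `1/L → 0`,
`1 ≤ m / s` for `m ≥ s`. Let `D m` be the denominator of `p0`:
`D m = C (n+1)^2 / (β^(m+1) choose) + 2 C (L m * KC C (m+1))`; the first summand tends to `0`
(`K2_near` times `C`), the second is `B (m+1)^(3/4)` with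
`B = 2 C * C^(1/2) (1+2C)^(3/2) > 0` (`KC C (m+1) = C^(1/2) (m+1)^(1/2) (1+2C)^(3/2)`,
`Real.mul_rpow`; note the cast `((m+1 : ℕ) : ℝ) = m + 1`). Eventually `0 < D m`,
`D m ≤ (B + 1) (m+1)^(3/4)` and `D m ≥ c^2` (tends to infinity), so
`0 ≤ 1 - p0 ≤ 1 - c^2/((B+1) (m+1)^(3/4)) ≤ exp (- c^2/((B+1)(m+1)^(3/4)))` and
`(1 - p0)^(r m) ≤ exp (- c^2 (m/s : ℕ) / ((B+1)(m+1)^(3/4))) → 0`, because
`(m / s : ℕ) ≥ (m+1)/(2 s)` for `m ≥ 2 s` and `(m+1)^(1/4) → ∞`. Squeeze between `0` and this. -/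
theorem K3_lim (c C β : ℝ) (hc : 0 < c) (hC : 0 < C) (hβ : 1 / 4 < β) :
    ∃ (s : ℕ) (L : ℕ → ℝ), 2 ≤ s ∧ (∀ m, 0 < L m) ∧
      Tendsto (fun m => 1 / L m) atTop (𝓝 0) ∧
      Tendsto (fun m : ℕ => (1 - p0 c C m (2 * m + 1 - m / s) (β ^ (m + 1)) (L m)) ^ (m / s))
        atTop (𝓝 0) := by
  obtain ⟨s, hs2, hs⟩ := K2_near β hβ
  have hβ0 : 0 < β := by linarith
  have hspos : 0 < s := by omega
  have hsR : (0 : ℝ) < s := by exact_mod_cast hspos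
  -- the powers of m + 1
  have hx : Tendsto (fun m : ℕ => ((m : ℝ) + 1)) atTop atTop :=
    tendsto_atTop_add_const_right _ _ tendsto_natCast_atTop_atTop
  have hpow : ∀ y : ℝ, 0 < y → Tendsto (fun m : ℕ => ((m : ℝ) + 1) ^ y) atTop atTop := fun y hy =>
    (tendsto_rpow_atTop hy).comp hx
  have hxpos : ∀ m : ℕ, (0 : ℝ) < (m : ℝ) + 1 := fun m => by positivity
  refine ⟨s, fun m => ((m : ℝ) + 1) ^ (1 / 4 : ℝ), hs2, fun m => Real.rpow_pos_of_pos (hxpos m) _, ?_, ?_⟩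
  · simp only [one_div]
    exact (hpow _ (by norm_num)).inv_tendsto_atTop
  set B : ℝ := 2 * C * (C ^ (1 / 2 : ℝ) * (1 + 2 * C) ^ (3 / 2 : ℝ)) with hB
  have hBpos : 0 < B := by
    have h1 : 0 < C ^ (1 / 2 : ℝ) := Real.rpow_pos_of_pos hC _
    have h2 : 0 < (1 + 2 * C) ^ (3 / 2 : ℝ) := Real.rpow_pos_of_pos (by linarith) _
    positivity
  set E : ℕ → ℝ := fun m => C * ((((2 * m + 1 - m / s : ℕ) : ℝ) + 1) ^ 2 /
      (β ^ (m + 1) * ((2 * m + 1 - m / s).choose m : ℝ))) with hE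
  have hElim : Tendsto E atTop (𝓝 0) := by
    have := hs.const_mul C
    rwa [mul_zero] at this
  have hEnn : ∀ m, 0 ≤ E m := by
    intro m
    rw [hE]
    positivity
  have hp0 : ∀ m : ℕ, p0 c C m (2 * m + 1 - m / s) (β ^ (m + 1)) (((m : ℝ) + 1) ^ (1 / 4 : ℝ)) =
      c ^ 2 / (E m + B * ((m : ℝ) + 1) ^ (3 / 4 : ℝ)) := by
    intro m
    unfold p0 KC
    have h1 : (C * ((m + 1 : ℕ) : ℝ)) ^ (1 / 2 : ℝ) = C ^ (1 / 2 : ℝ) * ((m : ℝ) + 1) ^ (1 / 2 : ℝ) := by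
      rw [Real.mul_rpow hC.le (by positivity)]
      push_cast
      rfl
    have h2 : ((m : ℝ) + 1) ^ (1 / 4 : ℝ) * ((m : ℝ) + 1) ^ (1 / 2 : ℝ) = ((m : ℝ) + 1) ^ (3 / 4 : ℝ) := by
      rw [← Real.rpow_add (hxpos m)]
      norm_num
    rw [h1, hE, hB, ← h2]
    congr 1
    simp only []
    ring
  have hb1 : ∀ᶠ m : ℕ in atTop, E m ≤ ((m : ℝ) + 1) ^ (3 / 4 : ℝ) := by
    have h1 : ∀ᶠ m : ℕ in atTop, E m < 1 := hElim.eventually (gt_mem_nhds one_pos)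
    have h2 := (hpow (3 / 4) (by norm_num)).eventually_ge_atTop 1
    filter_upwards [h1, h2] with m h3 h4
    linarith
  have hb2 : ∀ᶠ m : ℕ in atTop, c ^ 2 ≤ B * ((m : ℝ) + 1) ^ (3 / 4 : ℝ) :=
    ((hpow (3 / 4) (by norm_num)).const_mul_atTop hBpos).eventually_ge_atTop _
  have hb3 : ∀ᶠ m : ℕ in atTop, ((m : ℝ) + 1) / (2 * s) ≤ ((m / s : ℕ) : ℝ) := by
    filter_upwards [eventually_ge_atTop (2 * s)] with m hm
    rw [div_le_iff₀ (by positivity)]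
    have h1 := Nat.lt_mul_div_succ m hspos
    have h2 : 2 ≤ m / s := (Nat.le_div_iff_mul_le hspos).mpr (by linarith)
    have h3 : m + 1 ≤ (m / s) * (2 * s) := by nlinarith
    exact_mod_cast h3
  set A : ℝ := c ^ 2 / (B + 1) / (2 * s) with hA
  have hApos : 0 < A := by positivity
  have hfin : Tendsto (fun m : ℕ => Real.exp (-(A * ((m : ℝ) + 1) ^ (1 / 4 : ℝ)))) atTop (𝓝 0) := by
    apply Real.tendsto_exp_atBot.comp
    exact tendsto_neg_atTop_atBot.comp ((hpow (1 / 4) (by norm_num)).const_mul_atTop hApos)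
  refine tendsto_of_tendsto_of_tendsto_of_le_of_le' tendsto_const_nhds hfin ?_ ?_
  · filter_upwards [hb2] with m h2
    apply pow_nonneg
    rw [hp0, sub_nonneg]
    have hpos : 0 < E m + B * ((m : ℝ) + 1) ^ (3 / 4 : ℝ) := by
      have := Real.rpow_pos_of_pos (hxpos m) (3 / 4)
      have := hEnn m
      positivity
    rw [div_le_one hpos]
    linarith [hEnn m]
  · filter_upwards [hb1, hb2, hb3] with m h1 h2 h3
    rw [hp0]
    have hy : 0 < ((m : ℝ) + 1) ^ (3 / 4 : ℝ) := Real.rpow_pos_of_pos (hxpos m) _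
    have hpos : 0 < E m + B * ((m : ℝ) + 1) ^ (3 / 4 : ℝ) := by
      have := hEnn m
      positivity
    have h4 : c ^ 2 / ((B + 1) * ((m : ℝ) + 1) ^ (3 / 4 : ℝ)) ≤
        c ^ 2 / (E m + B * ((m : ℝ) + 1) ^ (3 / 4 : ℝ)) := by
      apply div_le_div_of_nonneg_left (by positivity) hpos
      linarith
    have h5 : 1 - c ^ 2 / (E m + B * ((m : ℝ) + 1) ^ (3 / 4 : ℝ)) ≤
        Real.exp (-(c ^ 2 / ((B + 1) * ((m : ℝ) + 1) ^ (3 / 4 : ℝ)))) := by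
      have := Real.add_one_le_exp (-(c ^ 2 / ((B + 1) * ((m : ℝ) + 1) ^ (3 / 4 : ℝ))))
      linarith
    have h6 : 0 ≤ 1 - c ^ 2 / (E m + B * ((m : ℝ) + 1) ^ (3 / 4 : ℝ)) := by
      rw [sub_nonneg, div_le_one hpos]
      linarith [hEnn m]
    calc (1 - c ^ 2 / (E m + B * ((m : ℝ) + 1) ^ (3 / 4 : ℝ))) ^ (m / s)
        ≤ (Real.exp (-(c ^ 2 / ((B + 1) * ((m : ℝ) + 1) ^ (3 / 4 : ℝ))))) ^ (m / s) :=
          pow_le_pow_left₀ h6 h5 _
      _ = Real.exp (((m / s : ℕ) : ℝ) * (-(c ^ 2 / ((B + 1) * ((m : ℝ) + 1) ^ (3 / 4 : ℝ))))) := by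
          rw [← Real.exp_nat_mul]
      _ ≤ Real.exp (-(A * ((m : ℝ) + 1) ^ (1 / 4 : ℝ))) := by
          apply Real.exp_le_exp.mpr
          rw [mul_neg, neg_le_neg_iff]
          have h7 : ((m : ℝ) + 1) ^ (1 / 4 : ℝ) * ((m : ℝ) + 1) ^ (3 / 4 : ℝ) = (m : ℝ) + 1 := by
            rw [← Real.rpow_add (hxpos m)]
            norm_num
          have h8 : A * ((m : ℝ) + 1) ^ (1 / 4 : ℝ) =
              ((m : ℝ) + 1) / (2 * s) * (c ^ 2 / ((B + 1) * ((m : ℝ) + 1) ^ (3 / 4 : ℝ))) := by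
            rw [hA]
            have hy' := hy.ne'
            field_simp
            exact h7
          rw [h8]
          exact mul_le_mul_of_nonneg_right h3 (by positivity)

end BWG
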