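import Pool.Agent.BWG.GDefs
import Pool.Agent.BWG.E5
import Pool.Agent.BWG.D2
import Pool.Agent.BWG.K3

set_option autoImplicit false

open MeasureTheory Finset Filter Topology Matrix
open scoped ENNReal


namespace BWG



/-- Q1. PROOF. Choose `β₁` with `1/4 < β₁ < min β 1` (e.g. `β₁ = (1/4 + min β 1)/2`), `s, L` from
`K3_lim c C β₁`; for every `m` put `r = m / s`, `n = 2m+1-r` (`n + r = 2m+1`, `m ≤ n`, `0 < n`),
`ε = β₁^(m+1) ∈ (0, 1]`. `D2_main` and `E5_miss` give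
`P {¬ BW} ≤ ofReal (1/L) + ofReal ((1-p0)^r) + ofReal (C (β₁/β)^(m+1))`
(`β₁^(m+1)/β^(m+1) = (β₁/β)^(m+1)`, `div_pow`), each term tends to `0`
(`ENNReal.tendsto_ofReal`, `ENNReal.ofReal_zero`, `tendsto_pow_atTop_nhds_zero_of_lt_one`,
`Tendsto.add`). `tendsto_of_tendsto_of_tendsto_of_le_of_le`. -/
theorem Q1_pos (c C : ℝ) (hc : 0 < c) (hC : 0 < C) (μ : (m : ℕ) → Measure (Fin (m + 1) → ℝ))
    (hp : ∀ m, IsProbabilityMeasure (μ m)) (hμ : ∀ m, Reg (μ m) c C) (β : ℝ) (hβ : 1 / 4 < β) :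
    Tendsto (fun m => (Measure.pi (fun _ : Fin (2 * m + 1) => μ m)) {A | ¬ BW (m + 1) β A})
      atTop (𝓝 0) := by
  have hmin : 1 / 4 < min β 1 := lt_min hβ (by norm_num)
  obtain ⟨β₁, h1, h2⟩ := exists_between hmin
  have h3 : β₁ < β := h2.trans_le (min_le_left _ _)
  have h4 : β₁ < 1 := h2.trans_le (min_le_right _ _)
  have hβ0 : 0 < β := by linarith
  have hβ₁0 : 0 < β₁ := by linarith
  obtain ⟨s, L, hs, hL, hL0, hpow⟩ := K3_lim c C β₁ hc hC h1
  have hb : ∀ m, (Measure.pi (fun _ : Fin (2 * m + 1) => μ m)) {A | ¬ BW (m + 1) β A} ≤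
      ENNReal.ofReal (1 / L m) +
        ENNReal.ofReal ((1 - p0 c C m (2 * m + 1 - m / s) (β₁ ^ (m + 1)) (L m)) ^ (m / s)) +
        ENNReal.ofReal (C * (β₁ / β) ^ (m + 1)) := by
    intro m
    have := hp m
    have hr : m / s ≤ m := Nat.div_le_self _ _
    have hnr : (2 * m + 1 - m / s) + m / s = 2 * m + 1 := by omega
    have h5 := D2_main hnr (μ m) c C (hμ m) (β₁ ^ (m + 1)) β (by positivity) hβ0
    have h6 := E5_miss (m := m) (n := 2 * m + 1 - m / s) (r := m / s) (by omega) (by omega)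
      (μ m) c C (β₁ ^ (m + 1)) (L m) hc hC (hL m) (hμ m) (by positivity)
      (pow_le_one₀ hβ₁0.le h4.le)
    refine h5.trans ?_
    rw [div_pow]
    exact add_le_add h6 le_rfl
  have hlim : Tendsto (fun m : ℕ => ENNReal.ofReal (1 / L m) +
        ENNReal.ofReal ((1 - p0 c C m (2 * m + 1 - m / s) (β₁ ^ (m + 1)) (L m)) ^ (m / s)) +
        ENNReal.ofReal (C * (β₁ / β) ^ (m + 1))) atTop (𝓝 0) := by
    have t1 := ENNReal.tendsto_ofReal hL0
    have t2 := ENNReal.tendsto_ofReal hpow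
    have t3 : Tendsto (fun m : ℕ => C * (β₁ / β) ^ (m + 1)) atTop (𝓝 (C * 0)) :=
      ((tendsto_pow_atTop_nhds_zero_of_lt_one (by positivity)
        ((div_lt_one hβ0).2 h3)).comp (tendsto_add_atTop_nat 1)).const_mul C
    have t4 := ENNReal.tendsto_ofReal t3
    have t5 := (t1.add t2).add t4
    simpa only [mul_zero, ENNReal.ofReal_zero, add_zero] using t5
  exact tendsto_of_tendsto_of_tendsto_of_le_of_le tendsto_const_nhds hlim (fun _ => bot_le) hb

end BWG
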