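import Pool.Agent.BWG.GDefs
import Pool.Agent.BWG.A3

set_option autoImplicit false

open MeasureTheory Finset Filter Topology Matrix
open scoped ENNReal


namespace BWG



theorem U1_zero {m : ℕ} {ι : Type} [DecidableEq ι] (S : Finset ι) (hS : S.card = m + 1)
    (A : ι → Fin (m + 1) → ℝ) (hA : LinearIndependent ℝ (fun i : S => A i.1))
    (y : Fin (m + 1) → ℝ) (hy : ∀ j ∈ S, A j ⬝ᵥ y = 0) : y = 0 := by
  have hspan : Submodule.span ℝ (Set.range (fun i : S => A i.1)) = ⊤ := by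
    apply hA.span_eq_top_of_card_eq_finrank'
    rw [Fintype.card_coe, hS, Module.finrank_fin_fun]
  have h1 : ∀ z : Fin (m + 1) → ℝ, z ⬝ᵥ y = 0 := by
    intro z
    have hz : z ∈ Submodule.span ℝ (Set.range (fun i : S => A i.1)) := by
      rw [hspan]; trivial
    induction hz using Submodule.span_induction with
    | mem z hz =>
      obtain ⟨i, rfl⟩ := hz
      exact hy i.1 i.2
    | zero => simp
    | add u v _ _ hu hv => rw [add_dotProduct, hu, hv, add_zero]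
    | smul c u _ hu => rw [smul_dotProduct, hu, smul_zero]
  exact dotProduct_self_eq_zero.1 (h1 y)

/-- U1. PROOF. The `m+1` independent vectors `A k` (`k ∈ S`) form a basis of `ℝ^(m+1)`.
(i) `A k ⬝ᵥ N k ≠ 0`: otherwise `N k` is orthogonal to all `A j`, `j ∈ S`, which span, so
`N k ⬝ᵥ N k = 0`, contradiction with `hN`. (ii) `x = ∑ k ∈ S, (A k ⬝ᵥ x / (A k ⬝ᵥ N k)) • N k`:
the difference is orthogonal to all `A j`, so it is `0`. (iii) Suppose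
`|A k ⬝ᵥ N k| > (m+1) ε` for all `k ∈ S`. Then (`ε ≥ 0` since `S` is nonempty)
`1 = nrm x ≤ ∑ k ∈ S, |A k ⬝ᵥ x| / |A k ⬝ᵥ N k|` (triangle inequality; or:
`1 = x ⬝ᵥ x = ∑ (A k ⬝ᵥ x / (A k ⬝ᵥ N k)) (N k ⬝ᵥ x)` and `|N k ⬝ᵥ x| ≤ 1` by `A3_cs`)
and every summand is `< 1/(m+1)` (if `ε = 0` the summand is `0`), the sum over the `m + 1`
elements is `< 1`, contradiction. -/
theorem U1_dual {m : ℕ} {ι : Type} [DecidableEq ι] (S : Finset ι) (hS : S.card = m + 1)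
    (A : ι → Fin (m + 1) → ℝ) (hA : LinearIndependent ℝ (fun i : S => A i.1))
    (N : ι → Fin (m + 1) → ℝ) (hN : ∀ k ∈ S, N k ⬝ᵥ N k = 1)
    (hN' : ∀ k ∈ S, ∀ j ∈ S, j ≠ k → A j ⬝ᵥ N k = 0) (x : Fin (m + 1) → ℝ)
    (hx : x ⬝ᵥ x = 1) (ε : ℝ) (h : ∀ k ∈ S, |A k ⬝ᵥ x| ≤ ε) :
    ∃ k ∈ S, |A k ⬝ᵥ N k| ≤ (m + 1) * ε := by
  by_contra hcon
  push Not at hcon
  have hne : S.Nonempty := by
    rw [← Finset.card_pos, hS]; omega
  have hε : 0 ≤ ε := by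
    obtain ⟨k, hk⟩ := hne
    exact (abs_nonneg _).trans (h k hk)
  have hpos : ∀ k ∈ S, 0 < |A k ⬝ᵥ N k| := fun k hk =>
    lt_of_le_of_lt (by positivity) (hcon k hk)
  have hne0 : ∀ k ∈ S, A k ⬝ᵥ N k ≠ 0 := fun k hk => abs_pos.1 (hpos k hk)
  -- expansion of `x`
  have hx' : x - ∑ k ∈ S, (A k ⬝ᵥ x / (A k ⬝ᵥ N k)) • N k = 0 := by
    apply U1_zero S hS A hA
    intro j hj
    rw [dotProduct_sub, dotProduct_sum, Finset.sum_eq_single j]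
    · rw [dotProduct_smul, smul_eq_mul, div_mul_cancel₀ _ (hne0 j hj), sub_self]
    · intro k hk hkj
      rw [dotProduct_smul, hN' k hk j hj (Ne.symm hkj), smul_zero]
    · intro hj'
      exact absurd hj hj'
  have hx2 : x = ∑ k ∈ S, (A k ⬝ᵥ x / (A k ⬝ᵥ N k)) • N k := sub_eq_zero.1 hx'
  have h1 : (1 : ℝ) = ∑ k ∈ S, (A k ⬝ᵥ x / (A k ⬝ᵥ N k)) * (N k ⬝ᵥ x) := by
    have : x ⬝ᵥ x = (∑ k ∈ S, (A k ⬝ᵥ x / (A k ⬝ᵥ N k)) • N k) ⬝ᵥ x := by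
      rw [← hx2]
    rw [← hx, this, sum_dotProduct]
    simp only [smul_dotProduct, smul_eq_mul]
  have h2 : ∀ k ∈ S, (A k ⬝ᵥ x / (A k ⬝ᵥ N k)) * (N k ⬝ᵥ x) < 1 / (m + 1 : ℝ) := by
    intro k hk
    have hcs : |N k ⬝ᵥ x| ≤ 1 := by
      have := A3_cs (N k) x
      rwa [A3_unit_nrm (N k) (hN k hk), A3_unit_nrm x hx, mul_one] at this
    have h3 : |(A k ⬝ᵥ x / (A k ⬝ᵥ N k)) * (N k ⬝ᵥ x)| ≤ ε / |A k ⬝ᵥ N k| := by
      rw [abs_mul, abs_div]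
      calc |A k ⬝ᵥ x| / |A k ⬝ᵥ N k| * |N k ⬝ᵥ x|
          ≤ |A k ⬝ᵥ x| / |A k ⬝ᵥ N k| * 1 :=
            mul_le_mul_of_nonneg_left hcs (by positivity)
        _ = |A k ⬝ᵥ x| / |A k ⬝ᵥ N k| := mul_one _
        _ ≤ ε / |A k ⬝ᵥ N k| := by
            have := hpos k hk
            have := h k hk
            gcongr
    refine lt_of_le_of_lt ((le_abs_self _).trans h3) ?_
    rw [div_lt_div_iff₀ (hpos k hk) (by positivity)]
    have := hcon k hk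
    linarith
  have h4 : ∑ k ∈ S, (A k ⬝ᵥ x / (A k ⬝ᵥ N k)) * (N k ⬝ᵥ x) < ∑ k ∈ S, 1 / (m + 1 : ℝ) :=
    Finset.sum_lt_sum_of_nonempty hne h2
  rw [← h1, Finset.sum_const, hS, nsmul_eq_mul] at h4
  have : ((m + 1 : ℕ) : ℝ) * (1 / (m + 1 : ℝ)) = 1 := by
    push_cast
    field_simp
  rw [this] at h4
  exact lt_irrefl _ h4

end BWG
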