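import Pool.Agent.BWG.GDefs
import Pool.Agent.BWG.U1
import Pool.Agent.BWG.A2
import Pool.Agent.BWG.A3
import Pool.Agent.BWG.M0

set_option autoImplicit false

open MeasureTheory Finset Filter Topology Matrix
open scoped ENNReal


namespace BWG



theorem U4_nrm {k : ℕ} (v : Fin k → ℝ) : Real.sqrt (∑ j, v j ^ 2) = nrm v := by
  unfold nrm dotProduct
  congr 1
  exact Finset.sum_congr rfl fun j _ => by ring

theorem U4_card {m : ℕ} (A : Fin (2 * m + 1) → Fin (m + 1) → ℝ)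
    (hfs : ∀ e : Fin (m + 1) → Fin (2 * m + 1), Function.Injective e →
      LinearIndependent ℝ (fun i => A (e i)))
    (S : Finset (Fin (2 * m + 1)))
    (hS : Module.finrank ℝ (Submodule.span ℝ
      (Set.range (fun i : {i : Fin (2 * m + 1) // i ∉ S} => A i.1))) < m + 1) :
    m + 1 ≤ S.card := by
  by_contra hlt
  push Not at hlt
  have hc : m + 1 ≤ Sᶜ.card := by
    rw [Finset.card_compl, Fintype.card_fin]; omega
  obtain ⟨T, hTS, hT⟩ := Finset.exists_subset_card_eq hc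
  have hli := hfs (fun i => T.orderEmbOfFin hT i) (T.orderEmbOfFin hT).injective
  have h1 := finrank_span_eq_card hli
  rw [Fintype.card_fin] at h1
  have h2 : Submodule.span ℝ (Set.range (fun i => A (T.orderEmbOfFin hT i))) ≤
      Submodule.span ℝ (Set.range (fun i : {i : Fin (2 * m + 1) // i ∉ S} => A i.1)) := by
    apply Submodule.span_mono
    rintro _ ⟨i, rfl⟩
    have : T.orderEmbOfFin hT i ∉ S :=
      Finset.mem_compl.1 (hTS (Finset.orderEmbOfFin_mem T hT i))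
    exact ⟨⟨_, this⟩, rfl⟩
  have h3 := Submodule.finrank_mono h2
  omega

/-- U4. PROOF. Let `S, x, k₀` be from `BW`. If `S.card ≤ m`, the complement of `S` has at least
`m + 1` elements; take an injection `e : Fin (m+1) → Fin (2m+1)` with values outside of `S`; the
rows `A (e i)` are independent and lie in the span of the complementary rows, so its finrank is
`≥ m + 1`, contradiction. So there is `S₀ ⊆ S` with `S₀.card = m + 1`
(`Finset.exists_subset_card_eq`). For `i ∈ S₀`: `|A i ⬝ᵥ x| ≤ sqrt (∑ i ∈ S, ..) ≤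
nrm (A k₀) β^(m+1) ≤ ρ β^(m+1)`. The rows in `S₀` are independent (`hfs` with
`e = S₀.orderEmbOfFin`, transport along the equivalence `Fin (m+1) ≃ S₀`,
`Finset.orderIsoOfFin`). For `k ∈ S₀` let `T_k = ⟨S₀.erase k, _⟩ : KK (2m+1) m` and
`N k = xh (rws A T_k)`: `cr (rws A T_k) ≠ 0` by `A2_indep` (the rows `T_k ⊆ S₀` are independent:
`LinearIndependent.comp` with the injection into `S₀`), `N k` is a unit vector (`A3_unit`) and
orthogonal to `A j`, `j ∈ S₀.erase k` (`M0_orth`). `U1_dual` with `ε = ρ β^(m+1)`. -/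
theorem U4_red {m : ℕ} (β : ℝ) (hβ : 0 ≤ β) (A : Fin (2 * m + 1) → Fin (m + 1) → ℝ)
    (hfs : ∀ e : Fin (m + 1) → Fin (2 * m + 1), Function.Injective e →
      LinearIndependent ℝ (fun i => A (e i)))
    (h : BW (m + 1) β A) (ρ : ℝ) (hρ : ∀ k, nrm (A k) ≤ ρ) :
    ∃ (T : KK (2 * m + 1) m) (i : Fin (2 * m + 1)), i ∉ T.1 ∧ cr (rws A T) ≠ 0 ∧
      |xh (rws A T) ⬝ᵥ A i| ≤ (m + 1) * (ρ * β ^ (m + 1)) := by
  obtain ⟨S, hS, x, hx, k₀, hk₀⟩ := h
  have hcard := U4_card A hfs S hS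
  obtain ⟨S₀, hS₀S, hS₀⟩ := Finset.exists_subset_card_eq hcard
  have hx1 : x ⬝ᵥ x = 1 := by
    rw [← hx]
    exact Finset.sum_congr rfl fun j _ => by ring
  have hε : ∀ k ∈ S₀, |A k ⬝ᵥ x| ≤ ρ * β ^ (m + 1) := by
    intro k hk
    have h1 : |A k ⬝ᵥ x| ≤ Real.sqrt (∑ i ∈ S, (∑ j, A i j * x j) ^ 2) := by
      apply Real.le_sqrt_of_sq_le
      rw [sq_abs]
      exact Finset.single_le_sum (f := fun i => (∑ j, A i j * x j) ^ 2)
        (fun i _ => sq_nonneg _) (hS₀S hk)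
    refine h1.trans (hk₀.trans ?_)
    rw [U4_nrm]
    exact mul_le_mul_of_nonneg_right (hρ k₀) (pow_nonneg hβ _)
  -- independence of the rows with index in `S₀`
  have hli : LinearIndependent ℝ (fun i : S₀ => A i.1) := by
    have h1 := hfs (fun i => S₀.orderEmbOfFin hS₀ i) (S₀.orderEmbOfFin hS₀).injective
    rw [← linearIndependent_equiv (S₀.orderIsoOfFin hS₀).toEquiv]
    exact h1
  -- the sets `S₀.erase k`
  have hcE : ∀ k : Fin (2 * m + 1), k ∈ S₀ → (S₀.erase k).card = m := by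
    intro k hk
    rw [Finset.card_erase_of_mem hk, hS₀]; rfl
  let N : Fin (2 * m + 1) → Fin (m + 1) → ℝ := fun k =>
    if hk : k ∈ S₀ then xh (rws A (⟨S₀.erase k, hcE k hk⟩ : KK (2 * m + 1) m)) else 0
  have hNe : ∀ (k : Fin (2 * m + 1)) (hk : k ∈ S₀),
      N k = xh (rws A (⟨S₀.erase k, hcE k hk⟩ : KK (2 * m + 1) m)) := fun k hk => by
    simp only [N, dif_pos hk]
  have hcr : ∀ (k : Fin (2 * m + 1)) (hk : k ∈ S₀),
      cr (rws A (⟨S₀.erase k, hcE k hk⟩ : KK (2 * m + 1) m)) ≠ 0 := by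
    intro k hk
    apply A2_indep
    have hmem : ∀ i : Fin m, (S₀.erase k).orderEmbOfFin (hcE k hk) i ∈ S₀ := fun i =>
      Finset.mem_of_mem_erase (Finset.orderEmbOfFin_mem _ (hcE k hk) i)
    have := hli.comp (fun i : Fin m =>
      (⟨(S₀.erase k).orderEmbOfFin (hcE k hk) i, hmem i⟩ : S₀)) (by
        intro i j hij
        have := congrArg Subtype.val hij
        exact ((S₀.erase k).orderEmbOfFin (hcE k hk)).injective this)
    exact this
  obtain ⟨k, hk, hk2⟩ := U1_dual S₀ hS₀ A hli N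
    (fun k hk => by rw [hNe k hk]; exact A3_unit _ (hcr k hk))
    (fun k hk j hj hjk => by
      rw [hNe k hk]
      exact M0_orth A _ j (Finset.mem_erase.2 ⟨hjk, hj⟩))
    x hx1 (ρ * β ^ (m + 1)) hε
  refine ⟨⟨S₀.erase k, hcE k hk⟩, k, Finset.notMem_erase k S₀, hcr k hk, ?_⟩
  rw [← hNe k hk, dotProduct_comm]
  exact hk2

end BWG
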