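import Pool.Agent.BWG.GDefs
import Pool.Agent.BWG.F0
import Pool.Agent.BWG.A3
import Pool.Agent.BWG.M0
import Pool.Agent.BWG.E1
import Pool.Agent.BWG.U2
import Pool.Agent.BWG.U4

set_option autoImplicit false

open MeasureTheory Finset Filter Topology Matrix
open scoped ENNReal


namespace BWG



/-- U5a. PROOF. `F0_meas` with coordinate `i`, `δ = ofReal (C η)`: by `M0_upd` the section is
empty (if `cr (rws a T) = 0`) or `{y | |xh (rws a T) ⬝ᵥ y| ≤ η}` (`hμ.up`, `A3_unit`). -/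
theorem U5_small {m n : ℕ} (μ : Measure (Fin (m + 1) → ℝ)) [IsProbabilityMeasure μ] (c C : ℝ)
    (hμ : Reg μ c C) (T : KK n m) (i : Fin n) (hi : i ∉ T.1) (η : ℝ) (hη : 0 ≤ η) :
    (Measure.pi (fun _ : Fin n => μ))
      {a | cr (rws a T) ≠ 0 ∧ |xh (rws a T) ⬝ᵥ a i| ≤ η} ≤ ENNReal.ofReal (C * η) := by
  refine F0_meas μ _ ?_ i _ ?_
  · exact (M0_cr T (measurableSet_singleton 0).compl).inter
      (measurableSet_le (continuous_abs.measurable.comp (M0_dot T i)) measurable_const)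
  · intro a
    by_cases h : cr (rws a T) = 0
    · have h1 : {y | Function.update a i y ∈ {a : Fin n → Fin (m + 1) → ℝ |
          cr (rws a T) ≠ 0 ∧ |xh (rws a T) ⬝ᵥ a i| ≤ η}} = ∅ := by
        refine Set.eq_empty_of_forall_notMem fun y hy => ?_
        have hy1 : cr (rws (Function.update a i y) T) ≠ 0 := hy.1
        rw [M0_upd a T i hi y] at hy1
        exact hy1 h
      rw [h1, measure_empty]
      exact bot_le
    · have h1 : {y | Function.update a i y ∈ {a : Fin n → Fin (m + 1) → ℝ |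
          cr (rws a T) ≠ 0 ∧ |xh (rws a T) ⬝ᵥ a i| ≤ η}} ⊆ {y | |xh (rws a T) ⬝ᵥ y| ≤ η} := by
        intro y hy
        have hy1 : |xh (rws (Function.update a i y) T) ⬝ᵥ (Function.update a i y) i| ≤ η := hy.2
        rw [M0_upd a T i hi y, Function.update_self] at hy1
        exact hy1
      refine (measure_mono h1).trans ?_
      have h2 := hμ.up (xh (rws a T)) (A3_unit _ h) η hη
      exact (ENNReal.le_ofReal_iff_toReal_le (measure_ne_top _ _) (measureReal_nonneg.trans h2)).2 h2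

/-- U5b. PROOF. Union bound over `k` (`measure_iUnion_fintype_le` or `measure_biUnion_finset_le`),
law of `a k` is `μ` (`measurePreserving_eval`), Markov for `ofReal (a ⬝ᵥ a)`: `ρ < nrm a` implies
`ρ^2 ≤ a ⬝ᵥ a`, so `ofReal (ρ^2) μ {..} ≤ ofReal (C (m+1))`. -/
theorem U5_large {m n : ℕ} (μ : Measure (Fin (m + 1) → ℝ)) [IsProbabilityMeasure μ] (c C : ℝ)
    (hC : 0 < C) (hμ : Reg μ c C) (ρ : ℝ) (hρ : 0 < ρ) :
    (Measure.pi (fun _ : Fin n => μ)) {a | ∃ k, ρ < nrm (a k)} ≤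
      ENNReal.ofReal (n * (C * (m + 1)) / ρ ^ 2) := by
  have h1 : {a : Fin n → Fin (m + 1) → ℝ | ∃ k, ρ < nrm (a k)} =
      ⋃ k : Fin n, (fun a : Fin n → Fin (m + 1) → ℝ => a k) ⁻¹' {y | ρ < nrm y} := by
    ext a
    rw [Set.mem_iUnion]
    rfl
  have hmeas : MeasurableSet {y : Fin (m + 1) → ℝ | ρ < nrm y} :=
    measurableSet_lt measurable_const M0_nrm.measurable
  have h2 : μ {y | ρ < nrm y} ≤ ENNReal.ofReal (C * (m + 1) / ρ ^ 2) := by
    have e1 := mul_meas_ge_le_lintegral (μ := μ)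
      (f := fun y : Fin (m + 1) → ℝ => ENNReal.ofReal (y ⬝ᵥ y)) (by
        refine ENNReal.measurable_ofReal.comp ?_
        have e2 : (fun y : Fin (m + 1) → ℝ => y ⬝ᵥ y) = fun y => nrm y ^ 2 := by
          funext y
          exact (A3_sq y).symm
        rw [e2]
        exact (M0_nrm.pow 2).measurable) (ENNReal.ofReal (ρ ^ 2))
    have e2 : μ {y | ρ < nrm y} ≤ μ {y : Fin (m + 1) → ℝ | ENNReal.ofReal (ρ ^ 2) ≤ ENNReal.ofReal (y ⬝ᵥ y)} := by
      refine measure_mono fun y hy => ?_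
      have hy' : ρ < nrm y := hy
      show ENNReal.ofReal (ρ ^ 2) ≤ ENNReal.ofReal (y ⬝ᵥ y)
      rw [← A3_sq]
      exact ENNReal.ofReal_le_ofReal (pow_le_pow_left₀ hρ.le hy'.le 2)
    have e3 := hμ.mom
    have e4 : ENNReal.ofReal (ρ ^ 2) * μ {y | ρ < nrm y} ≤ ENNReal.ofReal (C * (m + 1)) := by
      refine (mul_le_mul_right e2 _).trans (e1.trans (e3.trans (le_of_eq ?_)))
      push_cast
      rfl
    have hρ2 : 0 < ρ ^ 2 := by positivity
    rw [ENNReal.ofReal_div_of_pos hρ2, ENNReal.le_div_iff_mul_le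
      (Or.inl (by rw [ne_eq, ENNReal.ofReal_eq_zero, not_le]; exact hρ2)) (Or.inl ENNReal.ofReal_ne_top),
      mul_comm]
    exact e4
  rw [h1]
  refine (measure_iUnion_fintype_le _ _).trans ?_
  have h3 : ∀ k : Fin n, (Measure.pi (fun _ : Fin n => μ))
      ((fun a : Fin n → Fin (m + 1) → ℝ => a k) ⁻¹' {y | ρ < nrm y}) = μ {y | ρ < nrm y} := by
    intro k
    exact (measurePreserving_eval (fun _ : Fin n => μ) k).measure_preimage hmeas.nullMeasurableSet
  rw [Finset.sum_congr rfl (fun k _ => h3 k), Finset.sum_const, Finset.card_univ, Fintype.card_fin,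
    nsmul_eq_mul]
  refine (mul_le_mul_right h2 _).trans (le_of_eq ?_)
  rw [← ENNReal.ofReal_natCast, ← ENNReal.ofReal_mul (Nat.cast_nonneg n)]
  congr 1
  ring

/-- U5c. PROOF. Almost every `A` satisfies the hypothesis `hfs` of `U4_red` (`U2_indep`, finitely
many `e`). For such `A` in `{BW}`: either some `nrm (A k) > ρ` (`U5_large` with `n = 2m+1`), or by
`U4_red` `A` is in the union over `T`, `i ∉ T` of the sets of `U5_small` with
`η = (m+1) (ρ β^(m+1))`; there are at most `(2m+1).choose m * (2m+1)` pairs (`E1_card`).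
(`measure_mono_ae`/`measure_mono_null`, `measure_union_le`, `measure_iUnion_fintype_le`.) -/
theorem U5_main {m : ℕ} (μ : Measure (Fin (m + 1) → ℝ)) [IsProbabilityMeasure μ] (c C : ℝ)
    (hC : 0 < C) (hμ : Reg μ c C) (β : ℝ) (hβ : 0 ≤ β) (ρ : ℝ) (hρ : 0 < ρ) :
    (Measure.pi (fun _ : Fin (2 * m + 1) => μ)) {A | BW (m + 1) β A} ≤
      ENNReal.ofReal ((2 * m + 1) * (C * (m + 1)) / ρ ^ 2) +
      ENNReal.ofReal (((2 * m + 1).choose m : ℝ) * (2 * m + 1) *
        (C * ((m + 1) * (ρ * β ^ (m + 1))))) := by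
  have hη : 0 ≤ ((m : ℝ) + 1) * (ρ * β ^ (m + 1)) := by positivity
  obtain ⟨s, hs⟩ : ∃ s : KK (2 * m + 1) m × Fin (2 * m + 1) → Set (Fin (2 * m + 1) → Fin (m + 1) → ℝ),
      ∀ p, s p = {a | p.2 ∉ p.1.1 ∧ cr (rws a p.1) ≠ 0 ∧
        |xh (rws a p.1) ⬝ᵥ a p.2| ≤ (m + 1) * (ρ * β ^ (m + 1))} := ⟨_, fun _ => rfl⟩
  have hsm : ∀ p, (Measure.pi (fun _ : Fin (2 * m + 1) => μ)) (s p) ≤
      ENNReal.ofReal (C * ((m + 1) * (ρ * β ^ (m + 1)))) := by
    rintro ⟨T, i⟩
    rw [hs]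
    by_cases hi : i ∈ T.1
    · refine le_trans (le_of_eq ?_) bot_le
      rw [Set.eq_empty_of_forall_notMem (s := {a : Fin (2 * m + 1) → Fin (m + 1) → ℝ |
        (T, i).2 ∉ (T, i).1.1 ∧ cr (rws a (T, i).1) ≠ 0 ∧
        |xh (rws a (T, i).1) ⬝ᵥ a (T, i).2| ≤ (m + 1) * (ρ * β ^ (m + 1))}) (fun a ha => ha.1 hi),
        measure_empty]
      rfl
    · refine le_trans (measure_mono ?_) (U5_small μ c C hμ T i hi _ hη)
      intro a ha
      exact ha.2
  have hae : ∀ᵐ A ∂(Measure.pi (fun _ : Fin (2 * m + 1) => μ)),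
      ∀ e : Fin (m + 1) → Fin (2 * m + 1), Function.Injective e →
        LinearIndependent ℝ (fun i => A (e i)) := by
    rw [ae_all_iff]
    intro e
    by_cases he : Function.Injective e
    · filter_upwards [U2_indep μ c C hμ (m + 1) le_rfl e he] with A hA _ using hA
    · exact Filter.Eventually.of_forall fun A h => absurd h he
  have hsub : {A | BW (m + 1) β A} ≤ᵐ[Measure.pi (fun _ : Fin (2 * m + 1) => μ)]
      ({a | ∃ k, ρ < nrm (a k)} ∪ ⋃ p, s p : Set (Fin (2 * m + 1) → Fin (m + 1) → ℝ)) := by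
    filter_upwards [hae] with A hA
    intro hBW
    show A ∈ ({a | ∃ k, ρ < nrm (a k)} ∪ ⋃ p, s p : Set (Fin (2 * m + 1) → Fin (m + 1) → ℝ))
    by_cases hk : ∃ k, ρ < nrm (A k)
    · exact Or.inl hk
    · right
      push Not at hk
      obtain ⟨T, i, h1, h2, h3⟩ := U4_red β hβ A hA hBW ρ hk
      rw [Set.mem_iUnion]
      refine ⟨(T, i), ?_⟩
      rw [hs]
      exact ⟨h1, h2, h3⟩
  refine (measure_mono_ae hsub).trans ((measure_union_le _ _).trans (add_le_add ?_ ?_))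
  · refine (U5_large μ c C hC hμ ρ hρ).trans (le_of_eq ?_)
    push_cast
    rfl
  · refine (measure_iUnion_fintype_le _ _).trans ?_
    refine (Finset.sum_le_sum fun p _ => hsm p).trans (le_of_eq ?_)
    rw [Finset.sum_const, Finset.card_univ, Fintype.card_prod, E1_card, Fintype.card_fin, nsmul_eq_mul,
      ← ENNReal.ofReal_natCast, ← ENNReal.ofReal_mul (Nat.cast_nonneg _)]
    congr 1
    push_cast
    ring

end BWG
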