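import Pool.Agent.BWG.GDefs
import Pool.Agent.BWG.U5

set_option autoImplicit false

open MeasureTheory Finset Filter Topology Matrix
open scoped ENNReal


namespace BWG



theorem U6_lim (D r : ℝ) (hr : |r| < 1) :
    Tendsto (fun m : ℕ => ENNReal.ofReal (D * (((m : ℝ) + 1) ^ 2 * r ^ (m + 1)))) atTop (𝓝 0) := by
  have h1 := tendsto_pow_const_mul_const_pow_of_abs_lt_one 2 hr
  have h2 := (h1.comp (tendsto_add_atTop_nat 1)).const_mul D
  rw [mul_zero] at h2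
  have h3 := ENNReal.tendsto_ofReal h2
  rw [ENNReal.ofReal_zero] at h3
  refine h3.congr fun m => ?_
  simp only [Function.comp_apply, Nat.cast_add, Nat.cast_one]

/-- U6. PROOF. Choose `ρ₁ > 1` with `4 β ρ₁ < 1` (e.g. `ρ₁ = 2` if `β = 0`, else
`ρ₁ = (1 + 1/(4β))/2`; or `ρ₁ = 1/(2(4β)) + 1/2`), `ρ = ρ₁^(m+1)` in `U5_main`.
The first term is `C (2m+1)(m+1) / (ρ₁^2)^(m+1) → 0`; the second is
`≤ 4^m (2m+1)(m+1) C (ρ₁ β)^(m+1) ≤ C (2m+1)(m+1) (4 ρ₁ β)^(m+1) → 0` by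
`Nat.choose_middle_le_pow` (`tendsto_pow_const_mul_const_pow_of_abs_lt_one` or similar). -/
theorem U6_neg (c C : ℝ) (hC : 0 < C) (μ : (m : ℕ) → Measure (Fin (m + 1) → ℝ))
    (hp : ∀ m, IsProbabilityMeasure (μ m)) (hμ : ∀ m, Reg (μ m) c C) (β : ℝ) (hβ : 0 ≤ β)
    (hβ' : β < 1 / 4) :
    Tendsto (fun m => (Measure.pi (fun _ : Fin (2 * m + 1) => μ m)) {A | BW (m + 1) β A})
      atTop (𝓝 0) := by
  obtain ⟨r, hr1, hrβ⟩ : ∃ r : ℝ, 1 < r ∧ 4 * β * r < 1 := by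
    refine ⟨2 / (1 + 4 * β), ?_, ?_⟩
    · rw [lt_div_iff₀ (by linarith)]; linarith
    · rw [mul_div_assoc', div_lt_one (by linarith)]; linarith
  have hr0 : 0 < r := by linarith
  have hlim1 := U6_lim (2 * C) ((r⁻¹) ^ 2) (by
    rw [abs_of_nonneg (by positivity)]
    have h0 : r⁻¹ < 1 := inv_lt_one_of_one_lt₀ hr1
    have h1 : 0 ≤ r⁻¹ := by positivity
    exact pow_lt_one₀ h1 h0 (by norm_num))
  have hlim2 := U6_lim (2 * C) (4 * β * r) (by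
    rw [abs_of_nonneg (by positivity)]
    exact hrβ)
  have hlim := hlim1.add hlim2
  rw [add_zero] at hlim
  refine tendsto_of_tendsto_of_tendsto_of_le_of_le tendsto_const_nhds hlim
    (fun _ => zero_le) fun m => ?_
  have := hp m
  have hρ : 0 < r ^ (m + 1) := by positivity
  refine (U5_main (μ m) c C hC (hμ m) β hβ (r ^ (m + 1)) hρ).trans ?_
  apply add_le_add
  · apply ENNReal.ofReal_le_ofReal
    rw [div_eq_mul_inv]
    have h1 : ((r ^ (m + 1)) ^ 2)⁻¹ = (r⁻¹ ^ 2) ^ (m + 1) := by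
      rw [← inv_pow, ← inv_pow, ← pow_mul, ← pow_mul, mul_comm]
    rw [h1]
    have h2 : (2 * (m : ℝ) + 1) * (C * ((m : ℝ) + 1)) ≤ 2 * C * ((m : ℝ) + 1) ^ 2 := by
      have hm : (0 : ℝ) ≤ m := Nat.cast_nonneg m
      nlinarith [mul_nonneg hC.le hm, mul_nonneg hC.le (mul_nonneg hm hm)]
    calc (2 * (m : ℝ) + 1) * (C * ((m : ℝ) + 1)) * (r⁻¹ ^ 2) ^ (m + 1)
        ≤ 2 * C * ((m : ℝ) + 1) ^ 2 * (r⁻¹ ^ 2) ^ (m + 1) :=
          mul_le_mul_of_nonneg_right h2 (by positivity)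
      _ = 2 * C * (((m : ℝ) + 1) ^ 2 * (r⁻¹ ^ 2) ^ (m + 1)) := by ring
  · apply ENNReal.ofReal_le_ofReal
    have h3 : ((2 * m + 1).choose m : ℝ) ≤ 4 ^ (m + 1) := by
      have h := Nat.choose_middle_le_pow m
      calc ((2 * m + 1).choose m : ℝ) ≤ ((4 ^ m : ℕ) : ℝ) := by exact_mod_cast h
        _ = 4 ^ m := by push_cast; ring
        _ ≤ 4 ^ (m + 1) := pow_le_pow_right₀ (by norm_num) (by omega)
    have h2 : (2 * (m : ℝ) + 1) * (C * ((m : ℝ) + 1)) ≤ 2 * C * ((m : ℝ) + 1) ^ 2 := by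
      have hm : (0 : ℝ) ≤ m := Nat.cast_nonneg m
      nlinarith [mul_nonneg hC.le hm, mul_nonneg hC.le (mul_nonneg hm hm)]
    have h4 : (0 : ℝ) ≤ (r * β) ^ (m + 1) := by positivity
    calc ((2 * m + 1).choose m : ℝ) * (2 * (m : ℝ) + 1) *
          (C * (((m : ℝ) + 1) * (r ^ (m + 1) * β ^ (m + 1))))
        = ((2 * m + 1).choose m : ℝ) * (((2 * (m : ℝ) + 1) * (C * ((m : ℝ) + 1))) *
            (r * β) ^ (m + 1)) := by rw [mul_pow]; ring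
      _ ≤ 4 ^ (m + 1) * ((2 * C * ((m : ℝ) + 1) ^ 2) * (r * β) ^ (m + 1)) := by
          apply mul_le_mul h3 (mul_le_mul_of_nonneg_right h2 h4) (by positivity) (by positivity)
      _ = 2 * C * (((m : ℝ) + 1) ^ 2 * (4 * β * r) ^ (m + 1)) := by
          rw [show 4 * β * r = 4 * (r * β) by ring, mul_pow 4 (r * β)]; ring

end BWG
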