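import Pool.Agent.BWG.GDefs
import Pool.Agent.BWG.U2

set_option autoImplicit false

open MeasureTheory Finset Filter Topology Matrix
open scoped ENNReal


namespace BWG



/-- U7. PROOF. Finitely many `T` (`ae_all_iff`). For `T.card = m + 1` use `U2_indep` with
`j = k = m + 1`, `e = T.orderEmbOfFin hT`: the family `(A (e i))` is independent, of `m+1` vectors
in dimension `m+1`, so it spans (`LinearIndependent.span_eq_top_of_card_eq_finrank`), and its range
is the range of `fun i : T => A i.1`. -/
theorem U7_spark {m : ℕ} (μ : Measure (Fin (m + 1) → ℝ)) [IsProbabilityMeasure μ] (c C : ℝ)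
    (hμ : Reg μ c C) :
    ∀ᵐ A ∂(Measure.pi (fun _ : Fin (2 * m + 1) => μ)),
      ∀ T : Finset (Fin (2 * m + 1)), T.card = m + 1 →
        Submodule.span ℝ (Set.range (fun i : T => A i.1)) = ⊤ := by
  rw [ae_all_iff]
  intro T
  by_cases hT : T.card = m + 1
  · have h := U2_indep μ c C hμ (ι := Fin (2 * m + 1)) (m + 1) le_rfl (T.orderEmbOfFin hT)
      (T.orderEmbOfFin hT).injective
    filter_upwards [h] with A hA _
    have hs := hA.span_eq_top_of_card_eq_finrank (by simp)
    rw [← hs]
    congr 1
    ext x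
    constructor
    · rintro ⟨⟨i, hi⟩, rfl⟩
      have hr : i ∈ Set.range (T.orderEmbOfFin hT) := by
        rw [Finset.range_orderEmbOfFin]
        exact hi
      obtain ⟨j, hj⟩ := hr
      exact ⟨j, by simp only [hj]⟩
    · rintro ⟨j, rfl⟩
      exact ⟨⟨T.orderEmbOfFin hT j, Finset.orderEmbOfFin_mem T hT j⟩, rfl⟩
  · exact Filter.Eventually.of_forall fun A h => (hT h).elim

end BWG
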