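import Pool.Agent.BWG.GDefs
import Pool.Agent.BWG.Q1
import Pool.Agent.BWG.U6
import Pool.Agent.BWG.U7
import Pool.Agent.BWG.G4

set_option autoImplicit false

open MeasureTheory Finset Filter Topology Matrix
open scoped ENNReal

namespace BWG


/-- The frame `A` is full spark: every `M` of its rows span `ℝ^M`. -/
def FullSpark {ι : Type} (M : ℕ) (A : ι → Fin M → ℝ) : Prop :=
  ∀ T : Finset ι, T.card = M → Submodule.span ℝ (Set.range (fun i : T => A i.1)) = ⊤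

/-- The inequality of Balan and Wang with the constants `C` and `β`, written as in the frozen
statement `S04905`. -/
def BWC {ι : Type} [Fintype ι] (C : ℝ) (M : ℕ) (β : ℝ) (A : ι → Fin M → ℝ) : Prop :=
  ∃ S : Finset ι,
    Module.finrank ℝ (Submodule.span ℝ (Set.range (fun i : {i : ι // i ∉ S} => A i.1))) < M ∧
    ∃ x : Fin M → ℝ, ∑ j, x j ^ 2 = 1 ∧
      ∃ k : ι, Real.sqrt (∑ i ∈ S, (∑ j, A i j * x j) ^ 2)
        ≤ C * Real.sqrt (∑ j, A k j ^ 2) * β ^ M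

/-- From the constant `1` to the constant `C` and back, for large `M`. -/
theorem T1_up {ι : Type} [Fintype ι] (C : ℝ) (M : ℕ) (β β' : ℝ) (A : ι → Fin M → ℝ)
    (h : β' ^ M ≤ C * β ^ M) (hA : BW M β' A) : BWC C M β A := by
  obtain ⟨S, hS, x, hx, k, hk⟩ := hA
  refine ⟨S, hS, x, hx, k, hk.trans ?_⟩
  calc Real.sqrt (∑ j, A k j ^ 2) * β' ^ M
      ≤ Real.sqrt (∑ j, A k j ^ 2) * (C * β ^ M) :=
        mul_le_mul_of_nonneg_left h (Real.sqrt_nonneg _)
    _ = C * Real.sqrt (∑ j, A k j ^ 2) * β ^ M := by ring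

theorem T1_down {ι : Type} [Fintype ι] (C : ℝ) (M : ℕ) (β β' : ℝ) (A : ι → Fin M → ℝ)
    (h : C * β ^ M ≤ β' ^ M) (hA : BWC C M β A) : BW M β' A := by
  obtain ⟨S, hS, x, hx, k, hk⟩ := hA
  refine ⟨S, hS, x, hx, k, hk.trans ?_⟩
  calc C * Real.sqrt (∑ j, A k j ^ 2) * β ^ M
      = Real.sqrt (∑ j, A k j ^ 2) * (C * β ^ M) := by ring
    _ ≤ Real.sqrt (∑ j, A k j ^ 2) * β' ^ M :=
        mul_le_mul_of_nonneg_left h (Real.sqrt_nonneg _)

/-- Eventually `a^(m+1) ≤ C b^(m+1)` if `0 ≤ a < b` and `C > 0`. -/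
theorem T1_ev (C a b : ℝ) (hC : 0 < C) (ha : 0 ≤ a) (hab : a < b) :
    ∀ᶠ m : ℕ in atTop, a ^ (m + 1) ≤ C * b ^ (m + 1) := by
  have hb : 0 < b := lt_of_le_of_lt ha hab
  have h1 : Tendsto (fun m : ℕ => (a / b) ^ (m + 1)) atTop (𝓝 0) :=
    (tendsto_pow_atTop_nhds_zero_of_lt_one (div_nonneg ha hb.le)
      ((div_lt_one hb).2 hab)).comp (tendsto_add_atTop_nat 1)
  filter_upwards [h1.eventually (gt_mem_nhds hC)] with m hm
  rw [div_pow, div_lt_iff₀ (pow_pos hb _)] at hm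
  exact hm.le

/-- The main theorem: the exact exponential rate of `ω(A)` for random frames is `1/4`. -/
theorem main :
    (∀ (c C₀ : ℝ), 0 < c → 0 < C₀ → ∀ μ : (m : ℕ) → Measure (Fin (m + 1) → ℝ),
      (∀ m, IsProbabilityMeasure (μ m)) → (∀ m, Reg (μ m) c C₀) →
      (∀ m, ∀ᵐ A ∂(Measure.pi (fun _ : Fin (2 * m + 1) => μ m)), FullSpark (m + 1) A) ∧
      (∀ C β : ℝ, 0 < C → 1 / 4 < β →
        Tendsto (fun m => (Measure.pi (fun _ : Fin (2 * m + 1) => μ m))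
          {A | ¬ BWC C (m + 1) β A}) atTop (𝓝 0)) ∧
      (∀ C β : ℝ, 0 < C → 0 ≤ β → β < 1 / 4 →
        Tendsto (fun m => (Measure.pi (fun _ : Fin (2 * m + 1) => μ m))
          {A | BWC C (m + 1) β A}) atTop (𝓝 0))) ∧
    (∀ k : ℕ,
      Reg (Measure.pi (fun _ : Fin k => ProbabilityTheory.gaussianReal 0 1)) (2 / 5) 1) ∧
    (∀ C β : ℝ, 0 < C → 0 ≤ β → β < 1 / 4 → ∀ᶠ m : ℕ in atTop,
      ∃ A : Fin (2 * m + 1) → Fin (m + 1) → ℝ, FullSpark (m + 1) A ∧ ¬ BWC C (m + 1) β A) := by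
  have hmain : (∀ (c C₀ : ℝ), 0 < c → 0 < C₀ → ∀ μ : (m : ℕ) → Measure (Fin (m + 1) → ℝ),
      (∀ m, IsProbabilityMeasure (μ m)) → (∀ m, Reg (μ m) c C₀) →
      (∀ m, ∀ᵐ A ∂(Measure.pi (fun _ : Fin (2 * m + 1) => μ m)), FullSpark (m + 1) A) ∧
      (∀ C β : ℝ, 0 < C → 1 / 4 < β →
        Tendsto (fun m => (Measure.pi (fun _ : Fin (2 * m + 1) => μ m))
          {A | ¬ BWC C (m + 1) β A}) atTop (𝓝 0)) ∧
      (∀ C β : ℝ, 0 < C → 0 ≤ β → β < 1 / 4 →
        Tendsto (fun m => (Measure.pi (fun _ : Fin (2 * m + 1) => μ m))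
          {A | BWC C (m + 1) β A}) atTop (𝓝 0))) := by
    intro c C₀ hc hC₀ μ hp hμ
    refine ⟨fun m => ?_, fun C β hC hβ => ?_, fun C β hC hβ hβ' => ?_⟩
    · have := hp m
      exact U7_spark (μ m) c C₀ (hμ m)
    · have h := Q1_pos c C₀ hc hC₀ μ hp hμ ((1 / 4 + β) / 2) (by linarith)
      refine tendsto_of_tendsto_of_tendsto_of_le_of_le' tendsto_const_nhds h
        (Eventually.of_forall fun m => bot_le) ?_
      filter_upwards [T1_ev C ((1 / 4 + β) / 2) β hC (by linarith) (by linarith)] with m hm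
      refine measure_mono fun A hA => ?_
      intro hB
      exact hA (T1_up C (m + 1) β _ A hm hB)
    · have h := U6_neg c C₀ hC₀ μ hp hμ ((1 / 4 + β) / 2) (by linarith) (by linarith)
      refine tendsto_of_tendsto_of_tendsto_of_le_of_le' tendsto_const_nhds h
        (Eventually.of_forall fun m => bot_le) ?_
      filter_upwards [T1_ev C⁻¹ β ((1 / 4 + β) / 2) (inv_pos.2 hC) hβ (by linarith)] with m hm
      refine measure_mono fun A hA => ?_
      refine T1_down C (m + 1) β _ A ?_ hA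
      calc C * β ^ (m + 1) ≤ C * (C⁻¹ * ((1 / 4 + β) / 2) ^ (m + 1)) :=
            mul_le_mul_of_nonneg_left hm hC.le
        _ = ((1 / 4 + β) / 2) ^ (m + 1) := by field_simp
  refine ⟨hmain, G4_reg, fun C β hC hβ hβ' => ?_⟩
  obtain ⟨h1, -, h3⟩ := hmain (2 / 5) 1 (by norm_num) one_pos
    (fun m => Measure.pi (fun _ : Fin (m + 1) => ProbabilityTheory.gaussianReal 0 1))
    (fun m => inferInstance) (fun m => G4_reg (m + 1))
  filter_upwards [(h3 C β hC hβ hβ').eventually (gt_mem_nhds zero_lt_one)] with m hm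
  by_contra hcon
  push Not at hcon
  have h4 : ∀ᵐ A ∂(Measure.pi (fun _ : Fin (2 * m + 1) =>
      Measure.pi (fun _ : Fin (m + 1) => ProbabilityTheory.gaussianReal 0 1))),
      A ∈ {A | BWC C (m + 1) β A} := by
    filter_upwards [h1 m] with A hA
    exact hcon A hA
  have h5 : (Measure.pi (fun _ : Fin (2 * m + 1) =>
      Measure.pi (fun _ : Fin (m + 1) => ProbabilityTheory.gaussianReal 0 1)))
      {A | BWC C (m + 1) β A} = 1 := by
    have h6 : {A | BWC C (m + 1) β A} =ᵐ[Measure.pi (fun _ : Fin (2 * m + 1) =>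
        Measure.pi (fun _ : Fin (m + 1) => ProbabilityTheory.gaussianReal 0 1))]
        (Set.univ : Set (Fin (2 * m + 1) → Fin (m + 1) → ℝ)) :=
      ae_eq_univ.2 (mem_ae_iff.1 h4)
    rw [measure_congr h6, measure_univ]
  exact absurd h5 hm.ne

end BWG
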